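import Mathlib

/-!
# Phragmén–Lindelöf in the upper half plane
-/

open Complex Set Filter Topology

namespace WW47.BS

/-- A bounded function on the closed upper half plane is bounded by its bound on the line. -/
theorem pl_bdd {G : ℂ → ℂ} (hG : Differentiable ℂ G) {C δ : ℝ}
    (hC : ∀ z : ℂ, 0 ≤ z.im → ‖G z‖ ≤ C) (hδ : ∀ x : ℝ, ‖G x‖ ≤ δ) {z : ℂ} (hz : 0 ≤ z.im) :
    ‖G z‖ ≤ δ := by
  set f : ℂ → ℂ := fun w => G (I * w) with hf
  have hfd : Differentiable ℂ f := hG.comp (differentiable_id.const_mul I)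
  have him : ∀ w : ℂ, (I * w).im = w.re := fun w => by simp
  have key : ∀ w : ℂ, 0 ≤ w.re → ‖f w‖ ≤ δ := by
    intro w hw
    refine PhragmenLindelof.right_half_plane_of_bounded_on_real hfd.diffContOnCl
      ⟨1, one_lt_two, 0, ?_⟩ ?_ ?_ hw
    · refine Asymptotics.IsBigO.of_bound C ?_
      filter_upwards [mem_inf_of_right (mem_principal_self {z : ℂ | 0 < z.re})] with v hv
      have hv' : 0 < v.re := hv
      simp only [zero_mul, Real.exp_zero, norm_one, mul_one]
      exact hC _ (by rw [him]; exact hv'.le)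
    · refine ⟨C, ?_⟩
      rw [eventually_map]
      filter_upwards [eventually_ge_atTop 0] with x hx
      exact hC _ (by rw [him]; simpa using hx)
    · intro x
      have h1 : I * ((x : ℂ) * I) = ((-x : ℝ) : ℂ) := by
        push_cast
        linear_combination (x : ℂ) * I_sq
      rw [hf]
      simp only
      rw [h1]
      exact hδ _
  have h2 := key (-I * z) (by simpa using hz)
  have h3 : f (-I * z) = G z := by
    rw [hf]
    simp only
    congr 1
    linear_combination (-z) * I_sq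
  rwa [h3] at h2

/-- Exponential type: the bound on the line gives the bound in the upper half plane. -/
theorem pl_exp {G : ℂ → ℂ} (hG : Differentiable ℂ G) {C δ κ : ℝ}
    (hC : ∀ z : ℂ, 0 ≤ z.im → ‖G z‖ ≤ C * Real.exp (κ * z.im)) (hδ : ∀ x : ℝ, ‖G x‖ ≤ δ)
    {z : ℂ} (hz : 0 ≤ z.im) : ‖G z‖ ≤ δ * Real.exp (κ * z.im) := by
  set F : ℂ → ℂ := fun w => G w * exp (I * κ * w) with hF
  have hFd : Differentiable ℂ F := hG.mul (by fun_prop)
  have hn : ∀ w : ℂ, ‖exp (I * κ * w)‖ = Real.exp (-(κ * w.im)) := by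
    intro w
    rw [norm_exp]
    congr 1
    simp
  have h1 : ∀ w : ℂ, 0 ≤ w.im → ‖F w‖ ≤ C := by
    intro w hw
    rw [hF]
    simp only
    rw [norm_mul, hn]
    calc ‖G w‖ * Real.exp (-(κ * w.im)) ≤ C * Real.exp (κ * w.im) * Real.exp (-(κ * w.im)) := by
          gcongr
          exact hC w hw
      _ = C := by rw [mul_assoc, ← Real.exp_add]; simp
  have h2 := pl_bdd hFd h1 (δ := δ) (fun x => by
    rw [hF]
    simp only
    rw [norm_mul, hn]
    simpa using hδ x) hz
  rw [hF] at h2
  simp only at h2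
  rw [norm_mul, hn] at h2
  calc ‖G z‖ = ‖G z‖ * Real.exp (-(κ * z.im)) * Real.exp (κ * z.im) := by
        rw [mul_assoc, ← Real.exp_add]; simp
    _ ≤ δ * Real.exp (κ * z.im) := by gcongr

/-- Both half planes. -/
theorem pl_type {G : ℂ → ℂ} (hG : Differentiable ℂ G) {C δ κ : ℝ}
    (hC : ∀ z : ℂ, ‖G z‖ ≤ C * Real.exp (κ * |z.im|)) (hδ : ∀ x : ℝ, ‖G x‖ ≤ δ) (z : ℂ) :
    ‖G z‖ ≤ δ * Real.exp (κ * |z.im|) := by
  rcases le_total 0 z.im with h | h
  · rw [abs_of_nonneg h]
    refine pl_exp hG (C := C) (fun w hw => ?_) hδ h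
    have := hC w
    rwa [abs_of_nonneg hw] at this
  · have hG' : Differentiable ℂ (fun w => G (-w)) := hG.comp differentiable_neg
    have h1 := pl_exp hG' (C := C) (δ := δ) (κ := κ) (fun w hw => by
      have := hC (-w)
      rw [neg_im, abs_neg, abs_of_nonneg hw] at this
      exact this) (fun x => by
        have := hδ (-x)
        push_cast at this
        exact this) (z := -z) (by rw [neg_im]; linarith)
    simp only [neg_neg, neg_im] at h1
    rw [abs_of_nonpos h]
    exact h1

end WW47.BS
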