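import Mathlib
import Pool.Agent.WW47.BS.PL

/-!
# Almost periodicity of the defect `N' - γ N N₁`

If `N`, `N₁` have exponential type and common almost periods on the line, then so has
`N' - γ N N₁` (Phragmén–Lindelöf for `N (· + τ) - N` and the estimate of Cauchy).
-/

set_option autoImplicit false

open Complex Set Filter Topology
namespace WW47.BS

/-- Cauchy's estimate on the unit circle for a function of exponential type. -/
lemma deriv_le_of_type {G : ℂ → ℂ} (hG : Differentiable ℂ G) {C R : ℝ} (hC : 0 ≤ C) (hR : 0 ≤ R)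
    (h : ∀ z : ℂ, ‖G z‖ ≤ C * Real.exp (R * |z.im|)) (t : ℂ) :
    ‖deriv G t‖ ≤ C * Real.exp R * Real.exp (R * |t.im|) := by
  have h1 : ‖deriv G t‖ ≤ C * Real.exp (R * (|t.im| + 1)) / 1 := by
    refine Complex.norm_deriv_le_of_forall_mem_sphere_norm_le one_pos hG.diffContOnCl ?_
    intro z hz
    refine (h z).trans (mul_le_mul_of_nonneg_left (Real.exp_le_exp.2 ?_) hC)
    refine mul_le_mul_of_nonneg_left ?_ hR
    have h2 : ‖z - t‖ = 1 := by rwa [mem_sphere_iff_norm] at hz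
    have h3 : |z.im - t.im| ≤ 1 := by
      rw [← Complex.sub_im, ← h2]
      exact Complex.abs_im_le_norm _
    have h4 := abs_sub_abs_le_abs_sub z.im t.im
    linarith
  rw [div_one] at h1
  refine h1.trans (le_of_eq ?_)
  rw [mul_assoc, ← Real.exp_add]
  congr 2
  ring

theorem ap_defect {N N1 : ℂ → ℂ} (hN : Differentiable ℂ N) (hN1 : Differentiable ℂ N1)
    {C R γ : ℝ} (hC : 0 ≤ C) (hR : 0 ≤ R)
    (hNb : ∀ t : ℂ, ‖N t‖ ≤ C * Real.exp (R * |t.im|))
    (hN1b : ∀ t : ℂ, ‖N1 t‖ ≤ C * Real.exp (R * |t.im|))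
    (hap : ∀ δ > 0, ∃ L : ℝ, ∀ a : ℝ, ∃ τ ∈ Icc a (a + L), ∀ s : ℝ,
      ‖N (s + τ) - N s‖ ≤ δ ∧ ‖N1 (s + τ) - N1 s‖ ≤ δ) :
    (∃ C' : ℝ, ∀ t : ℂ, ‖deriv N t - γ * N t * N1 t‖ ≤ C' * Real.exp (2 * R * |t.im|)) ∧
    ∀ δ > 0, ∃ L : ℝ, ∀ a : ℝ, ∃ τ ∈ Icc a (a + L), ∀ s : ℝ,
      ‖N (s + τ) - N s‖ ≤ δ ∧
      ‖(deriv N (s + τ) - γ * N (s + τ) * N1 (s + τ)) - (deriv N s - γ * N s * N1 s)‖ ≤ δ := by
  have hdN := deriv_le_of_type hN hC hR hNb
  refine ⟨⟨C * Real.exp R + |γ| * C ^ 2, fun t => ?_⟩, fun δ hδ => ?_⟩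
  · have h1 : 0 ≤ R * |t.im| := mul_nonneg hR (abs_nonneg _)
    have h2 : Real.exp (R * |t.im|) ≤ Real.exp (2 * R * |t.im|) := Real.exp_le_exp.2 (by linarith)
    have h3 : Real.exp (R * |t.im|) * Real.exp (R * |t.im|) = Real.exp (2 * R * |t.im|) := by
      rw [← Real.exp_add]; congr 1; ring
    have h4 : ‖(γ : ℂ) * N t * N1 t‖ ≤ |γ| * C ^ 2 * Real.exp (2 * R * |t.im|) := by
      rw [norm_mul, norm_mul, Complex.norm_real, Real.norm_eq_abs, ← h3]
      calc |γ| * ‖N t‖ * ‖N1 t‖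
          ≤ |γ| * (C * Real.exp (R * |t.im|)) * (C * Real.exp (R * |t.im|)) := by
            gcongr
            · exact hNb t
            · exact hN1b t
        _ = |γ| * C ^ 2 * (Real.exp (R * |t.im|) * Real.exp (R * |t.im|)) := by ring
    have h5 : C * Real.exp R * Real.exp (R * |t.im|) ≤ C * Real.exp R * Real.exp (2 * R * |t.im|) :=
      mul_le_mul_of_nonneg_left h2 (by positivity)
    calc ‖deriv N t - γ * N t * N1 t‖ ≤ ‖deriv N t‖ + ‖(γ : ℂ) * N t * N1 t‖ := norm_sub_le _ _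
      _ ≤ C * Real.exp R * Real.exp (2 * R * |t.im|) + |γ| * C ^ 2 * Real.exp (2 * R * |t.im|) :=
          add_le_add ((hdN t).trans h5) h4
      _ = _ := by ring
  · have hK : 0 < 1 + Real.exp R + 2 * C * |γ| := by positivity
    obtain ⟨L, hL⟩ := hap (δ / (1 + Real.exp R + 2 * C * |γ|)) (by positivity)
    refine ⟨L, fun a => ?_⟩
    obtain ⟨τ, hτ, hs⟩ := hL a
    obtain ⟨ε, hε⟩ : ∃ ε, ε = δ / (1 + Real.exp R + 2 * C * |γ|) := ⟨_, rfl⟩
    rw [← hε] at hs
    have hε0 : 0 < ε := by rw [hε]; positivity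
    have hεδ : ε * (1 + Real.exp R + 2 * C * |γ|) = δ := by
      rw [hε]; field_simp
    have hεle : ε ≤ δ := by
      rw [← hεδ]
      have : 0 ≤ ε * (Real.exp R + 2 * C * |γ|) := by positivity
      linarith
    -- the difference
    have hG : Differentiable ℂ (fun z => N (z + τ) - N z) :=
      (hN.comp (differentiable_id.add_const _)).sub hN
    have hGb : ∀ z : ℂ, ‖N (z + τ) - N z‖ ≤ 2 * C * Real.exp (R * |z.im|) := by
      intro z
      have h1 := hNb (z + τ)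
      have h2 : (z + τ).im = z.im := by simp
      rw [h2] at h1
      calc ‖N (z + τ) - N z‖ ≤ ‖N (z + τ)‖ + ‖N z‖ := norm_sub_le _ _
        _ ≤ C * Real.exp (R * |z.im|) + C * Real.exp (R * |z.im|) := add_le_add h1 (hNb z)
        _ = _ := by ring
    have hG2 : ∀ z : ℂ, ‖N (z + τ) - N z‖ ≤ ε * Real.exp (R * |z.im|) :=
      fun z => pl_type hG hGb (fun x => (hs x).1) z
    have hdG := deriv_le_of_type hG hε0.le hR hG2
    refine ⟨τ, hτ, fun s => ⟨(hs s).1.trans hεle, ?_⟩⟩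
    have e1 : deriv (fun z => N (z + τ) - N z) (s : ℂ) = deriv N (s + τ) - deriv N s := by
      have h1 : HasDerivAt (fun z : ℂ => N (z + τ)) (deriv N (s + τ)) s :=
        (hN (s + τ)).hasDerivAt.comp_add_const (s : ℂ) (τ : ℂ)
      exact (h1.sub (hN s).hasDerivAt).deriv
    have e2 := hdG (s : ℂ)
    rw [e1, Complex.ofReal_im, abs_zero, mul_zero, Real.exp_zero, mul_one] at e2
    have e3 : ∀ r : ℝ, ‖N r‖ ≤ C := by
      intro r
      have := hNb r
      rwa [Complex.ofReal_im, abs_zero, mul_zero, Real.exp_zero, mul_one] at this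
    have e4 : ∀ r : ℝ, ‖N1 r‖ ≤ C := by
      intro r
      have := hN1b r
      rwa [Complex.ofReal_im, abs_zero, mul_zero, Real.exp_zero, mul_one] at this
    have e5 : ‖N1 (s + τ)‖ ≤ C := by
      have := e4 (s + τ)
      rwa [Complex.ofReal_add] at this
    have e6 : (deriv N (s + τ) - γ * N (s + τ) * N1 (s + τ)) - (deriv N s - γ * N s * N1 s) =
        (deriv N (s + τ) - deriv N s) - γ * ((N (s + τ) - N s) * N1 (s + τ) +
          N s * (N1 (s + τ) - N1 s)) := by ring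
    rw [e6]
    calc ‖(deriv N (s + τ) - deriv N s) - γ * ((N (s + τ) - N s) * N1 (s + τ) +
          N s * (N1 (s + τ) - N1 s))‖
        ≤ ‖deriv N (s + τ) - deriv N s‖ + ‖(γ : ℂ) * ((N (s + τ) - N s) * N1 (s + τ) +
          N s * (N1 (s + τ) - N1 s))‖ := norm_sub_le _ _
      _ ≤ ε * Real.exp R + |γ| * (ε * C + C * ε) := by
          refine add_le_add e2 ?_
          rw [norm_mul, Complex.norm_real, Real.norm_eq_abs]
          refine mul_le_mul_of_nonneg_left ?_ (abs_nonneg _)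
          refine (norm_add_le _ _).trans ?_
          rw [norm_mul, norm_mul]
          refine add_le_add ?_ ?_
          · exact mul_le_mul (hs s).1 e5 (norm_nonneg _) hε0.le
          · exact mul_le_mul (e3 s) (hs s).2 (norm_nonneg _) hC
      _ ≤ ε * (1 + Real.exp R + 2 * C * |γ|) := by nlinarith [hε0.le]
      _ = δ := hεδ

end WW47.BS
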