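import Pool.Agent.WW47.FS.End
import Pool.Agent.WW47.BS.PL

/-!
# Bounded time spectrum: deep velocity, identification at real times
-/

open Complex Set Filter Topology

namespace WW47.BS

open WW47.FS

/-- `f` extends to an entire function `F` with `|F(t)| ≤ C e^{R |Im t|}`. -/
def BandLim (C R : ℝ) (f : ℝ → ℝ) : Prop :=
  ∃ F : ℂ → ℂ, Differentiable ℂ F ∧ (∀ t : ℝ, F t = f t) ∧
    ∀ t : ℂ, ‖F t‖ ≤ C * Real.exp (R * |t.im|)

lemma BandLim.nonneg {C R : ℝ} {f : ℝ → ℝ} (h : BandLim C R f) : 0 ≤ C := by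
  obtain ⟨F, -, -, hb⟩ := h
  have := (norm_nonneg _).trans (hb 0)
  simpa using this

lemma BandLim.bound {C R : ℝ} {f : ℝ → ℝ} (h : BandLim C R f) (t : ℝ) : |f t| ≤ C := by
  obtain ⟨F, -, hF, hb⟩ := h
  have := hb t
  rw [hF] at this
  simpa using this

variable {g κ γ : ℝ} {η ψ : ℝ → ℝ → ℝ} {Φ : ℝ → ℂ → ℝ} {q : ℝ → ℝ → ℝ} {p : ℝ → ℝ}

lemma mem_Ioo_abs (t : ℝ) : t ∈ Ioo (-(|t| + 1)) (|t| + 1) := by
  have h1 := neg_abs_le t
  have h2 := le_abs_self t
  constructor <;> linarith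

lemma abs_pos1 (t : ℝ) : 0 < |t| + 1 := by positivity

/-- the velocity at deep points and complex times -/
lemma deep_data (hw : ∀ T > 0, WaterWave g κ γ (-T) T η ψ Φ q p) {C R Y : ℝ}
    (hη : ∀ x, BandLim C R (fun t => η t x))
    (hΦ : ∀ z : ℂ, z.im < Y → BandLim C R (fun t => px Φ t z) ∧ BandLim C R (fun t => py Φ t z)) :
    ∃ (c0 B : ℝ) (Wd : ℂ → ℂ → ℂ), 0 ≤ B ∧ (∀ t x, c0 < η t x) ∧
      (∀ z : ℂ, z.im < c0 → Differentiable ℂ fun t => Wd t z) ∧
      (∀ z : ℂ, z.im < c0 → ∀ t : ℂ, ‖Wd t z‖ ≤ B * Real.exp z.im * Real.exp (R * |t.im|)) ∧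
      ∀ z : ℂ, z.im < c0 → ∀ t : ℝ, Wd t z = Wt Φ (t, z) := by
  classical
  have hC : 0 ≤ C := (hη 0).nonneg
  have hex : ∀ z : ℂ, ∃ G : ℂ → ℂ, z.im < Y → Differentiable ℂ G ∧
      (∀ t : ℝ, G t = Wt Φ (t, z)) ∧ ∀ t : ℂ, ‖G t‖ ≤ 2 * C * Real.exp (R * |t.im|) := by
    intro z
    by_cases hz : z.im < Y
    · obtain ⟨⟨F1, d1, r1, b1⟩, ⟨F2, d2, r2, b2⟩⟩ := hΦ z hz
      refine ⟨fun t => F1 t - I * F2 t, fun _ => ⟨d1.sub (d2.const_mul I), fun t => ?_, fun t => ?_⟩⟩
      · show F1 t - I * F2 t = Wt Φ (t, z)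
        rw [r1, r2, ← vel_eq (hw _ (abs_pos1 t)).regΦ (mem_Ioo_abs t)]
        rfl
      · refine (norm_sub_le _ _).trans ?_
        rw [norm_mul, norm_I, one_mul]
        linarith [b1 t, b2 t]
    · exact ⟨0, fun h => absurd h hz⟩
  choose G hG using hex
  set c0 : ℝ := min Y (-C) - 1 with hc0
  have hcY : c0 < Y := by
    have := min_le_left Y (-C)
    linarith
  have hcC : c0 < -C := by
    have := min_le_right Y (-C)
    linarith
  have hlow : ∀ t x, c0 < η t x := by
    intro t x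
    have h1 := (hη x).bound t
    have h2 := neg_abs_le (η t x)
    linarith
  refine ⟨c0, 2 * C * Real.exp (-c0), fun t z => G z t, by positivity, hlow, fun z hz =>
    (hG z (hz.trans hcY)).1, fun z hz t => ?_, fun z hz t => (hG z (hz.trans hcY)).2.1 t⟩
  have hreal : ∀ s : ℝ, ‖G z s‖ ≤ 2 * C * Real.exp (-c0) * Real.exp z.im := by
    intro s
    rw [(hG z (hz.trans hcY)).2.1 s]
    have hws := hw _ (abs_pos1 s)
    have hs := mem_Ioo_abs s
    have h1 := decay (f := fun z : ℂ => Wt Φ (s, z)) (C := -c0) (Wt_per hws hs) ?_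
      (Wt_cont hws.regΦ hs).continuousOn (Wt_decay0 hws hs) (B := 2 * C) ?_ z (by linarith)
    · refine h1.trans (le_of_eq ?_)
      rw [Real.exp_add]
      ring
    · intro v hv
      refine (Wt_hol hws hs ?_).differentiableWithinAt
      have hv' : v.im < - -c0 := hv
      have := hlow s v.re
      linarith
    · intro x
      have him : ((x : ℂ) - ((-c0 : ℝ) : ℂ) * I).im = c0 := by simp
      have h2 := hG ((x : ℂ) - ((-c0 : ℝ) : ℂ) * I) (by rw [him]; exact hcY)
      show ‖Wt Φ (s, (x : ℂ) - ((-c0 : ℝ) : ℂ) * I)‖ ≤ 2 * C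
      rw [← h2.2.1 s]
      have h3 := h2.2.2 s
      simpa using h3
  exact pl_type (hG z (hz.trans hcY)).1 (hG z (hz.trans hcY)).2.2 hreal t

/-- a strip below a graph is connected -/
lemma isPreconnected_strip {h : ℝ → ℝ} (hh : Continuous h) (x0 s0 : ℝ) :
    IsPreconnected {z : ℂ | |z.re - x0| < s0 ∧ z.im < h z.re} := by
  have h1 : {z : ℂ | |z.re - x0| < s0 ∧ z.im < h z.re} =
      (fun P : ℝ × ℝ => (P.1 : ℂ) + ((P.2 + h P.1 : ℝ) : ℂ) * I) ''
        (Ioo (x0 - s0) (x0 + s0) ×ˢ Iio 0) := by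
    ext z
    simp only [mem_setOf_eq, mem_image, mem_prod, mem_Ioo, mem_Iio, Prod.exists]
    constructor
    · rintro ⟨e1, e2⟩
      rw [abs_lt] at e1
      refine ⟨z.re, z.im - h z.re, ⟨⟨by linarith [e1.1], by linarith [e1.2]⟩, by linarith⟩, ?_⟩
      apply Complex.ext <;> simp
    · rintro ⟨a, b, ⟨⟨e1, e2⟩, e3⟩, rfl⟩
      have hre : ((a : ℂ) + ((b + h a : ℝ) : ℂ) * I).re = a := by simp
      have him : ((a : ℂ) + ((b + h a : ℝ) : ℂ) * I).im = b + h a := by simp
      rw [hre, him]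
      exact ⟨by rw [abs_lt]; constructor <;> linarith, by linarith⟩
  rw [h1]
  refine (isPreconnected_Ioo.prod isPreconnected_Iio).image _ ?_
  fun_prop

/-- identification of the continued velocity with the velocity at real times, at the surface -/
lemma ident {a b : ℝ} (hw : WaterWave g κ γ a b η ψ Φ q p) {t : ℝ} (ht : t ∈ Ioo a b)
    {x0 s0 lev c0 : ℝ} (hs0 : 0 < s0) {F : ℂ → ℂ}
    (hF : DifferentiableOn ℂ F {z | |z.re - x0| < s0 ∧ z.im < lev})
    (hdeep : ∀ z : ℂ, |z.re - x0| < s0 → z.im < c0 → F z = Wt Φ (t, z))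
    (hlev : η t x0 < lev) : F (surf η t x0) = Wt Φ (t, surf η t x0) := by
  have hηc : Continuous (η t) := eta_cont hw ht
  set h : ℝ → ℝ := fun x => min lev (η t x) with hh
  have hhc : Continuous h := continuous_const.min hηc
  set D : Set ℂ := {z : ℂ | |z.re - x0| < s0 ∧ z.im < h z.re} with hD
  have hDp : IsPreconnected D := isPreconnected_strip hhc x0 s0
  have hDo : IsOpen D := by
    have h1 : IsOpen {z : ℂ | |z.re - x0| < s0} :=
      isOpen_lt (by fun_prop) continuous_const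
    have h2 : IsOpen {z : ℂ | z.im < h z.re} := isOpen_lt continuous_im (hhc.comp continuous_re)
    exact h1.inter h2
  have hSo : IsOpen {z : ℂ | |z.re - x0| < s0 ∧ z.im < lev} := by
    have h1 : IsOpen {z : ℂ | |z.re - x0| < s0} :=
      isOpen_lt (by fun_prop) continuous_const
    have h2 : IsOpen {z : ℂ | z.im < lev} := isOpen_lt continuous_im continuous_const
    exact h1.inter h2
  set G : ℂ → ℂ := fun z => F z - Wt Φ (t, z) with hG
  have hGd : DifferentiableOn ℂ G D := by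
    intro z hz
    have h1 : z.im < lev := hz.2.trans_le (min_le_left _ _)
    have h2 : z.im < η t z.re := hz.2.trans_le (min_le_right _ _)
    have h3 : DifferentiableAt ℂ F z := hF.differentiableAt (hSo.mem_nhds ⟨hz.1, h1⟩)
    exact (h3.sub (Wt_hol hw ht h2)).differentiableWithinAt
  -- a deep point
  set zd : ℂ := (x0 : ℂ) + ((min (h x0) c0 - 1 : ℝ) : ℂ) * I with hzd
  have hre : zd.re = x0 := by simp [hzd]
  have him : zd.im = min (h x0) c0 - 1 := by simp [hzd]
  have hzdD : zd ∈ D := by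
    refine ⟨by rw [hre]; simpa using hs0, ?_⟩
    rw [hre, him]
    have := min_le_left (h x0) c0
    linarith
  have hev : G =ᶠ[𝓝 zd] 0 := by
    have hop : IsOpen {v : ℂ | |v.re - x0| < s0 ∧ v.im < c0} := by
      have h1 : IsOpen {z : ℂ | |z.re - x0| < s0} :=
        isOpen_lt (by fun_prop) continuous_const
      have h2 : IsOpen {z : ℂ | z.im < c0} := isOpen_lt continuous_im continuous_const
      exact h1.inter h2
    filter_upwards [hop.mem_nhds (show zd ∈ {v : ℂ | |v.re - x0| < s0 ∧ v.im < c0} by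
      refine ⟨by rw [hre]; simpa using hs0, ?_⟩
      rw [him]
      have := min_le_right (h x0) c0
      linarith)] with v hv
    show F v - Wt Φ (t, v) = 0
    rw [hdeep v hv.1 hv.2, sub_self]
  have hzero := (hGd.analyticOnNhd hDo).eqOn_zero_of_preconnected_of_eventuallyEq_zero hDp hzdD hev
  -- limit to the surface
  have hsim : ∀ s : ℝ, (surf η t x0 - s * I).im = η t x0 - s := by
    intro s
    unfold surf
    simp
  have hsre : ∀ s : ℝ, (surf η t x0 - s * I).re = x0 := by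
    intro s
    unfold surf
    simp
  have h1 : Tendsto (fun s : ℝ => surf η t x0 - s * I) (𝓝[>] 0) (𝓝 (surf η t x0)) := by
    have h2 : Continuous fun s : ℝ => surf η t x0 - s * I := by fun_prop
    have h3 := h2.tendsto 0
    simp only [ofReal_zero, zero_mul, sub_zero] at h3
    exact h3.mono_left nhdsWithin_le_nhds
  have hFc : ContinuousAt F (surf η t x0) := by
    refine (hF.differentiableAt (hSo.mem_nhds ⟨?_, ?_⟩)).continuousAt
    · have : (surf η t x0).re = x0 := by unfold surf; simp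
      rw [this]
      simpa using hs0
    · have : (surf η t x0).im = η t x0 := by unfold surf; simp
      rw [this]
      exact hlev
  have hc1 := hFc.tendsto.comp h1
  have hc2 := ((Wt_cont hw.regΦ ht).tendsto (surf η t x0)).comp h1
  refine tendsto_nhds_unique hc1 (hc2.congr' ?_)
  filter_upwards [self_mem_nhdsWithin] with s hs
  have hs' : 0 < s := hs
  have hmem : surf η t x0 - s * I ∈ D := by
    refine ⟨by rw [hsre]; simpa using hs0, ?_⟩
    rw [hsre, hsim, hh]
    simp only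
    rw [lt_min_iff]
    constructor <;> linarith
  have := hzero hmem
  exact (sub_eq_zero.1 this).symm

end WW47.BS
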