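import Mathlib

/-!
# Periodic solutions of the Burgers equation which are constant in time at some places
-/

open Set Filter Topology

namespace WW47.BS

/-- the value is constant along the characteristic lines -/
theorem burg_char {η : ℝ → ℝ → ℝ} {γ : ℝ} (hη : ContDiff ℝ 1 (fun q : ℝ × ℝ => η q.1 q.2)) {t₀ x₀ p : ℝ}
    (hP : ∀ u ∈ Ico (0 : ℝ) 1, deriv (fun s => η s (x₀ - γ * η t₀ x₀ * p * u)) (t₀ + p * u) =
      γ * η (t₀ + p * u) (x₀ - γ * η t₀ x₀ * p * u) * deriv (η (t₀ + p * u)) (x₀ - γ * η t₀ x₀ * p * u)) :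
    η (t₀ + p) (x₀ - γ * η t₀ x₀ * p) = η t₀ x₀ := by
  obtain ⟨c, hc⟩ : ∃ c, c = η t₀ x₀ := ⟨_, rfl⟩
  rw [← hc] at hP ⊢
  set f : ℝ × ℝ → ℝ := fun q => η q.1 q.2 with hf
  have hd : ∀ q, HasFDerivAt f (fderiv ℝ f q) q := fun q =>
    (hη.differentiable one_ne_zero q).hasFDerivAt
  have hdt : ∀ t x, deriv (fun s => η s x) t = fderiv ℝ f (t, x) (1, 0) := by
    intro t x
    have h1 : HasDerivAt (fun s : ℝ => ((s, x) : ℝ × ℝ)) (1, 0) t :=
      (hasDerivAt_id t).prodMk (hasDerivAt_const t x)
    exact ((hd (t, x)).comp_hasDerivAt t h1).deriv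
  have hdx : ∀ t x, deriv (η t) x = fderiv ℝ f (t, x) (0, 1) := by
    intro t x
    have h1 : HasDerivAt (fun s : ℝ => ((t, s) : ℝ × ℝ)) (0, 1) x :=
      (hasDerivAt_const x t).prodMk (hasDerivAt_id x)
    exact ((hd (t, x)).comp_hasDerivAt x h1).deriv
  -- the line
  set l : ℝ → ℝ × ℝ := fun u => (t₀ + p * u, x₀ - γ * c * p * u) with hl
  have hl1 : ∀ u, HasDerivAt l (p, -(γ * c * p)) u := by
    intro u
    have h1 : HasDerivAt (fun u : ℝ => t₀ + p * u) p u := by
      simpa using ((hasDerivAt_id u).const_mul p).const_add t₀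
    have h2 : HasDerivAt (fun u : ℝ => x₀ - γ * c * p * u) (-(γ * c * p)) u := by
      simpa using ((hasDerivAt_id u).const_mul (γ * c * p)).const_sub x₀
    exact h1.prodMk h2
  have hlc : Continuous l := by
    rw [hl]
    fun_prop
  -- the integrating factor
  set a : ℝ → ℝ := fun u => γ * p * fderiv ℝ f (l u) (0, 1) with ha
  have hac : Continuous a := by
    have h1 : Continuous (fun q => fderiv ℝ f q) := hη.continuous_fderiv one_ne_zero
    have h2 : Continuous fun u => fderiv ℝ f (l u) (0, 1) := (h1.comp hlc).clm_apply continuous_const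
    rw [ha]
    exact continuous_const.mul h2
  set A : ℝ → ℝ := fun u => ∫ v in (0 : ℝ)..u, a v with hA
  have hA1 : ∀ u, HasDerivAt A (a u) u := fun u =>
    intervalIntegral.integral_hasDerivAt_right (hac.intervalIntegrable _ _)
      (hac.stronglyMeasurableAtFilter _ _) hac.continuousAt
  set L : ℝ → ℝ := fun u => f (l u) - c with hL
  have hL1 : ∀ u, HasDerivAt L (fderiv ℝ f (l u) (p, -(γ * c * p))) u := by
    intro u
    exact ((hd (l u)).comp_hasDerivAt u (hl1 u)).sub_const c
  have hlin : ∀ q, fderiv ℝ f q (p, -(γ * c * p)) =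
      p * fderiv ℝ f q (1, 0) - γ * c * p * fderiv ℝ f q (0, 1) := by
    intro q
    have : ((p, -(γ * c * p)) : ℝ × ℝ) = p • ((1, 0) : ℝ × ℝ) + (-(γ * c * p)) • ((0, 1) : ℝ × ℝ) := by
      ext <;> simp
    rw [this, map_add, map_smul, map_smul, smul_eq_mul, smul_eq_mul]
    ring
  have hL2 : ∀ u ∈ Ico (0 : ℝ) 1, fderiv ℝ f (l u) (p, -(γ * c * p)) = a u * L u := by
    intro u hu
    have h1 := hP u hu
    rw [hdt, hdx] at h1
    rw [hlin]
    have h2 : fderiv ℝ f (l u) (1, 0) = γ * f (l u) * fderiv ℝ f (l u) (0, 1) := h1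
    rw [h2, ha, hL]
    ring
  set F : ℝ → ℝ := fun u => L u * Real.exp (-A u) with hF
  have hF1 : ∀ u, HasDerivAt F (fderiv ℝ f (l u) (p, -(γ * c * p)) * Real.exp (-A u) +
      L u * (Real.exp (-A u) * -(a u))) u := fun u => (hL1 u).mul (hA1 u).neg.exp
  have hF2 : ∀ u ∈ Icc (0 : ℝ) 1, F u = F 0 := by
    apply constant_of_has_deriv_right_zero
    · exact fun u _ => (hF1 u).continuousAt.continuousWithinAt
    · intro u hu
      have h1 := hF1 u
      rw [hL2 u hu] at h1
      have h2 : a u * L u * Real.exp (-A u) + L u * (Real.exp (-A u) * -(a u)) = 0 := by ring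
      rw [h2] at h1
      exact h1.hasDerivWithinAt
  have hF3 := hF2 1 ⟨zero_le_one, le_rfl⟩
  have hF0 : F 0 = 0 := by
    simp only [hF, hL, hl, hf, mul_zero, add_zero, sub_zero, hc, sub_self, zero_mul]
  rw [hF0] at hF3
  have hL0 : L 1 = 0 := (mul_eq_zero.1 hF3).resolve_right (Real.exp_pos _).ne'
  simp only [hL, hl, hf, mul_one] at hL0
  linarith

/-- BURG -/
theorem burgers {η : ℝ → ℝ → ℝ} {γ : ℝ} (hη : ContDiff ℝ 1 (fun q : ℝ × ℝ => η q.1 q.2))
    (hper : ∀ t x, η t (x + 2 * Real.pi) = η t x)
    (h : ∀ x, (∀ t s, η t x = η s x) ∨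
      ∀ t, deriv (fun s => η s x) t = γ * η t x * deriv (η t) x) :
    ∀ x t s, η t x = η s x := by
  have hc : Continuous (fun q : ℝ × ℝ => η q.1 q.2) := hη.continuous
  have hct : ∀ x, Continuous fun t => η t x := fun x => hc.comp (by fun_prop : Continuous fun t : ℝ => ((t, x) : ℝ × ℝ))
  have hcx : ∀ t, Continuous fun x => η t x := fun t => hc.comp (by fun_prop : Continuous fun x : ℝ => ((t, x) : ℝ × ℝ))
  have hdt : ∀ x, Differentiable ℝ fun t => η t x := fun x =>
    (hη.differentiable one_ne_zero).comp (by fun_prop : Differentiable ℝ fun t : ℝ => ((t, x) : ℝ × ℝ))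
  -- the places where the function is constant in time
  set Z : Set ℝ := {x | ∀ t s, η t x = η s x} with hZ
  have hZc : IsClosed Z := by
    rw [hZ]
    simp only [ofPred_forall]
    exact isClosed_iInter fun t => isClosed_iInter fun s => isClosed_eq (hcx t) (hcx s)
  have hpde : ∀ x, x ∉ Z → ∀ t, deriv (fun s => η s x) t = γ * η t x * deriv (η t) x := fun x hx =>
    (h x).resolve_left hx
  suffices hall : ∀ x, x ∈ Z from fun x t s => hall x t s
  intro x₀
  by_contra hx₀
  -- `γ` is not `0`
  have hγ : γ ≠ 0 := by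
    rintro rfl
    apply hx₀
    intro t s
    apply is_const_of_deriv_eq_zero (hdt x₀)
    intro t
    rw [hpde x₀ hx₀ t]
    ring
  by_cases hZe : Z.Nonempty
  · -- the first point of `Z` to the right of `x₀`
    obtain ⟨z, hz⟩ := hZe
    have hzper : ∀ k : ℕ, z + k * (2 * Real.pi) ∈ Z := by
      intro k
      induction k with
      | zero => simpa using hz
      | succ k ih =>
        intro t s
        have e1 : z + ((k + 1 : ℕ) : ℝ) * (2 * Real.pi) = z + k * (2 * Real.pi) + 2 * Real.pi := by
          push_cast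
          ring
        rw [e1, hper, hper]
        exact ih t s
    obtain ⟨k, hk⟩ := exists_nat_gt ((x₀ - z) / (2 * Real.pi))
    have hk' : x₀ < z + k * (2 * Real.pi) := by
      rw [div_lt_iff₀ (by positivity)] at hk
      linarith
    set S : Set ℝ := Z ∩ Ici x₀ with hS
    have hSc : IsClosed S := hZc.inter isClosed_Ici
    have hSn : S.Nonempty := ⟨_, hzper k, hk'.le⟩
    have hSb : BddBelow S := ⟨x₀, fun y hy => hy.2⟩
    obtain ⟨β, hβ⟩ : ∃ β, β = sInf S := ⟨_, rfl⟩
    have hβS : β ∈ S := hβ ▸ hSc.csInf_mem hSn hSb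
    have hβx : x₀ < β := lt_of_le_of_ne hβS.2 (by rintro rfl; exact hx₀ hβS.1)
    have hIco : ∀ y ∈ Ico x₀ β, y ∉ Z := by
      intro y hy hyZ
      have : β ≤ y := hβ ▸ csInf_le hSb ⟨hyZ, hy.1⟩
      linarith [hy.2]
    -- the values
    have hval : ∀ t, η t x₀ = 0 ∨ η t x₀ = η 0 β := by
      intro t
      by_cases h0 : η t x₀ = 0
      · exact Or.inl h0
      right
      have hne : γ * η t x₀ ≠ 0 := mul_ne_zero hγ h0
      have h1 := burg_char (γ := γ) hη (t₀ := t) (x₀ := x₀) (p := -((β - x₀) / (γ * η t x₀))) (by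
        intro u hu
        apply hpde
        apply hIco
        have e1 : x₀ - γ * η t x₀ * -((β - x₀) / (γ * η t x₀)) * u = x₀ + (β - x₀) * u := by
          field_simp
          ring
        rw [e1]
        constructor
        · nlinarith [hu.1]
        · nlinarith [hu.2])
      have e2 : x₀ - γ * η t x₀ * -((β - x₀) / (γ * η t x₀)) = β := by
        field_simp
        ring
      rw [e2] at h1
      rw [← h1]
      exact hβS.1 _ _
    -- a continuous function with two values is constant
    apply hx₀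
    by_cases hb : η 0 β = 0
    · intro t s
      rw [(hval t).elim id (fun h => h.trans hb), (hval s).elim id (fun h => h.trans hb)]
    · by_contra hcon
      have hcon' : ¬ ∀ t s, η t x₀ = η s x₀ := hcon
      push Not at hcon'
      obtain ⟨t, s, hts⟩ := hcon'
      -- intermediate value
      have hmid : ∃ r, η r x₀ = η 0 β / 2 := by
        have h2 : η 0 β / 2 ∈ uIcc (η t x₀) (η s x₀) := by
          rcases hval t with h3 | h3 <;> rcases hval s with h4 | h4
          · exact absurd (h3.trans h4.symm) hts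
          · rw [h3, h4, mem_uIcc]
            rcases le_total 0 (η 0 β) with h5 | h5
            · left; constructor <;> linarith
            · right; constructor <;> linarith
          · rw [h3, h4, mem_uIcc]
            rcases le_total 0 (η 0 β) with h5 | h5
            · right; constructor <;> linarith
            · left; constructor <;> linarith
          · exact absurd (h3.trans h4.symm) hts
        obtain ⟨r, _, hr⟩ := intermediate_value_uIcc (hct x₀).continuousOn h2
        exact ⟨r, hr⟩
      obtain ⟨r, hr⟩ := hmid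
      rcases hval r with h3 | h3
      · rw [h3] at hr
        apply hb
        linarith
      · rw [h3] at hr
        apply hb
        linarith
  · -- the equation holds everywhere
    rw [not_nonempty_iff_eq_empty] at hZe
    have hpde' : ∀ x t, deriv (fun s => η s x) t = γ * η t x * deriv (η t) x := fun x =>
      hpde x (by rw [hZe]; exact notMem_empty x)
    have hch : ∀ t x p, η (t + p) (x - γ * η t x * p) = η t x := fun t x p =>
      burg_char hη fun u _ => hpde' _ _
    have hcon : ∀ x y, η 0 x = η 0 y := by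
      intro x y
      by_contra hne
      have h1 : η 0 x - η 0 y ≠ 0 := sub_ne_zero.2 hne
      have h2 : γ * (η 0 x - η 0 y) ≠ 0 := mul_ne_zero hγ h1
      have h3 := hch 0 x ((x - y) / (γ * (η 0 x - η 0 y)))
      have h4 := hch 0 y ((x - y) / (γ * (η 0 x - η 0 y)))
      have e1 : x - γ * η 0 x * ((x - y) / (γ * (η 0 x - η 0 y))) =
          y - γ * η 0 y * ((x - y) / (γ * (η 0 x - η 0 y))) := by
        field_simp
        ring
      rw [e1] at h3
      exact hne (h3.symm.trans h4)
    apply hx₀
    have hfin : ∀ t x, η t x = η 0 0 := by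
      intro t x
      have h3 := hch 0 (x + γ * η 0 0 * t) t
      have e1 : η 0 (x + γ * η 0 0 * t) = η 0 0 := hcon _ _
      rw [e1, zero_add, add_sub_cancel_right] at h3
      exact h3
    intro t s
    rw [hfin t, hfin s]

end WW47.BS
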