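import Mathlib

/-!
# A bound for the Lagrange basis with separated nodes
-/

open Complex Set Filter Topology

namespace WW47.BS

/-- Lagrange basis with nodes `v 0, …, v (n-1)` -/
noncomputable def lag (n : ℕ) (v : ℕ → ℂ) (j : ℕ) (u : ℂ) : ℂ :=
  ∏ i ∈ (Finset.range n).erase j, (u - v i) / (v j - v i)

lemma prod_abs_sub {n j : ℕ} (hj : j < n) :
    ∏ i ∈ (Finset.range n).erase j, |(i : ℝ) - j| = (j.factorial : ℝ) * (n - 1 - j).factorial := by
  have h1 : (Finset.range n).erase j = Finset.range j ∪ Finset.Ico (j + 1) n := by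
    ext i
    simp only [Finset.mem_erase, Finset.mem_range, Finset.mem_union, Finset.mem_Ico]
    omega
  have h2 : Disjoint (Finset.range j) (Finset.Ico (j + 1) n) := by
    rw [Finset.disjoint_left]
    intro i hi
    simp only [Finset.mem_range, Finset.mem_Ico] at hi ⊢
    omega
  rw [h1, Finset.prod_union h2]
  congr 1
  · have h3 : ∀ m : ℕ, ∏ i ∈ Finset.range m, |(i : ℝ) - m| = (m.factorial : ℝ) := by
      intro m
      rw [← Finset.prod_range_add_one_eq_factorial, Nat.cast_prod, ← Finset.prod_range_reflect]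
      refine Finset.prod_congr rfl fun i hi => ?_
      have hi' := Finset.mem_range.1 hi
      have h4 : ((m - 1 - i : ℕ) : ℝ) = m - 1 - i := by
        rw [Nat.cast_sub (by omega), Nat.cast_sub (by omega)]
        simp
      rw [h4, abs_of_nonpos (by have : (0 : ℝ) ≤ i := Nat.cast_nonneg i; linarith)]
      push_cast
      ring
    exact h3 j
  · rw [Finset.prod_Ico_eq_prod_range, ← Finset.prod_range_add_one_eq_factorial, Nat.cast_prod]
    have h5 : n - (j + 1) = n - 1 - j := by omega
    rw [h5]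
    refine Finset.prod_congr rfl fun i _ => ?_
    push_cast
    have h6 : (j : ℝ) + 1 + i - j = i + 1 := by ring
    rw [h6, abs_of_nonneg (by positivity)]

lemma pow_le_fact {n j : ℕ} (hj : j < n) :
    (n : ℝ) ^ (n - 1) ≤ 6 ^ n * ((j.factorial : ℝ) * (n - 1 - j).factorial) := by
  have hn : 0 < n := by omega
  have h1 : (n : ℝ) ^ n ≤ 3 ^ n * n.factorial := by
    have h2 := Real.pow_div_factorial_le_exp (n : ℝ) (Nat.cast_nonneg n) n
    have h3 : Real.exp (n : ℝ) ≤ 3 ^ n := by
      rw [← Real.exp_one_pow]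
      exact pow_le_pow_left₀ (Real.exp_pos _).le Real.exp_one_lt_three.le n
    have h4 : (0 : ℝ) < n.factorial := by exact_mod_cast n.factorial_pos
    rw [div_le_iff₀ h4] at h2
    exact h2.trans (mul_le_mul_of_nonneg_right h3 h4.le)
  have h5 : (n.factorial : ℝ) ≤ n * (2 ^ n * ((j.factorial : ℝ) * (n - 1 - j).factorial)) := by
    have h6 : n.factorial = n * (n - 1).factorial := (Nat.mul_factorial_pred hn.ne').symm
    have h7 : (n - 1).choose j * j.factorial * (n - 1 - j).factorial = (n - 1).factorial :=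
      Nat.choose_mul_factorial_mul_factorial (by omega)
    have h8 : (n - 1).choose j ≤ 2 ^ n :=
      (Nat.choose_le_two_pow _ _).trans (Nat.pow_le_pow_right (by norm_num) (by omega))
    have h9 : n.factorial ≤ n * (2 ^ n * (j.factorial * (n - 1 - j).factorial)) := by
      rw [h6, ← h7, mul_assoc]
      exact Nat.mul_le_mul_left _ (Nat.mul_le_mul_right _ h8)
    exact_mod_cast h9
  have hn' : (0 : ℝ) < n := by exact_mod_cast hn
  have h10 : (n : ℝ) ^ n = n ^ (n - 1) * n := by
    rw [← pow_succ]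
    congr 1
    omega
  have h11 : (n : ℝ) ^ (n - 1) * n ≤
      6 ^ n * ((j.factorial : ℝ) * (n - 1 - j).factorial) * n := by
    calc (n : ℝ) ^ (n - 1) * n = n ^ n := h10.symm
      _ ≤ 3 ^ n * n.factorial := h1
      _ ≤ 3 ^ n * (n * (2 ^ n * ((j.factorial : ℝ) * (n - 1 - j).factorial))) :=
          mul_le_mul_of_nonneg_left h5 (by positivity)
      _ = 6 ^ n * ((j.factorial : ℝ) * (n - 1 - j).factorial) * n := by
          rw [show (6 : ℝ) = 3 * 2 by norm_num, mul_pow]
          ring
  exact le_of_mul_le_mul_right h11 hn'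

/-- LAG -/
theorem lag_bound {n : ℕ} {v : ℕ → ℂ} {d D : ℝ} (hd : 0 < d) (hdD : d ≤ D)
    (hsep : ∀ i < n, ∀ j < n, d * |(i : ℝ) - j| / n ≤ ‖v i - v j‖) {u : ℂ}
    (hu : ∀ i < n, ‖u - v i‖ ≤ D) {j : ℕ} (hj : j < n) :
    ‖lag n v j u‖ ≤ (6 * D / d) ^ n := by
  have hn : 0 < n := by omega
  have hn' : (0 : ℝ) < n := by exact_mod_cast hn
  have hD : 0 < D := hd.trans_le hdD
  have hne : ∀ i ∈ (Finset.range n).erase j, 0 < |(i : ℝ) - j| := by
    intro i hi
    rw [abs_pos, sub_ne_zero]
    exact fun h => (Finset.mem_erase.1 hi).1 (by exact_mod_cast h)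
  have h1 : ‖lag n v j u‖ ≤ ∏ i ∈ (Finset.range n).erase j, (D * n / d) / |(i : ℝ) - j| := by
    unfold lag
    rw [norm_prod]
    refine Finset.prod_le_prod (fun i _ => norm_nonneg _) fun i hi => ?_
    have hi' := Finset.mem_range.1 (Finset.mem_of_mem_erase hi)
    have h2 := hsep i hi' j hj
    have h3 := hne i hi
    have h4 : 0 < d * |(i : ℝ) - j| / n := by positivity
    rw [norm_div, norm_sub_rev (v j) (v i)]
    calc ‖u - v i‖ / ‖v i - v j‖ ≤ D / (d * |(i : ℝ) - j| / n) :=
          div_le_div₀ hD.le (hu i hi') h4 h2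
      _ = (D * n / d) / |(i : ℝ) - j| := by
          field_simp
  have h5 : ∏ i ∈ (Finset.range n).erase j, (D * n / d) / |(i : ℝ) - j| =
      (D * n / d) ^ (n - 1) / ((j.factorial : ℝ) * (n - 1 - j).factorial) := by
    rw [Finset.prod_div_distrib, prod_abs_sub hj, Finset.prod_const,
      Finset.card_erase_of_mem (Finset.mem_range.2 hj), Finset.card_range]
  have hf : (0 : ℝ) < (j.factorial : ℝ) * (n - 1 - j).factorial := by positivity
  have h6 := pow_le_fact hj
  have h7 : (D / d) ^ (n - 1) ≤ (D / d) ^ n :=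
    pow_le_pow_right₀ ((one_le_div hd).2 hdD) (by omega)
  rw [h5] at h1
  refine h1.trans ?_
  rw [div_le_iff₀ hf]
  calc (D * n / d) ^ (n - 1) = (D / d) ^ (n - 1) * (n : ℝ) ^ (n - 1) := by
        rw [← mul_pow]; congr 1; ring
    _ ≤ (D / d) ^ n * (6 ^ n * ((j.factorial : ℝ) * (n - 1 - j).factorial)) :=
        mul_le_mul h7 h6 (by positivity) (by positivity)
    _ = (6 * D / d) ^ n * ((j.factorial : ℝ) * (n - 1 - j).factorial) := by
        rw [← mul_assoc, ← mul_pow]; congr 2; ring

end WW47.BS
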