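import Mathlib
import Pool.Agent.WW47.BS.Lag

/-!
# Two constants with many nodes in the half plane
-/

open Complex Set Filter Topology

namespace WW47.BS

lemma one_sub_conj_mul_ne {a u : ℂ} (ha : ‖a‖ < 1) (hu : ‖u‖ < 1) :
    1 - (starRingEnd ℂ) a * u ≠ 0 := by
  intro h
  have h1 : ‖(starRingEnd ℂ) a * u‖ = 1 := by
    rw [← sub_eq_zero.1 h]
    simp
  rw [norm_mul, Complex.norm_conj] at h1
  have : ‖a‖ * ‖u‖ < 1 := by nlinarith [norm_nonneg a, norm_nonneg u]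
  linarith

lemma blaschke_id (a u : ℂ) :
    ‖1 - (starRingEnd ℂ) a * u‖ ^ 2 - ‖u - a‖ ^ 2 = (1 - ‖a‖ ^ 2) * (1 - ‖u‖ ^ 2) := by
  simp only [Complex.sq_norm, Complex.normSq_apply]
  simp
  ring

/-- the Blaschke factor is at most one in the disc -/
lemma blaschke_lt {a u : ℂ} (ha : ‖a‖ < 1) (hu : ‖u‖ < 1) :
    ‖(u - a) / (1 - (starRingEnd ℂ) a * u)‖ < 1 := by
  rw [norm_div, div_lt_one (norm_pos_iff.2 (one_sub_conj_mul_ne ha hu))]
  have h := blaschke_id a u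
  have h1 : 0 < (1 - ‖a‖ ^ 2) * (1 - ‖u‖ ^ 2) := by
    apply mul_pos <;> nlinarith [norm_nonneg a, norm_nonneg u]
  exact lt_of_pow_lt_pow_left₀ 2 (norm_nonneg _) (by linarith)

lemma blaschke_le_exp {a u : ℂ} (ha : ‖a‖ ≤ 1 / 3) (hu : ‖u‖ < 1) :
    ‖(u - a) / (1 - (starRingEnd ℂ) a * u)‖ ≤ Real.exp (-((1 - ‖u‖) / 4)) := by
  have ha' : ‖a‖ < 1 := by linarith
  have hne := norm_pos_iff.2 (one_sub_conj_mul_ne ha' hu)
  have h := blaschke_id a u
  have hD : ‖1 - (starRingEnd ℂ) a * u‖ ≤ 4 / 3 := by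
    calc ‖1 - (starRingEnd ℂ) a * u‖ ≤ ‖(1 : ℂ)‖ + ‖(starRingEnd ℂ) a * u‖ := norm_sub_le _ _
      _ ≤ 1 + 1 / 3 * 1 := by
        rw [norm_mul, Complex.norm_conj, norm_one]
        have := mul_le_mul ha hu.le (norm_nonneg u) (by norm_num)
        linarith
      _ = 4 / 3 := by norm_num
  have hsq : (‖(u - a) / (1 - (starRingEnd ℂ) a * u)‖) ^ 2 ≤ 1 - (1 - ‖u‖) / 2 := by
    rw [norm_div, div_pow, div_le_iff₀ (by positivity)]
    have h1 : ‖u - a‖ ^ 2 = ‖1 - (starRingEnd ℂ) a * u‖ ^ 2 - (1 - ‖a‖ ^ 2) * (1 - ‖u‖ ^ 2) := by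
      linarith
    rw [h1]
    have hA : (8 : ℝ) / 9 ≤ 1 - ‖a‖ ^ 2 := by nlinarith [norm_nonneg a]
    have hU : 1 - ‖u‖ ≤ 1 - ‖u‖ ^ 2 := by nlinarith [norm_nonneg u]
    have hU0 : 0 ≤ 1 - ‖u‖ := by linarith
    have hD2 : ‖1 - (starRingEnd ℂ) a * u‖ ^ 2 ≤ 16 / 9 := by
      nlinarith [norm_nonneg (1 - (starRingEnd ℂ) a * u)]
    have h2 : 8 / 9 * (1 - ‖u‖) ≤ (1 - ‖a‖ ^ 2) * (1 - ‖u‖ ^ 2) :=
      mul_le_mul hA hU hU0 (by linarith)
    have h3 : (1 - ‖u‖) / 2 * ‖1 - (starRingEnd ℂ) a * u‖ ^ 2 ≤ (1 - ‖u‖) / 2 * (16 / 9) :=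
      mul_le_mul_of_nonneg_left hD2 (by linarith)
    nlinarith
  have hexp : 1 - (1 - ‖u‖) / 2 ≤ Real.exp (-((1 - ‖u‖) / 4)) ^ 2 := by
    rw [← Real.exp_nat_mul]
    have := Real.add_one_le_exp (-((1 - ‖u‖) / 2))
    have h4 : ((2 : ℕ) : ℝ) * -((1 - ‖u‖) / 4) = -((1 - ‖u‖) / 2) := by push_cast; ring
    rw [h4]
    linarith
  exact le_of_sq_le_sq' (hsq.trans hexp) (Real.exp_pos _).le
where
  le_of_sq_le_sq' {x y : ℝ} (h : x ^ 2 ≤ y ^ 2) (hy : 0 ≤ y) : x ≤ y :=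
    le_of_sq_le_sq h hy

/-- Schwarz lemma at a point of the disc -/
lemma schwarz_at {g : ℂ → ℂ} {B : ℝ} (hg : DifferentiableOn ℂ g (Metric.ball 0 1))
    (hB : ∀ u : ℂ, ‖u‖ < 1 → ‖g u‖ ≤ B) {a : ℂ} (ha : ‖a‖ < 1) (h0 : g a = 0) {u : ℂ}
    (hu : ‖u‖ < 1) : ‖g u‖ ≤ B * ‖(u - a) / (1 - (starRingEnd ℂ) a * u)‖ := by
  set φ : ℂ → ℂ := fun w => (w + a) / (1 + (starRingEnd ℂ) a * w) with hφ
  have hφlt : ∀ w : ℂ, ‖w‖ < 1 → ‖φ w‖ < 1 := by
    intro w hw
    have := blaschke_lt (a := -a) (u := w) (by simpa using ha) hw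
    simpa [hφ, sub_neg_eq_add] using this
  have hden : ∀ w : ℂ, ‖w‖ < 1 → 1 + (starRingEnd ℂ) a * w ≠ 0 := by
    intro w hw
    have := one_sub_conj_mul_ne (a := -a) (u := w) (by simpa using ha) hw
    simpa using this
  have hφd : DifferentiableOn ℂ φ (Metric.ball 0 1) := by
    intro w hw
    have hw' : ‖w‖ < 1 := by simpa using hw
    have h1 : DifferentiableAt ℂ (fun w : ℂ => w + a) w := by fun_prop
    have h2 : DifferentiableAt ℂ (fun w : ℂ => 1 + (starRingEnd ℂ) a * w) w := by fun_prop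
    exact (h1.div h2 (hden w hw')).differentiableWithinAt
  have hmaps : MapsTo φ (Metric.ball 0 1) (Metric.ball 0 1) := by
    intro w hw
    have hw' : ‖w‖ < 1 := by simpa using hw
    simpa using hφlt w hw'
  have hcomp : DifferentiableOn ℂ (g ∘ φ) (Metric.ball 0 1) := hg.comp hφd hmaps
  have hφ0 : φ 0 = a := by simp [hφ]
  have hc0 : (g ∘ φ) 0 = 0 := by simp [Function.comp, hφ0, h0]
  have hm2 : MapsTo (g ∘ φ) (Metric.ball 0 1) (Metric.closedBall ((g ∘ φ) 0) B) := by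
    intro w hw
    have hw' : ‖w‖ < 1 := by simpa using hw
    rw [hc0]
    simpa using hB _ (hφlt w hw')
  have hbu : ‖(u - a) / (1 - (starRingEnd ℂ) a * u)‖ < 1 := blaschke_lt ha hu
  have hS := Complex.dist_le_div_mul_dist_of_mapsTo_ball hcomp hm2
    (z := (u - a) / (1 - (starRingEnd ℂ) a * u)) (by simpa using hbu)
  have hback : φ ((u - a) / (1 - (starRingEnd ℂ) a * u)) = u := by
    have hne := one_sub_conj_mul_ne ha hu
    have hne2 := hden _ hbu
    rw [hφ]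
    simp only
    rw [div_eq_iff hne2]
    generalize (starRingEnd ℂ) a = b at hne
    have hne3 : 1 - u * b ≠ 0 := by rwa [mul_comm u]
    field_simp
    ring
  rw [hc0] at hS
  simp only [Function.comp, hback, dist_zero_right, div_one] at hS
  exact hS

/-- division by the Blaschke factor -/
lemma exists_div_blaschke {g : ℂ → ℂ} {B : ℝ} (hg : DifferentiableOn ℂ g (Metric.ball 0 1))
    (hB : ∀ u : ℂ, ‖u‖ < 1 → ‖g u‖ ≤ B) {a : ℂ} (ha : ‖a‖ < 1) (h0 : g a = 0) :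
    ∃ h : ℂ → ℂ, DifferentiableOn ℂ h (Metric.ball 0 1) ∧ (∀ u : ℂ, ‖u‖ < 1 → ‖h u‖ ≤ B) ∧
      ∀ u : ℂ, ‖u‖ < 1 → g u = (u - a) / (1 - (starRingEnd ℂ) a * u) * h u := by
  have hnhds : Metric.ball (0 : ℂ) 1 ∈ 𝓝 a :=
    Metric.isOpen_ball.mem_nhds (by simpa using ha)
  set h : ℂ → ℂ := fun u => (1 - (starRingEnd ℂ) a * u) * dslope g a u with hh
  have hd : DifferentiableOn ℂ h (Metric.ball 0 1) := by
    have h1 : DifferentiableOn ℂ (fun u : ℂ => 1 - (starRingEnd ℂ) a * u) (Metric.ball 0 1) := by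
      fun_prop
    exact h1.mul ((Complex.differentiableOn_dslope hnhds).2 hg)
  have hfac : ∀ u : ℂ, ‖u‖ < 1 → g u = (u - a) / (1 - (starRingEnd ℂ) a * u) * h u := by
    intro u hu
    have hne := one_sub_conj_mul_ne ha hu
    have h1 : (u - a) • dslope g a u = g u - g a := sub_smul_dslope g a u
    rw [h0, sub_zero, smul_eq_mul] at h1
    rw [hh]
    simp only
    rw [← h1, ← mul_assoc, div_mul_cancel₀ _ hne]
  refine ⟨h, hd, ?_, hfac⟩
  have hoff : ∀ u : ℂ, ‖u‖ < 1 → u ≠ a → ‖h u‖ ≤ B := by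
    intro u hu hua
    have hne := one_sub_conj_mul_ne ha hu
    have hpos : 0 < ‖(u - a) / (1 - (starRingEnd ℂ) a * u)‖ :=
      norm_pos_iff.2 (div_ne_zero (sub_ne_zero.2 hua) hne)
    have h2 := schwarz_at hg hB ha h0 hu
    rw [hfac u hu, norm_mul, mul_comm B] at h2
    exact le_of_mul_le_mul_left h2 hpos
  intro u hu
  by_cases hua : u = a
  · subst hua
    have hcont : ContinuousAt h u := (hd.differentiableAt hnhds).continuousAt
    have hcl : ∀ᶠ w in 𝓝[≠] u, ‖h w‖ ≤ B := by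
      filter_upwards [self_mem_nhdsWithin, mem_nhdsWithin_of_mem_nhds hnhds] with w hw1 hw2
      exact hoff w (by simpa using hw2) hw1
    exact le_of_tendsto (hcont.norm.tendsto.mono_left nhdsWithin_le_nhds) hcl
  · exact hoff u hu hua

/-- iterated Schwarz lemma -/
lemma schwarz_iter {B : ℝ} {w : ℕ → ℂ} : ∀ (n : ℕ) (g : ℂ → ℂ),
    DifferentiableOn ℂ g (Metric.ball 0 1) → (∀ u : ℂ, ‖u‖ < 1 → ‖g u‖ ≤ B) →
    (∀ j < n, ‖w j‖ ≤ 1 / 3) → (∀ i < n, ∀ j < n, w i = w j → i = j) →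
    (∀ j < n, g (w j) = 0) → ∀ u : ℂ, ‖u‖ < 1 →
      ‖g u‖ ≤ B * Real.exp (-((1 - ‖u‖) / 4)) ^ n := by
  intro n
  induction n with
  | zero =>
    intro g _ hB _ _ _ u hu
    simpa using hB u hu
  | succ n ih =>
    intro g hg hB hw hinj hz u hu
    have hwn : ‖w n‖ < 1 := lt_of_le_of_lt (hw n (by omega)) (by norm_num)
    obtain ⟨h, hd, hhB, hfac⟩ := exists_div_blaschke hg hB hwn (hz n (by omega))
    have hhz : ∀ j < n, h (w j) = 0 := by
      intro j hj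
      have hwj : ‖w j‖ < 1 := lt_of_le_of_lt (hw j (by omega)) (by norm_num)
      have h1 := hfac (w j) hwj
      rw [hz j (by omega)] at h1
      have hne : (w j - w n) / (1 - (starRingEnd ℂ) (w n) * w j) ≠ 0 := by
        refine div_ne_zero (sub_ne_zero.2 ?_) (one_sub_conj_mul_ne hwn hwj)
        intro h2
        have := hinj j (by omega) n (by omega) h2
        omega
      rcases mul_eq_zero.1 h1.symm with h2 | h2
      · exact absurd h2 hne
      · exact h2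
    have h3 := ih h hd hhB (fun j hj => hw j (by omega))
      (fun i hi j hj => hinj i (by omega) j (by omega)) hhz u hu
    have h4 := blaschke_le_exp (hw n (by omega)) hu
    rw [hfac u hu, norm_mul, pow_succ]
    have hB0 : 0 ≤ B := (norm_nonneg _).trans (hB 0 (by simp))
    calc ‖(u - w n) / (1 - (starRingEnd ℂ) (w n) * u)‖ * ‖h u‖
        ≤ Real.exp (-((1 - ‖u‖) / 4)) * (B * Real.exp (-((1 - ‖u‖) / 4)) ^ n) :=
          mul_le_mul h4 h3 (norm_nonneg _) (Real.exp_pos _).le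
      _ = B * (Real.exp (-((1 - ‖u‖) / 4)) ^ n * Real.exp (-((1 - ‖u‖) / 4))) := by ring

lemma lag_diff (n : ℕ) (w : ℕ → ℂ) (j : ℕ) : Differentiable ℂ (lag n w j) := by
  unfold lag
  apply Differentiable.fun_finsetProd
  intro i _
  fun_prop

lemma lag_self {n : ℕ} {w : ℕ → ℂ} (hinj : ∀ i < n, ∀ j < n, w i = w j → i = j) {j : ℕ}
    (hj : j < n) : lag n w j (w j) = 1 := by
  unfold lag
  apply Finset.prod_eq_one
  intro i hi
  rw [Finset.mem_erase, Finset.mem_range] at hi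
  apply div_self
  rw [sub_ne_zero]
  intro h
  exact hi.1 (hinj j hj i hi.2 h).symm

lemma lag_ne {n : ℕ} {w : ℕ → ℂ} {i j : ℕ} (hi : i < n) (hij : i ≠ j) :
    lag n w j (w i) = 0 := by
  unfold lag
  apply Finset.prod_eq_zero (i := i)
  · rw [Finset.mem_erase, Finset.mem_range]
    exact ⟨hij, hi⟩
  · simp

/-- the disc version -/
theorem disc_two {F : ℂ → ℂ} (hF : DifferentiableOn ℂ F (Metric.ball 0 1))
    (hb : ∀ u : ℂ, ‖u‖ < 1 → ‖F u‖ ≤ 1) {n : ℕ} (hn : 0 < n) {w : ℕ → ℂ}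
    (hw : ∀ j < n, ‖w j‖ = ((j : ℝ) + 1) / (3 * n)) {δ : ℝ} (hδ : 0 ≤ δ)
    (hs : ∀ j < n, ‖F (w j)‖ ≤ δ) {u : ℂ} (hu : ‖u‖ < 1) :
    ‖F u‖ ≤ n * 24 ^ n * δ + (1 + n * 24 ^ n * δ) * Real.exp (-(n * (1 - ‖u‖) / 4)) := by
  have hn' : (0 : ℝ) < n := by exact_mod_cast hn
  have hw3 : ∀ j < n, ‖w j‖ ≤ 1 / 3 := by
    intro j hj
    rw [hw j hj, div_le_div_iff₀ (by positivity) (by norm_num)]
    have : (j : ℝ) + 1 ≤ n := by exact_mod_cast hj
    linarith
  have hinj : ∀ i < n, ∀ j < n, w i = w j → i = j := by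
    intro i hi j hj hij
    have h1 : ((i : ℝ) + 1) / (3 * n) = ((j : ℝ) + 1) / (3 * n) := by
      rw [← hw i hi, ← hw j hj, hij]
    rw [div_left_inj' (by positivity)] at h1
    have : (i : ℝ) = j := by linarith
    exact_mod_cast this
  have hsep : ∀ i < n, ∀ j < n, (1 / 3 : ℝ) * |(i : ℝ) - j| / n ≤ ‖w i - w j‖ := by
    intro i hi j hj
    have h1 := abs_norm_sub_norm_le (w i) (w j)
    rw [hw i hi, hw j hj] at h1
    have h2 : ((i : ℝ) + 1) / (3 * n) - ((j : ℝ) + 1) / (3 * n) = ((i : ℝ) - j) / (3 * n) := by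
      ring
    rw [h2, abs_div, abs_of_pos (show (0 : ℝ) < 3 * n by positivity)] at h1
    have h3 : (1 / 3 : ℝ) * |(i : ℝ) - j| / n = |(i : ℝ) - j| / (3 * n) := by
      field_simp
    rw [h3]
    exact h1
  set Q : ℂ → ℂ := fun t => ∑ j ∈ Finset.range n, F (w j) * lag n w j t with hQ
  have hQd : Differentiable ℂ Q := by
    rw [hQ]
    apply Differentiable.fun_sum
    intro j _
    exact (differentiable_const _).mul (lag_diff n w j)
  have hQb : ∀ t : ℂ, ‖t‖ < 1 → ‖Q t‖ ≤ n * 24 ^ n * δ := by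
    intro t ht
    have hterm : ∀ j ∈ Finset.range n, ‖F (w j) * lag n w j t‖ ≤ δ * 24 ^ n := by
      intro j hj
      have hj' := Finset.mem_range.1 hj
      have h1 := lag_bound (n := n) (v := w) (d := 1 / 3) (D := 4 / 3) (by norm_num)
        (by norm_num) hsep (u := t) (by
          intro i hi
          calc ‖t - w i‖ ≤ ‖t‖ + ‖w i‖ := norm_sub_le _ _
            _ ≤ 1 + 1 / 3 := by linarith [hw3 i hi]
            _ = 4 / 3 := by norm_num) hj'
      have h2 : (6 * (4 / 3) / (1 / 3) : ℝ) = 24 := by norm_num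
      rw [h2] at h1
      rw [norm_mul]
      exact mul_le_mul (hs j hj') h1 (norm_nonneg _) hδ
    calc ‖Q t‖ ≤ ∑ j ∈ Finset.range n, ‖F (w j) * lag n w j t‖ := norm_sum_le _ _
      _ ≤ ∑ _j ∈ Finset.range n, δ * 24 ^ n := Finset.sum_le_sum hterm
      _ = n * 24 ^ n * δ := by rw [Finset.sum_const, Finset.card_range, nsmul_eq_mul]; ring
  have hQn : ∀ i < n, Q (w i) = F (w i) := by
    intro i hi
    rw [hQ]
    simp only
    rw [Finset.sum_eq_single i]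
    · rw [lag_self hinj hi, mul_one]
    · intro j _ hji
      rw [lag_ne hi (Ne.symm hji), mul_zero]
    · intro h
      exact absurd (Finset.mem_range.2 hi) h
  have hg : DifferentiableOn ℂ (fun t => F t - Q t) (Metric.ball 0 1) :=
    hF.sub hQd.differentiableOn
  have h5 := schwarz_iter (B := 1 + n * 24 ^ n * δ) (w := w) n (fun t => F t - Q t) hg
    (fun t ht => (norm_sub_le _ _).trans (add_le_add (hb t ht) (hQb t ht))) hw3 hinj
    (fun j hj => by simp [hQn j hj]) u hu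
  have h6 : Real.exp (-((1 - ‖u‖) / 4)) ^ n = Real.exp (-(n * (1 - ‖u‖) / 4)) := by
    rw [← Real.exp_nat_mul]
    congr 1
    ring
  rw [h6] at h5
  calc ‖F u‖ = ‖Q u + (F u - Q u)‖ := by congr 1; ring
    _ ≤ ‖Q u‖ + ‖F u - Q u‖ := norm_add_le _ _
    _ ≤ _ := add_le_add (hQb u hu) h5

/-- DISC -/
theorem half_two {f : ℂ → ℂ} (hf : DifferentiableOn ℂ f {z | 0 < z.im})
    (hb : ∀ z : ℂ, 0 < z.im → ‖f z‖ ≤ 1) {p : ℂ} (hp : 0 < p.im) {n : ℕ} (hn : 0 < n)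
    {v : ℕ → ℂ} (hv : ∀ j < n, ‖v j - p‖ = ((j : ℝ) + 1) / (3 * n) * ‖v j - (starRingEnd ℂ) p‖)
    {δ : ℝ} (hδ : 0 ≤ δ) (hs : ∀ j < n, ‖f (v j)‖ ≤ δ) {z : ℂ} (hz : 0 < z.im) :
    ‖f z‖ ≤ n * 24 ^ n * δ + (1 + n * 24 ^ n * δ) *
      Real.exp (-(n * (1 - ‖z - p‖ / ‖z - (starRingEnd ℂ) p‖) / 4)) := by
  have hn' : (0 : ℝ) < n := by exact_mod_cast hn
  set q : ℂ := (starRingEnd ℂ) p with hq
  have hqim : q.im = -p.im := by simp [hq]
  have hqre : q.re = p.re := by simp [hq]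
  -- the inverse map of the disc onto the half plane
  set ψ : ℂ → ℂ := fun u => (p - q * u) / (1 - u) with hψ
  have hnorm : ∀ z : ℂ, ‖z - q‖ ^ 2 - ‖z - p‖ ^ 2 = 4 * p.im * z.im := by
    intro z
    simp only [Complex.sq_norm, Complex.normSq_apply, Complex.sub_re, Complex.sub_im, hqim, hqre]
    ring
  have h1u : ∀ u : ℂ, ‖u‖ < 1 → (1 : ℂ) - u ≠ 0 := by
    intro u hu h
    have : u = 1 := (sub_eq_zero.1 h).symm
    rw [this] at hu
    simp at hu
  have hpq : p - q ≠ 0 := by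
    intro h
    have := congrArg Complex.im h
    simp only [Complex.sub_im, hqim, Complex.zero_im] at this
    linarith
  have hψp : ∀ u : ℂ, ‖u‖ < 1 → ψ u - p = (p - q) * u / (1 - u) := by
    intro u hu
    have := h1u u hu
    rw [hψ]
    simp only
    field_simp
    ring
  have hψq : ∀ u : ℂ, ‖u‖ < 1 → ψ u - q = (p - q) / (1 - u) := by
    intro u hu
    have := h1u u hu
    rw [hψ]
    simp only
    field_simp
    ring
  have hψim : ∀ u : ℂ, ‖u‖ < 1 → 0 < (ψ u).im := by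
    intro u hu
    have h2 := hnorm (ψ u)
    rw [hψp u hu, hψq u hu, norm_div, norm_div, norm_mul] at h2
    have h3 : 0 < ‖p - q‖ := norm_pos_iff.2 hpq
    have h4 : 0 < ‖1 - u‖ := norm_pos_iff.2 (h1u u hu)
    have h5 : 0 < (‖p - q‖ / ‖1 - u‖) ^ 2 - (‖p - q‖ * ‖u‖ / ‖1 - u‖) ^ 2 := by
      have h6 : (‖p - q‖ / ‖1 - u‖) ^ 2 - (‖p - q‖ * ‖u‖ / ‖1 - u‖) ^ 2
          = (‖p - q‖ / ‖1 - u‖) ^ 2 * (1 - ‖u‖ ^ 2) := by ring
      rw [h6]
      have h7 : 0 < 1 - ‖u‖ ^ 2 := by nlinarith [norm_nonneg u]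
      positivity
    rw [h2] at h5
    have h8 : 0 < 4 * p.im := by linarith
    exact (pos_iff_pos_of_mul_pos h5).1 h8
  have hψd : DifferentiableOn ℂ ψ (Metric.ball 0 1) := by
    intro u hu
    have hu' : ‖u‖ < 1 := by simpa using hu
    have h2 : DifferentiableAt ℂ (fun u : ℂ => p - q * u) u := by fun_prop
    have h3 : DifferentiableAt ℂ (fun u : ℂ => 1 - u) u := by fun_prop
    exact (h2.div h3 (h1u u hu')).differentiableWithinAt
  have hFd : DifferentiableOn ℂ (f ∘ ψ) (Metric.ball 0 1) := by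
    refine hf.comp hψd ?_
    intro u hu
    exact hψim u (by simpa using hu)
  -- the coordinate
  have hback : ∀ z : ℂ, z - q ≠ 0 → ψ ((z - p) / (z - q)) = z := by
    intro z hzq
    rw [hψ]
    simp only
    have h2 : (1 : ℂ) - (z - p) / (z - q) = (p - q) / (z - q) := by
      field_simp
      ring
    rw [h2]
    field_simp
    ring
  have hzq : ∀ z : ℂ, 0 < z.im → z - q ≠ 0 := by
    intro z hz h
    have := congrArg Complex.im h
    simp only [Complex.sub_im, hqim, Complex.zero_im] at this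
    linarith
  have hzlt : ∀ z : ℂ, 0 < z.im → ‖(z - p) / (z - q)‖ < 1 := by
    intro z hz
    rw [norm_div, div_lt_one (norm_pos_iff.2 (hzq z hz))]
    have h2 := hnorm z
    have h3 : 0 < 4 * p.im * z.im := by positivity
    exact lt_of_pow_lt_pow_left₀ 2 (norm_nonneg _) (by linarith)
  -- nodes lie in the half plane
  have hvim : ∀ j < n, 0 < (v j).im := by
    intro j hj
    have h2 := hnorm (v j)
    have h3 : ((j : ℝ) + 1) / (3 * n) ≤ 1 / 3 := by
      rw [div_le_div_iff₀ (by positivity) (by norm_num)]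
      have : (j : ℝ) + 1 ≤ n := by exact_mod_cast hj
      linarith
    have h4 : 0 ≤ ((j : ℝ) + 1) / (3 * n) := by positivity
    have h5 : 0 < ‖v j - q‖ := by
      rcases (norm_nonneg (v j - q)).lt_or_eq with h | h
      · exact h
      · exfalso
        have h6 := hv j hj
        rw [← h, mul_zero] at h6
        have h7 : v j = p := sub_eq_zero.1 (norm_eq_zero.1 h6)
        have h8 : v j = q := sub_eq_zero.1 (norm_eq_zero.1 h.symm)
        exact hpq (by rw [← h7, h8, sub_self])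
    rw [hv j hj] at h2
    have h6 : 0 < ‖v j - q‖ ^ 2 - (((j : ℝ) + 1) / (3 * n) * ‖v j - q‖) ^ 2 := by
      have h7 : ‖v j - q‖ ^ 2 - (((j : ℝ) + 1) / (3 * n) * ‖v j - q‖) ^ 2
          = ‖v j - q‖ ^ 2 * (1 - (((j : ℝ) + 1) / (3 * n)) ^ 2) := by ring
      rw [h7]
      have h8 : 0 < 1 - (((j : ℝ) + 1) / (3 * n)) ^ 2 := by nlinarith
      positivity
    rw [h2] at h6
    exact (pos_iff_pos_of_mul_pos h6).1 (by linarith)
  have hmain := disc_two (F := f ∘ ψ) hFd (fun u hu => hb _ (hψim u hu)) hn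
    (w := fun j => (v j - p) / (v j - q)) (by
      intro j hj
      rw [norm_div, hv j hj]
      have := norm_pos_iff.2 (hzq _ (hvim j hj))
      field_simp) hδ (by
      intro j hj
      show ‖f (ψ ((v j - p) / (v j - q)))‖ ≤ δ
      rw [hback _ (hzq _ (hvim j hj))]
      exact hs j hj) (hzlt z hz)
  simp only [Function.comp] at hmain
  rw [hback z (hzq z hz), norm_div] at hmain
  exact hmain

end WW47.BS
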