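import Pool.Agent.WW47.BS.PL
import Pool.Agent.WW47.BS.Disc

/-!
# The growth contradiction for almost periodic functions with bounded spectrum
-/

open Complex Set Filter Topology

namespace WW47.BS

/-- points of a connected set on the circles of Apollonius -/
lemma exists_node {Ω : Set ℂ} (hΩ : IsPreconnected Ω) {t0 p : ℂ} (ht0 : t0 ∈ Ω) (him : t0.im = 0)
    (hp : p ∈ Ω) {r : ℝ} (hr0 : 0 < r) (hr1 : r < 1) :
    ∃ v ∈ Ω, ‖v - p‖ = r * ‖v - (starRingEnd ℂ) p‖ := by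
  have hcont : ContinuousOn (fun v : ℂ => ‖v - p‖ - r * ‖v - (starRingEnd ℂ) p‖) Ω := by fun_prop
  have h1 : ‖p - p‖ - r * ‖p - (starRingEnd ℂ) p‖ ≤ 0 := by
    rw [sub_self, norm_zero]
    have := mul_nonneg hr0.le (norm_nonneg (p - (starRingEnd ℂ) p))
    linarith
  have h2 : 0 ≤ ‖t0 - p‖ - r * ‖t0 - (starRingEnd ℂ) p‖ := by
    have h3 : (starRingEnd ℂ) t0 = t0 := by
      rw [conj_eq_iff_im]; exact him
    have h4 : ‖t0 - (starRingEnd ℂ) p‖ = ‖t0 - p‖ := by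
      have : t0 - (starRingEnd ℂ) p = (starRingEnd ℂ) (t0 - p) := by rw [map_sub, h3]
      rw [this, RCLike.norm_conj]
    rw [h4]
    have := norm_nonneg (t0 - p)
    nlinarith
  obtain ⟨v, hv, hv0⟩ := hΩ.intermediate_value hp ht0 hcont (show (0 : ℝ) ∈ Icc _ _ from ⟨h1, h2⟩)
  exact ⟨v, hv, by simpa [sub_eq_zero] using hv0⟩

lemma normSq_pm (v p : ℂ) : ‖v - p‖ ^ 2 = (v.re - p.re) ^ 2 + (v.im - p.im) ^ 2 ∧
    ‖v - (starRingEnd ℂ) p‖ ^ 2 = (v.re - p.re) ^ 2 + (v.im + p.im) ^ 2 := by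
  constructor
  · rw [← normSq_eq_norm_sq, normSq_apply]
    simp only [sub_re, sub_im]
    ring
  · rw [← normSq_eq_norm_sq, normSq_apply]
    simp only [sub_re, sub_im, conj_re, conj_im]
    ring

/-- height of a node -/
lemma node_im {v p : ℂ} (hpi : 0 < p.im) {r : ℝ} (hr0 : 0 < r) (hr1 : r ≤ 1 / 3)
    (hv : ‖v - p‖ = r * ‖v - (starRingEnd ℂ) p‖) : p.im / 2 ≤ v.im ∧ v.im ≤ 2 * p.im := by
  obtain ⟨h1, h2⟩ := normSq_pm v p
  have h3 : ‖v - p‖ ^ 2 = r ^ 2 * ‖v - (starRingEnd ℂ) p‖ ^ 2 := by rw [hv]; ring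
  rw [h1, h2] at h3
  have h4 : r ^ 2 ≤ 1 / 9 := by nlinarith
  have h5 : (v.re - p.re) ^ 2 + (v.im - p.im) ^ 2 ≤
      1 / 9 * ((v.re - p.re) ^ 2 + (v.im + p.im) ^ 2) := by
    rw [h3]
    exact mul_le_mul_of_nonneg_right h4 (by positivity)
  have h6 : 9 * (v.im - p.im) ^ 2 ≤ (v.im + p.im) ^ 2 := by nlinarith [sq_nonneg (v.re - p.re)]
  have h7 : 0 ≤ (2 * v.im - p.im) * (2 * p.im - v.im) := by nlinarith
  constructor
  · by_contra hcon
    push Not at hcon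
    have h8 : 2 * v.im - p.im < 0 := by linarith
    have h9 : 2 * p.im - v.im ≤ 0 := by
      by_contra h10
      push Not at h10
      have := mul_neg_of_neg_of_pos h8 h10
      linarith
    linarith
  · by_contra hcon
    push Not at hcon
    have h8 : 2 * p.im - v.im < 0 := by linarith
    have h9 : 2 * v.im - p.im ≤ 0 := by
      by_contra h10
      push Not at h10
      have := mul_neg_of_pos_of_neg h10 h8
      linarith
    linarith

/-- the distance to the boundary in the disc picture -/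
lemma one_sub_w {z p : ℂ} (hp : 0 < p.im) (hz : 0 < z.im) (h1 : |z.re - p.re| ≤ p.im)
    (h2 : z.im ≤ p.im) :
    2 * z.im / (5 * p.im) ≤ 1 - ‖z - p‖ / ‖z - (starRingEnd ℂ) p‖ := by
  obtain ⟨e1, e2⟩ := normSq_pm z p
  set a := ‖z - p‖ with ha
  set b := ‖z - (starRingEnd ℂ) p‖ with hb
  have ha0 : 0 ≤ a := norm_nonneg _
  have hb0 : 0 ≤ b := norm_nonneg _
  have hbpos : 0 < b := by
    rcases hb0.eq_or_lt with h | h
    · exfalso
      rw [← h] at e2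
      nlinarith [sq_nonneg (z.re - p.re), sq_nonneg (z.im + p.im)]
    · exact h
  have hsq : (z.re - p.re) ^ 2 ≤ p.im ^ 2 := by
    have := abs_le.1 h1
    nlinarith
  have hb5 : b ^ 2 ≤ 5 * p.im ^ 2 := by rw [e2]; nlinarith
  have hdiff : b ^ 2 - a ^ 2 = 4 * z.im * p.im := by rw [e1, e2]; ring
  have hab : a ≤ b := by
    have : a ^ 2 ≤ b ^ 2 := by nlinarith [mul_pos hz hp]
    exact abs_le_of_sq_le_sq' this hb0 |>.2
  have key : 2 * z.im / (5 * p.im) * b ≤ b - a := by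
    have h3 : 2 * b * (b - a) ≥ 4 * z.im * p.im := by nlinarith
    have h4 : 2 * z.im / (5 * p.im) * b * (2 * b) ≤ 4 * z.im * p.im := by
      rw [div_mul_eq_mul_div, div_mul_eq_mul_div, div_le_iff₀ (by positivity)]
      nlinarith [mul_le_mul_of_nonneg_left hb5 hz.le]
    have h5 : 2 * z.im / (5 * p.im) * b * (2 * b) ≤ (b - a) * (2 * b) := by linarith
    exact le_of_mul_le_mul_right h5 (by positivity)
  have h6 : 1 - a / b = (b - a) / b := by field_simp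
  rw [h6, le_div_iff₀ hbpos]
  exact key

/-- difference of powers -/
lemma pow_lip (C : ℝ) (hC : 0 ≤ C) (M : ℕ) : ∃ K : ℝ, 0 ≤ K ∧ ∀ a b : ℂ, ‖a‖ ≤ C → ‖b‖ ≤ C →
    ‖a ^ M - b ^ M‖ ≤ K * ‖a - b‖ := by
  induction M with
  | zero => exact ⟨0, le_rfl, fun a b _ _ => by simp⟩
  | succ M ih =>
    obtain ⟨K, hK, h⟩ := ih
    refine ⟨C ^ M + K * C, by positivity, fun a b ha hb => ?_⟩
    have e1 : a ^ (M + 1) - b ^ (M + 1) = a ^ M * (a - b) + (a ^ M - b ^ M) * b := by ring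
    rw [e1]
    refine (norm_add_le _ _).trans ?_
    rw [norm_mul, norm_mul, norm_pow]
    have h1 : ‖a‖ ^ M ≤ C ^ M := pow_le_pow_left₀ (norm_nonneg _) ha M
    have h2 := h a b ha hb
    calc ‖a‖ ^ M * ‖a - b‖ + ‖a ^ M - b ^ M‖ * ‖b‖
        ≤ C ^ M * ‖a - b‖ + (K * ‖a - b‖) * C := by gcongr
      _ = (C ^ M + K * C) * ‖a - b‖ := by ring

/-- number of nodes -/
lemma nat_pow_bound (n : ℕ) : (n : ℝ) * 24 ^ n ≤ Real.exp (4 * n) := by
  have h1 : (2 : ℝ) ^ n * 24 ^ n ≤ Real.exp (4 * n) := by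
    rw [← mul_pow, show (4 : ℝ) * n = n * 4 by ring, Real.exp_nat_mul]
    refine pow_le_pow_left₀ (by norm_num) ?_ n
    have h2 : Real.exp 4 = Real.exp 1 ^ 4 := by rw [← Real.exp_nat_mul]; norm_num
    rw [h2]
    have h3 := Real.exp_one_gt_d9
    have h4 : (2.7 : ℝ) ^ 4 ≤ Real.exp 1 ^ 4 := pow_le_pow_left₀ (by norm_num) (by linarith) 4
    norm_num at h4 ⊢
    linarith
  have h5 : (n : ℝ) ≤ 2 ^ n := by exact_mod_cast (Nat.lt_two_pow_self).le
  refine le_trans ?_ h1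
  gcongr

/-- **The window estimate.** -/
lemma window {f : ℂ → ℂ} (hf : DifferentiableOn ℂ f {z | 0 < z.im})
    (hb : ∀ z : ℂ, 0 < z.im → ‖f z‖ ≤ 1) {Ω : Set ℂ} (hΩ : IsPreconnected Ω) {t0 p : ℂ}
    (ht0 : t0 ∈ Ω) (him : t0.im = 0) (hp : p ∈ Ω) (hpi : 0 < p.im) {m : ℝ} (hm : 16 ≤ m)
    (hsm : ∀ v ∈ Ω, p.im / 2 ≤ v.im → v.im ≤ 2 * p.im → ‖f v‖ ≤ Real.exp (-m))
    {z : ℂ} (hz : 0 < z.im) (h1 : |z.re - p.re| ≤ p.im) (h2 : z.im ≤ p.im) :
    ‖f z‖ ≤ 3 * Real.exp (-(m * z.im / (160 * p.im))) := by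
  set n : ℕ := ⌊m / 8⌋₊ with hn
  have hn1 : (n : ℝ) ≤ m / 8 := Nat.floor_le (by positivity)
  have hn2 : m / 8 < n + 1 := Nat.lt_floor_add_one _
  have hn3 : m / 16 ≤ n := by linarith
  have hn0 : 0 < n := by
    rw [Nat.pos_iff_ne_zero]
    intro h0
    rw [h0] at hn3
    simp at hn3
    linarith
  have hnR : (0 : ℝ) < n := by exact_mod_cast hn0
  have hr : ∀ j < n, 0 < ((j : ℝ) + 1) / (3 * n) ∧ ((j : ℝ) + 1) / (3 * n) ≤ 1 / 3 := by
    intro j hj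
    have hj' : (j : ℝ) + 1 ≤ n := by exact_mod_cast hj
    refine ⟨by positivity, ?_⟩
    rw [div_le_iff₀ (by positivity)]
    linarith
  have hex : ∀ j : ℕ, ∃ v : ℂ, j < n → v ∈ Ω ∧
      ‖v - p‖ = ((j : ℝ) + 1) / (3 * n) * ‖v - (starRingEnd ℂ) p‖ := by
    intro j
    by_cases hj : j < n
    · obtain ⟨v, hv, hv2⟩ := exists_node hΩ ht0 him hp (hr j hj).1
        ((hr j hj).2.trans_lt (by norm_num))
      exact ⟨v, fun _ => ⟨hv, hv2⟩⟩
    · exact ⟨0, fun h => absurd h hj⟩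
  choose v hv using hex
  have hfv : ∀ j < n, ‖f (v j)‖ ≤ Real.exp (-m) := by
    intro j hj
    obtain ⟨e1, e2⟩ := node_im hpi (hr j hj).1 (hr j hj).2 (hv j hj).2
    exact hsm _ (hv j hj).1 e1 e2
  have hmain := half_two hf hb hpi hn0 (fun j hj => (hv j hj).2) (Real.exp_pos _).le hfv hz
  have hw := one_sub_w hpi hz h1 h2
  set W : ℝ := 1 - ‖z - p‖ / ‖z - (starRingEnd ℂ) p‖ with hW
  set E : ℝ := Real.exp (-(m * z.im / (160 * p.im))) with hE
  have hexp1 : Real.exp (-(n * W / 4)) ≤ E := by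
    refine Real.exp_le_exp.2 (neg_le_neg ?_)
    have e1 : m / 16 * (2 * z.im / (5 * p.im)) ≤ n * W := by gcongr
    have e2 : m * z.im / (160 * p.im) = m / 16 * (2 * z.im / (5 * p.im)) / 4 := by
      field_simp
      ring
    rw [e2]
    linarith
  have hd : (n : ℝ) * 24 ^ n * Real.exp (-m) ≤ Real.exp (-(m / 2)) := by
    calc (n : ℝ) * 24 ^ n * Real.exp (-m) ≤ Real.exp (4 * n) * Real.exp (-m) := by
          gcongr
          exact nat_pow_bound n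
      _ = Real.exp (4 * n - m) := by rw [← Real.exp_add]; ring_nf
      _ ≤ _ := Real.exp_le_exp.2 (by linarith)
  have hd2 : Real.exp (-(m / 2)) ≤ E := by
    refine Real.exp_le_exp.2 (neg_le_neg ?_)
    rw [div_le_iff₀ (by positivity)]
    nlinarith
  have hd3 : Real.exp (-(m / 2)) ≤ 1 := Real.exp_le_one_iff.2 (by linarith)
  have hE0 : 0 ≤ E := (Real.exp_pos _).le
  calc ‖f z‖ ≤ n * 24 ^ n * Real.exp (-m) + (1 + n * 24 ^ n * Real.exp (-m)) *
        Real.exp (-(n * W / 4)) := hmain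
    _ ≤ E + (1 + 1) * E := by
        gcongr
        · exact hd.trans hd2
        · exact hd.trans hd3
    _ = 3 * E := by ring

end WW47.BS
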