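import Pool.Agent.WW47.BS.Core

/-!
# The growth contradiction: transfer by almost periods
-/

open Complex Set Filter Topology

namespace WW47.BS

variable {N P : ℂ → ℂ} {CN CP R σ A C : ℝ} {Ω : Set ℂ} {t0 : ℂ} {M : ℕ}

/-- the deficit on arbitrarily long windows -/
lemma windows (hN : Differentiable ℂ N) (hP : Differentiable ℂ P)
    (hCN : 0 < CN) (hCP : 0 < CP) (hR : 0 ≤ R) (hσ : 0 < σ)
    (hNb : ∀ t : ℂ, 0 ≤ t.im → ‖N t‖ ≤ CN * Real.exp (σ * t.im))
    (hPb : ∀ t : ℂ, 0 ≤ t.im → ‖P t‖ ≤ CP * Real.exp (R * t.im))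
    (hΩ : IsPreconnected Ω) (ht0 : t0 ∈ Ω) (him : t0.im = 0)
    (hbig : ∀ y : ℝ, ∃ t ∈ Ω, y ≤ t.im) (hM : 8 * |A| < M * σ)
    (hA : ∀ t ∈ Ω, 0 ≤ t.im → ‖P t‖ * ‖N t‖ ^ M ≤ C * Real.exp (A * t.im)) (y0 : ℝ) :
    ∃ xs y : ℝ, y0 ≤ y ∧ 0 < y ∧ ∀ z : ℂ, 0 < z.im → |z.re - xs| ≤ y → z.im ≤ y →
      ‖P z * N z ^ M‖ ≤ 3 * (CP * CN ^ M) * Real.exp ((R + M * σ - M * σ / 640) * z.im) := by
  set B : ℝ := CP * CN ^ M with hB
  have hB0 : 0 < B := by positivity
  set κ : ℝ := R + M * σ with hκ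
  have hMσ : 0 < M * σ := lt_of_le_of_lt (by positivity) hM
  have hκ0 : 0 < κ := by linarith
  set f : ℂ → ℂ := fun z => P z * N z ^ M * exp (I * κ * z) / B with hf
  have hfd : Differentiable ℂ f := ((hP.mul (hN.pow M)).mul (by fun_prop)).div_const _
  have hn : ∀ w : ℂ, ‖exp (I * κ * w)‖ = Real.exp (-(κ * w.im)) := by
    intro w
    rw [norm_exp]
    congr 1
    simp
  have hfn : ∀ z, ‖f z‖ = ‖P z * N z ^ M‖ * Real.exp (-(κ * z.im)) / B := by
    intro z
    rw [hf]
    simp only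
    rw [norm_div, norm_mul, hn, norm_real, Real.norm_eq_abs, abs_of_pos hB0]
  have hH : ∀ z : ℂ, 0 ≤ z.im → ‖P z * N z ^ M‖ ≤ B * Real.exp (κ * z.im) := by
    intro z hz
    rw [norm_mul, norm_pow]
    calc ‖P z‖ * ‖N z‖ ^ M ≤ (CP * Real.exp (R * z.im)) * (CN * Real.exp (σ * z.im)) ^ M := by
          gcongr
          · exact hPb z hz
          · exact hNb z hz
      _ = B * Real.exp (κ * z.im) := by
          rw [mul_pow, ← Real.exp_nat_mul, hB]
          have : Real.exp (κ * z.im) = Real.exp (R * z.im) * Real.exp (M * (σ * z.im)) := by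
            rw [← Real.exp_add]
            congr 1
            rw [hκ]
            ring
          rw [this]
          ring
  have hfb : ∀ z : ℂ, 0 < z.im → ‖f z‖ ≤ 1 := by
    intro z hz
    rw [hfn, div_le_one hB0]
    calc ‖P z * N z ^ M‖ * Real.exp (-(κ * z.im)) ≤
        B * Real.exp (κ * z.im) * Real.exp (-(κ * z.im)) := by
          gcongr
          exact hH z hz.le
      _ = B := by rw [mul_assoc, ← Real.exp_add]; simp
  set e : ℝ := M * σ / 4 - 2 * |A| with he
  have he0 : 0 < e := by rw [he]; linarith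
  obtain ⟨p, hp, hpY⟩ := hbig (max (max y0 1) (max (64 / (M * σ)) (|C| / B / e)))
  set y : ℝ := p.im with hy
  have hy0 : y0 ≤ y := ((le_max_left _ _).trans (le_max_left _ _)).trans hpY
  have hy1 : 1 ≤ y := ((le_max_right _ _).trans (le_max_left _ _)).trans hpY
  have hy2 : 64 / (M * σ) ≤ y := ((le_max_left _ _).trans (le_max_right _ _)).trans hpY
  have hy3 : |C| / B / e ≤ y := ((le_max_right _ _).trans (le_max_right _ _)).trans hpY
  have hypos : 0 < y := by linarith
  set m : ℝ := M * σ * y / 4 with hm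
  have hm16 : 16 ≤ m := by
    rw [div_le_iff₀ hMσ] at hy2
    rw [hm]
    nlinarith
  have hCB : |C| / B ≤ Real.exp (e * y) := by
    rw [div_le_iff₀ he0] at hy3
    have := Real.add_one_le_exp (e * y)
    nlinarith
  have hsm : ∀ v ∈ Ω, p.im / 2 ≤ v.im → v.im ≤ 2 * p.im → ‖f v‖ ≤ Real.exp (-m) := by
    intro v hv h1 h2
    rw [← hy] at h1 h2
    have hv0 : 0 ≤ v.im := by linarith
    rw [hfn]
    have h3 := hA v hv hv0
    rw [norm_mul, norm_pow]
    have h4 : C * Real.exp (A * v.im) ≤ |C| * Real.exp (2 * |A| * y) := by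
      have h5 : A * v.im ≤ 2 * |A| * y := by
        calc A * v.im ≤ |A| * v.im := by gcongr; exact le_abs_self A
          _ ≤ |A| * (2 * y) := by gcongr
          _ = _ := by ring
      calc C * Real.exp (A * v.im) ≤ |C| * Real.exp (A * v.im) := by
            gcongr
            exact le_abs_self C
        _ ≤ _ := by gcongr
    have h6 : Real.exp (-(κ * v.im)) ≤ Real.exp (-(M * σ * y / 2)) := by
      refine Real.exp_le_exp.2 (neg_le_neg ?_)
      have h7 : M * σ * (y / 2) ≤ κ * v.im := by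
        have h8 : M * σ ≤ κ := by linarith
        exact mul_le_mul h8 h1 (by positivity) hκ0.le
      linarith
    calc ‖P v‖ * ‖N v‖ ^ M * Real.exp (-(κ * v.im)) / B
        ≤ (|C| * Real.exp (2 * |A| * y)) * Real.exp (-(M * σ * y / 2)) / B := by
          refine div_le_div_of_nonneg_right ?_ hB0.le
          exact mul_le_mul (h3.trans h4) h6 (Real.exp_pos _).le (by positivity)
      _ = (|C| / B) * (Real.exp (2 * |A| * y) * Real.exp (-(M * σ * y / 2))) := by ring
      _ ≤ Real.exp (e * y) * (Real.exp (2 * |A| * y) * Real.exp (-(M * σ * y / 2))) := by gcongr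
      _ = Real.exp (-m) := by
          rw [← Real.exp_add, ← Real.exp_add]
          congr 1
          rw [he, hm]
          ring
  refine ⟨p.re, y, hy0, hypos, fun z hz h1 h2 => ?_⟩
  have hwin := window hfd.differentiableOn hfb hΩ ht0 him hp hypos hm16 hsm hz h1 h2
  rw [hfn, ← hy] at hwin
  have e1 : m * z.im / (160 * y) = M * σ / 640 * z.im := by
    rw [hm]
    field_simp
    ring
  rw [e1, div_le_iff₀ hB0] at hwin
  have e2 : Real.exp ((R + M * σ - M * σ / 640) * z.im) =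
      Real.exp (-(M * σ / 640 * z.im)) * Real.exp (κ * z.im) := by
    rw [← Real.exp_add]
    congr 1
    rw [hκ]
    ring
  rw [e2]
  calc ‖P z * N z ^ M‖ = ‖P z * N z ^ M‖ * Real.exp (-(κ * z.im)) * Real.exp (κ * z.im) := by
        rw [mul_assoc, ← Real.exp_add]; simp
    _ ≤ (3 * Real.exp (-(M * σ / 640 * z.im)) * B) * Real.exp (κ * z.im) := by gcongr
    _ = _ := by ring

/-- the deficit everywhere -/
lemma key_M (hN : Differentiable ℂ N) (hP : Differentiable ℂ P)
    (hCN : 0 < CN) (hCP : 0 < CP) (hR : 0 ≤ R) (hσ : 0 < σ)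
    (hNb : ∀ t : ℂ, 0 ≤ t.im → ‖N t‖ ≤ CN * Real.exp (σ * t.im))
    (hPb : ∀ t : ℂ, 0 ≤ t.im → ‖P t‖ ≤ CP * Real.exp (R * t.im))
    (hap : ∀ δ > 0, ∃ L : ℝ, ∀ a : ℝ, ∃ τ ∈ Icc a (a + L), ∀ s : ℝ,
      ‖N (s + τ) - N s‖ ≤ δ ∧ ‖P (s + τ) - P s‖ ≤ δ)
    (hΩ : IsPreconnected Ω) (ht0 : t0 ∈ Ω) (him : t0.im = 0)
    (hbig : ∀ y : ℝ, ∃ t ∈ Ω, y ≤ t.im) (hM : 8 * |A| < M * σ)
    (hA : ∀ t ∈ Ω, 0 ≤ t.im → ‖P t‖ * ‖N t‖ ^ M ≤ C * Real.exp (A * t.im)) {t : ℂ}
    (ht : 0 < t.im) :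
    ‖P t‖ * ‖N t‖ ^ M ≤ 3 * (CP * CN ^ M) * Real.exp ((R + M * σ - M * σ / 640) * t.im) := by
  set B : ℝ := CP * CN ^ M with hB
  have hB0 : 0 < B := by positivity
  set κ : ℝ := R + M * σ with hκ
  set H : ℂ → ℂ := fun z => P z * N z ^ M with hHdef
  have hHd : Differentiable ℂ H := hP.mul (hN.pow M)
  have hH : ∀ z : ℂ, 0 ≤ z.im → ‖H z‖ ≤ B * Real.exp (κ * z.im) := by
    intro z hz
    rw [hHdef]
    simp only
    rw [norm_mul, norm_pow]
    calc ‖P z‖ * ‖N z‖ ^ M ≤ (CP * Real.exp (R * z.im)) * (CN * Real.exp (σ * z.im)) ^ M := by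
          gcongr
          · exact hPb z hz
          · exact hNb z hz
      _ = B * Real.exp (κ * z.im) := by
          rw [mul_pow, ← Real.exp_nat_mul, hB]
          have : Real.exp (κ * z.im) = Real.exp (R * z.im) * Real.exp (M * (σ * z.im)) := by
            rw [← Real.exp_add]
            congr 1
            rw [hκ]
            ring
          rw [this]
          ring
  obtain ⟨K, hK0, hK⟩ := pow_lip CN hCN.le M
  have hNr : ∀ s : ℝ, ‖N s‖ ≤ CN := fun s => by
    have := hNb s (by simp)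
    simpa using this
  have hPr : ∀ s : ℝ, ‖P s‖ ≤ CP := fun s => by
    have := hPb s (by simp)
    simpa using this
  set K' : ℝ := CN ^ M + CP * K + 1 with hK'
  have hK'0 : 0 < K' := by positivity
  have hgoal : ‖H t‖ ≤ 3 * B * Real.exp ((R + M * σ - M * σ / 640) * t.im) := by
    refine le_of_forall_pos_le_add fun ε hε => ?_
    set δ : ℝ := ε / (K' * Real.exp (κ * t.im)) with hδ
    have hδ0 : 0 < δ := by positivity
    obtain ⟨L, hL⟩ := hap δ hδ0
    obtain ⟨xs, y, hy1, hy2, hwin⟩ := windows hN hP hCN hCP hR hσ hNb hPb hΩ ht0 him hbig hM hA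
      (max t.im |L|)
    have hyt : t.im ≤ y := (le_max_left _ _).trans hy1
    have hyL : |L| ≤ y := (le_max_right _ _).trans hy1
    obtain ⟨τ, hτ, hτ2⟩ := hL (xs - y - t.re)
    have h1 : ‖H (t + τ)‖ ≤ 3 * B * Real.exp ((R + M * σ - M * σ / 640) * t.im) := by
      have him' : (t + (τ : ℂ)).im = t.im := by simp
      have hre' : (t + (τ : ℂ)).re = t.re + τ := by simp
      have := hwin (t + τ) (by rw [him']; exact ht) (by
        rw [hre', abs_le]
        have h2 := hτ.1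
        have h3 := hτ.2
        have h4 := le_abs_self L
        constructor <;> linarith) (by rw [him']; exact hyt)
      rwa [him'] at this
    set D : ℂ → ℂ := fun z => H (z + τ) - H z with hD
    have hDd : Differentiable ℂ D := (hHd.comp (differentiable_id.add_const _)).sub hHd
    have h2 : ‖D t‖ ≤ (K' * δ) * Real.exp (κ * t.im) := by
      refine pl_exp hDd (C := 2 * B) (fun z hz => ?_) (fun s => ?_) ht.le
      · have e1 := hH (z + τ) (by simpa using hz)
        have e2 := hH z hz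
        have e3 : (z + (τ : ℂ)).im = z.im := by simp
        rw [e3] at e1
        refine (norm_sub_le _ _).trans ?_
        linarith
      · obtain ⟨e1, e2⟩ := hτ2 s
        rw [hD, hHdef]
        simp only
        have hs' : ‖N ((s : ℂ) + τ)‖ ≤ CN := by
          have := hNr (s + τ)
          push_cast at this
          exact this
        have e3 : P (s + τ) * N (s + τ) ^ M - P s * N s ^ M =
            (P (s + τ) - P s) * N (s + τ) ^ M + P s * (N (s + τ) ^ M - N s ^ M) := by ring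
        rw [e3]
        refine (norm_add_le _ _).trans ?_
        rw [norm_mul, norm_mul, norm_pow]
        have e4 := hK _ _ hs' (hNr s)
        calc ‖P (s + τ) - P s‖ * ‖N (s + τ)‖ ^ M + ‖P s‖ * ‖N (s + τ) ^ M - N s ^ M‖
            ≤ δ * CN ^ M + CP * (K * δ) := by
              gcongr
              · exact hPr s
              · exact e4.trans (by gcongr)
          _ ≤ K' * δ := by
              rw [hK']
              nlinarith
    have h3 : (K' * δ) * Real.exp (κ * t.im) = ε := by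
      rw [hδ]
      have := Real.exp_pos (κ * t.im)
      field_simp
    rw [h3] at h2
    calc ‖H t‖ = ‖H (t + τ) - D t‖ := by rw [hD]; simp
      _ ≤ ‖H (t + τ)‖ + ‖D t‖ := norm_sub_le _ _
      _ ≤ _ := add_le_add h1 h2
  rw [hHdef] at hgoal
  simp only at hgoal
  rwa [norm_mul, norm_pow] at hgoal

/-- **The growth contradiction.** -/
theorem core (hN : Differentiable ℂ N) (hP : Differentiable ℂ P)
    (hNb : ∀ t : ℂ, 0 ≤ t.im → ‖N t‖ ≤ C * Real.exp (R * t.im))
    (hPb : ∀ t : ℂ, 0 ≤ t.im → ‖P t‖ ≤ C * Real.exp (R * t.im))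
    (hap : ∀ δ > 0, ∃ L : ℝ, ∀ a : ℝ, ∃ τ ∈ Icc a (a + L), ∀ s : ℝ,
      ‖N (s + τ) - N s‖ ≤ δ ∧ ‖P (s + τ) - P s‖ ≤ δ)
    (hΩ : IsPreconnected Ω) (ht0 : t0 ∈ Ω) (him : t0.im = 0)
    (hbig : ∀ y : ℝ, ∃ t ∈ Ω, y ≤ t.im)
    (hA : ∀ M : ℕ, ∃ C' : ℝ, ∀ t ∈ Ω, 0 ≤ t.im → ‖P t‖ * ‖N t‖ ^ M ≤ C' * Real.exp (A * t.im)) :
    (∀ t, P t = 0) ∨ ∃ B : ℝ, ∀ t : ℂ, 0 ≤ t.im → ‖N t‖ ≤ B := by
  set CN : ℝ := |C| + 1 with hCN
  have hCN0 : 0 < CN := by positivity
  have hCle : C ≤ CN := by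
    have := le_abs_self C
    linarith
  have hR' : ∀ t : ℂ, 0 ≤ t.im → C * Real.exp (R * t.im) ≤ CN * Real.exp (|R| * t.im) := by
    intro t ht
    have h1 : R * t.im ≤ |R| * t.im := mul_le_mul_of_nonneg_right (le_abs_self R) ht
    calc C * Real.exp (R * t.im) ≤ CN * Real.exp (R * t.im) := by gcongr
      _ ≤ _ := by gcongr
  set S : Set ℝ := {σ | 0 ≤ σ ∧ ∀ t : ℂ, 0 ≤ t.im → ‖N t‖ ≤ CN * Real.exp (σ * t.im)} with hS
  have hne : S.Nonempty := ⟨|R|, abs_nonneg R, fun t ht => (hNb t ht).trans (hR' t ht)⟩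
  have hbdd : BddBelow S := ⟨0, fun σ hσ => hσ.1⟩
  set σ : ℝ := sInf S with hσdef
  have hσ0 : 0 ≤ σ := le_csInf hne fun s hs => hs.1
  have hσS : ∀ t : ℂ, 0 ≤ t.im → ‖N t‖ ≤ CN * Real.exp (σ * t.im) := by
    intro t ht
    have hcont : Tendsto (fun s : ℝ => CN * Real.exp (s * t.im)) (𝓝[>] σ)
        (𝓝 (CN * Real.exp (σ * t.im))) := by
      have : Continuous fun s : ℝ => CN * Real.exp (s * t.im) := by fun_prop
      exact (this.tendsto σ).mono_left nhdsWithin_le_nhds
    refine ge_of_tendsto hcont ?_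
    filter_upwards [self_mem_nhdsWithin] with s hs
    obtain ⟨s', hs', hlt⟩ := exists_lt_of_csInf_lt hne (show sInf S < s from hs)
    refine (hs'.2 t ht).trans ?_
    have : s' * t.im ≤ s * t.im := mul_le_mul_of_nonneg_right hlt.le ht
    gcongr
  rcases hσ0.eq_or_lt with h0 | hpos
  · right
    refine ⟨CN, fun t ht => ?_⟩
    have := hσS t ht
    rw [← h0] at this
    simpa using this
  left
  by_contra hP0
  push Not at hP0
  obtain ⟨w0, hw0⟩ := hP0
  -- the smaller type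
  set σ' : ℝ := σ * (1 - 1 / 640) with hσ'
  have hlt : σ' < σ := by rw [hσ']; linarith
  have hσ'0 : 0 ≤ σ' := by rw [hσ']; positivity
  have hPb' : ∀ t : ℂ, 0 ≤ t.im → ‖P t‖ ≤ CN * Real.exp (|R| * t.im) :=
    fun t ht => (hPb t ht).trans (hR' t ht)
  -- at points with P ≠ 0
  have hgood : ∀ t : ℂ, 0 < t.im → P t ≠ 0 → ‖N t‖ ≤ CN * Real.exp (σ' * t.im) := by
    intro t ht hPt
    by_contra hcon
    push Not at hcon
    set b : ℝ := CN * Real.exp (σ' * t.im) with hb
    have hb0 : 0 < b := by positivity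
    set x : ℝ := ‖N t‖ / b with hx
    have hx1 : 1 < x := by rw [hx, one_lt_div hb0]; exact hcon
    have hPt' : 0 < ‖P t‖ := norm_pos_iff.2 hPt
    have hbound : ∀ᶠ M : ℕ in atTop, x ^ M ≤ 3 * CN * Real.exp (|R| * t.im) / ‖P t‖ := by
      obtain ⟨M0, hM0⟩ := exists_nat_gt (8 * |A| / σ)
      filter_upwards [eventually_ge_atTop M0] with M hM
      have hMσ : 8 * |A| < M * σ := by
        rw [div_lt_iff₀ hpos] at hM0
        have : (M0 : ℝ) ≤ M := by exact_mod_cast hM
        nlinarith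
      obtain ⟨C', hC'⟩ := hA M
      have hk := key_M hN hP hCN0 hCN0 (abs_nonneg R) hpos hσS hPb' hap hΩ ht0 him hbig hMσ hC' ht
      have e1 : Real.exp ((|R| + M * σ - M * σ / 640) * t.im) =
          Real.exp (|R| * t.im) * Real.exp (σ' * t.im) ^ M := by
        rw [← Real.exp_nat_mul, ← Real.exp_add]
        congr 1
        rw [hσ']
        ring
      rw [e1] at hk
      rw [hx, div_pow, div_le_div_iff₀ (by positivity) hPt', hb, mul_pow]
      calc ‖N t‖ ^ M * ‖P t‖ = ‖P t‖ * ‖N t‖ ^ M := mul_comm _ _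
        _ ≤ _ := hk
        _ = _ := by ring
    have htop := tendsto_pow_atTop_atTop_of_one_lt hx1
    obtain ⟨M, hM1, hM2⟩ := (hbound.and
      (htop.eventually_gt_atTop (3 * CN * Real.exp (|R| * t.im) / ‖P t‖))).exists
    linarith
  -- everywhere
  have hall : ∀ t : ℂ, 0 ≤ t.im → ‖N t‖ ≤ CN * Real.exp (σ' * t.im) := by
    intro t ht
    rcases ht.eq_or_lt with h | h
    · have := hσS t ht
      rw [← h] at this ⊢
      simpa using this
    · have hPan : AnalyticOnNhd ℂ P univ := hP.differentiableOn.analyticOnNhd isOpen_univ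
      have hev : ∀ᶠ z in 𝓝[≠] t, P z ≠ 0 := by
        rcases (hPan t (mem_univ _)).eventually_eq_zero_or_eventually_ne_zero with h1 | h1
        · exfalso
          have := hPan.eqOn_zero_of_preconnected_of_eventuallyEq_zero isPreconnected_univ
            (mem_univ t) h1 (mem_univ w0)
          exact hw0 this
        · exact h1
      have him' : ∀ᶠ z : ℂ in 𝓝[≠] t, 0 < z.im := by
        have h1 : IsOpen {z : ℂ | 0 < z.im} := isOpen_lt continuous_const continuous_im
        have h2 : ∀ᶠ z : ℂ in 𝓝 t, 0 < z.im := h1.mem_nhds h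
        exact h2.filter_mono nhdsWithin_le_nhds
      have hc1 : Tendsto (fun z => ‖N z‖) (𝓝[≠] t) (𝓝 ‖N t‖) :=
        (hN.continuous.norm.tendsto t).mono_left nhdsWithin_le_nhds
      have hc2 : Tendsto (fun z : ℂ => CN * Real.exp (σ' * z.im)) (𝓝[≠] t)
          (𝓝 (CN * Real.exp (σ' * t.im))) := by
        have : Continuous fun z : ℂ => CN * Real.exp (σ' * z.im) := by fun_prop
        exact (this.tendsto t).mono_left nhdsWithin_le_nhds
      refine le_of_tendsto_of_tendsto hc1 hc2 ?_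
      filter_upwards [hev, him'] with z hz1 hz2 using hgood z hz2 hz1
  have : σ ≤ σ' := csInf_le hbdd ⟨hσ'0, hall⟩
  linarith

end WW47.BS
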