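import Pool.Agent.WW47.BS.Tract
import Pool.Agent.WW47.BS.Burg

/-!
# Bounded time spectrum: conclusion
-/

open Complex Set Filter Topology

namespace WW47.BS

open WW47.FS

lemma BandLim.mono {C R R' : ℝ} {f : ℝ → ℝ} (h : BandLim C R f) (hR : R ≤ R') :
    BandLim C R' f := by
  have hC := h.nonneg
  obtain ⟨F, hF, hr, hb⟩ := h
  refine ⟨F, hF, hr, fun t => (hb t).trans ?_⟩
  gcongr

variable {g κ γ : ℝ} {η ψ : ℝ → ℝ → ℝ} {Φ : ℝ → ℂ → ℝ} {q : ℝ → ℝ → ℝ} {p : ℝ → ℝ}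

/-- joint regularity of the elevation -/
lemma eta_joint (hw : ∀ T > 0, WaterWave g κ γ (-T) T η ψ Φ q p) :
    ContDiff ℝ 1 (fun P : ℝ × ℝ => η P.1 P.2) := by
  rw [contDiff_iff_contDiffAt]
  rintro ⟨t, x⟩
  have hwt := hw _ (abs_pos1 t)
  exact (hwt.regη.contDiffAt ((isOpen_domR _ _).mem_nhds ⟨mem_Ioo_abs t, mem_univ _⟩)).of_le
    (by norm_num)

/-- **The surface does not move.** -/
theorem eta_const (hw : ∀ T > 0, WaterWave g κ γ (-T) T η ψ Φ q p) {C R Y : ℝ}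
    (hap : ∀ x, ∀ δ > 0, ∃ L : ℝ, ∀ a : ℝ, ∃ τ ∈ Icc a (a + L), ∀ t : ℝ,
      |η (t + τ) x - η t x| ≤ δ ∧ |etax η (t + τ) x - etax η t x| ≤ δ)
    (hη : ∀ x, BandLim C R (fun t => η t x) ∧ BandLim C R (fun t => etax η t x))
    (hΦ : ∀ z : ℂ, z.im < Y → BandLim C R (fun t => px Φ t z) ∧ BandLim C R (fun t => py Φ t z)) :
    ∀ x t s, η t x = η s x := by
  have hRR := le_abs_self R
  have hη' : ∀ x, BandLim C |R| (fun t => η t x) := fun x => (hη x).1.mono hRR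
  have hΦ' : ∀ z : ℂ, z.im < Y → BandLim C |R| (fun t => px Φ t z) ∧
      BandLim C |R| (fun t => py Φ t z) := fun z hz => ⟨(hΦ z hz).1.mono hRR, (hΦ z hz).2.mono hRR⟩
  have hdef : ∀ x, (∀ t s, η t x = η s x) ∨
      ∀ t, deriv (fun s => η s x) t = γ * η t x * deriv (η t) x := by
    intro x
    by_cases hc : ∀ t s, η t x = η s x
    · exact Or.inl hc
    right
    push Not at hc
    obtain ⟨t0, t1, hlt⟩ : ∃ t0 t1, η t0 x < η t1 x := by
      obtain ⟨t, s, hne⟩ := hc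
      rcases lt_or_gt_of_ne hne with h | h
      · exact ⟨t, s, h⟩
      · exact ⟨s, t, h⟩
    obtain ⟨N, hN, hNr, hNb⟩ := hη' x
    obtain ⟨N1, hN1, hN1r, hN1b⟩ := (hη x).2.mono hRR
    have h0 := defect hw (abs_nonneg R) hη' hΦ' hN hN1 hNr hN1r hNb hN1b (hap x) hlt
    intro t
    have hwt := hw _ (abs_pos1 t)
    have h1 : HasDerivAt (fun s : ℝ => N s) (deriv N t) t := ((hN t).hasDerivAt).comp_ofReal
    have h2 : HasDerivAt (fun s : ℝ => ((η s x : ℝ) : ℂ))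
        ((deriv (fun s => η s x) t : ℝ) : ℂ) t := (etat_at hwt (mem_Ioo_abs t) x).ofReal_comp
    have h3 : (fun s : ℝ => ((η s x : ℝ) : ℂ)) = fun s : ℝ => N s := funext fun s => (hNr s).symm
    rw [h3] at h2
    have h4 := h2.unique h1
    have h5 := h0 t
    rw [← h4, hNr, hN1r] at h5
    have h6 : deriv (fun s => η s x) t - γ * η t x * etax η t x = 0 := by exact_mod_cast h5
    unfold etax at h6
    linarith
  exact burgers (eta_joint hw) (fun t x => (hw _ (abs_pos1 t)).perη t (mem_Ioo_abs t) x) hdef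

/-- **Main theorem.** -/
theorem steady (hw : ∀ T > 0, WaterWave g κ γ (-T) T η ψ Φ q p) {C R Y : ℝ}
    (hap : ∀ x, ∀ δ > 0, ∃ L : ℝ, ∀ a : ℝ, ∃ τ ∈ Icc a (a + L), ∀ t : ℝ,
      |η (t + τ) x - η t x| ≤ δ ∧ |etax η (t + τ) x - etax η t x| ≤ δ)
    (hη : ∀ x, BandLim C R (fun t => η t x) ∧ BandLim C R (fun t => etax η t x))
    (hΦ : ∀ z : ℂ, z.im < Y → BandLim C R (fun t => px Φ t z) ∧ BandLim C R (fun t => py Φ t z)) :
    ∀ t s, (∀ x, η t x = η s x) ∧ (∀ x, deriv (ψ t) x = deriv (ψ s) x) ∧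
      ∀ z : ℂ, z.im < η t z.re → px Φ t z = px Φ s z ∧ py Φ t z = py Φ s z := by
  have hconst := eta_const hw hap hη hΦ
  intro t s
  set T : ℝ := |t| + |s| + 1 with hT
  have hT0 : 0 < T := by positivity
  have hwT := hw T hT0
  have ht : t ∈ Ioo (-T) T := by
    have h1 := neg_abs_le t
    have h2 := le_abs_self t
    have h3 := abs_nonneg s
    constructor <;> linarith
  have hs : s ∈ Ioo (-T) T := by
    have h1 := neg_abs_le s
    have h2 := le_abs_self s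
    have h3 := abs_nonneg t
    constructor <;> linarith
  have hηts : ∀ x, η t x = η s x := fun x => hconst x t s
  have hdt : ∀ r x, deriv (fun s => η s x) r = 0 := by
    intro r x
    have h2 : (fun s => η s x) = fun _ => η r x := funext fun u => hconst x u r
    rw [h2]
    simp
  have hDN : ∀ x, DN Φ η t x = DN Φ η s x := by
    intro x
    have h1 := hwT.kin t ht x
    have h2 := hwT.kin s hs x
    rw [hdt t x] at h1
    rw [hdt s x] at h2
    have e3 : etax η t x = etax η s x := by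
      unfold etax
      rw [funext hηts]
    rw [hηts x, e3] at h1
    linarith
  have hvel := vel_const hwT ht hs hηts hDN
  have hparts : ∀ z, Wt Φ (t, z) - Wt Φ (s, z) = 0 →
      px Φ t z = px Φ s z ∧ py Φ t z = py Φ s z := by
    intro z hz
    obtain ⟨a1, a2⟩ := Wt_parts hwT ht z
    obtain ⟨b1, b2⟩ := Wt_parts hwT hs z
    have h1 := congrArg Complex.re hz
    have h2 := congrArg Complex.im hz
    rw [sub_re, a1, b1, zero_re] at h1
    rw [sub_im, a2, b2, zero_im] at h2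
    exact ⟨by linarith, by linarith⟩
  refine ⟨hηts, fun x => ?_, fun z hz => hparts z (hvel z hz)⟩
  have h1 := zero_surf ((Wt_cont hwT.regΦ ht).sub (Wt_cont hwT.regΦ hs)) hvel x
  obtain ⟨h2, h3⟩ := hparts _ h1
  have e2 : surf η t x = surf η s x := by unfold surf; rw [hηts x]
  have e3 : etax η t x = etax η s x := by
    unfold etax
    rw [funext hηts]
  rw [(psi_at hwT ht x).deriv, (psi_at hwT hs x).deriv, h2, h3, e2, e3]

/-- without vorticity: rest -/
theorem rest0 (hg : 0 < g) (hκ : 0 ≤ κ) (hw : ∀ T > 0, WaterWave g κ 0 (-T) T η ψ Φ q p)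
    {C R Y : ℝ}
    (hap : ∀ x, ∀ δ > 0, ∃ L : ℝ, ∀ a : ℝ, ∃ τ ∈ Icc a (a + L), ∀ t : ℝ,
      |η (t + τ) x - η t x| ≤ δ ∧ |etax η (t + τ) x - etax η t x| ≤ δ)
    (hη : ∀ x, BandLim C R (fun t => η t x) ∧ BandLim C R (fun t => etax η t x))
    (hΦ : ∀ z : ℂ, z.im < Y → BandLim C R (fun t => px Φ t z) ∧ BandLim C R (fun t => py Φ t z)) :
    ∃ h0 : ℝ, ∀ t, (∀ x, η t x = h0) ∧ (∀ x, deriv (ψ t) x = 0) ∧
      ∀ z : ℂ, z.im < h0 → px Φ t z = 0 ∧ py Φ t z = 0 := by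
  have hconst := eta_const hw hap hη hΦ
  have hW : ∀ T > 0, ∀ t ∈ Ioo (-T) T, ∀ z ∈ Below (η t), Wt Φ (t, z) = 0 := by
    intro T hT t ht
    have hwT := hw T hT
    refine vel_zero hwT ht fun x => ?_
    have h1 := hwT.kin t ht x
    have h2 : (fun s => η s x) = fun _ => η t x := funext fun u => hconst x u t
    rw [h2] at h1
    simp at h1
    linarith
  refine ⟨η 0 0, fun t => ?_⟩
  have hwt := hw _ (abs_pos1 t)
  have htm := mem_Ioo_abs t
  have hflat : ∀ x, η t x = η 0 0 := by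
    intro x
    rw [flat_of_zero hg hκ hwt (hW _ (abs_pos1 t)) htm x]
    exact hconst 0 t 0
  have hpar : ∀ z, Wt Φ (t, z) = 0 → px Φ t z = 0 ∧ py Φ t z = 0 := by
    intro z hz
    obtain ⟨a1, a2⟩ := Wt_parts hwt htm z
    rw [hz] at a1 a2
    simp only [zero_re, zero_im] at a1 a2
    exact ⟨a1.symm, by linarith⟩
  refine ⟨hflat, fun x => ?_, fun z hz => hpar z (hW _ (abs_pos1 t) t htm z ?_)⟩
  · obtain ⟨h1, h2⟩ := hpar _ (zero_surf (Wt_cont hwt.regΦ htm) (hW _ (abs_pos1 t) t htm) x)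
    rw [(psi_at hwt htm x).deriv, h1, h2]
    ring
  · show z.im < η t z.re
    rw [hflat]
    exact hz

end WW47.BS
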