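import Pool.Agent.WW47.BS.Lag

/-!
# The error of polynomial interpolation of an entire function
-/

open Complex Set Filter Topology

namespace WW47.BS

lemma int_step {g : ℂ → ℂ} (hg : Differentiable ℂ g) {a c : ℂ} {ε ρ B : ℝ}
    (ha : ‖a - c‖ ≤ ε) (hε : 0 ≤ ε) (hρ : ε < ρ) (hB : ∀ t, ‖t - c‖ ≤ ρ → ‖g t‖ ≤ B) :
    Differentiable ℂ (dslope g a) ∧ ∀ t, ‖t - c‖ ≤ ρ → ‖dslope g a t‖ ≤ B * (2 / (ρ - ε)) := by
  have hd : Differentiable ℂ (dslope g a) := by
    rw [← differentiableOn_univ, Complex.differentiableOn_dslope univ_mem, differentiableOn_univ]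
    exact hg
  refine ⟨hd, fun t ht => ?_⟩
  have hρ0 : 0 < ρ := hε.trans_lt hρ
  have hbd : Bornology.IsBounded (Metric.ball c ρ) := Metric.isBounded_ball
  refine Complex.norm_le_of_forall_mem_frontier_norm_le hbd hd.diffContOnCl ?_ ?_
  · intro z hz
    rw [frontier_ball c hρ0.ne', mem_sphere_iff_norm] at hz
    have hza : ρ - ε ≤ ‖z - a‖ := by
      have h1 : ‖z - c‖ ≤ ‖z - a‖ + ‖a - c‖ := by
        have := norm_add_le (z - a) (a - c)
        simpa using this
      linarith
    have hpos : 0 < ρ - ε := by linarith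
    have hne : z ≠ a := by
      rintro rfl
      simp at hza
      linarith
    rw [dslope_of_ne _ hne, slope_def_module, norm_smul, norm_inv]
    have h2 : ‖g z - g a‖ ≤ 2 * B := by
      have := norm_sub_le (g z) (g a)
      have h3 := hB z hz.le
      have h4 := hB a (ha.trans hρ.le)
      linarith
    calc ‖z - a‖⁻¹ * ‖g z - g a‖ ≤ (ρ - ε)⁻¹ * (2 * B) :=
          mul_le_mul (inv_anti₀ hpos hza) h2 (norm_nonneg _) (inv_nonneg.2 hpos.le)
      _ = B * (2 / (ρ - ε)) := by ring
  · rw [closure_ball c hρ0.ne', mem_closedBall_iff_norm]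
    exact ht

lemma int_exists {f : ℂ → ℂ} (hf : Differentiable ℂ f) {v : ℕ → ℂ} {c : ℂ} {ε ρ M : ℝ}
    (hε : 0 ≤ ε) (hρ : ε < ρ) (hM : ∀ t, ‖t - c‖ ≤ ρ → ‖f t‖ ≤ M) (n : ℕ) :
    (∀ i < n, ‖v i - c‖ ≤ ε) → ∃ (p : Polynomial ℂ) (g : ℂ → ℂ), p.degree < n ∧
      Differentiable ℂ g ∧
      (∀ t, f t = p.eval t + (∏ j ∈ Finset.range n, (t - v j)) * g t) ∧
      ∀ t, ‖t - c‖ ≤ ρ → ‖g t‖ ≤ M * (2 / (ρ - ε)) ^ n := by
  induction n with
  | zero =>
    intro _
    refine ⟨0, f, by simp, hf, by simp, by simpa using hM⟩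
  | succ n ih =>
    intro hv
    obtain ⟨p, g, hp, hg, he, hb⟩ := ih fun i hi => hv i (by omega)
    obtain ⟨h1, h2⟩ := int_step hg (hv n (by omega)) hε hρ hb
    refine ⟨p + Polynomial.C (g (v n)) * ∏ j ∈ Finset.range n, (Polynomial.X - Polynomial.C (v j)),
      dslope g (v n), ?_, h1, ?_, ?_⟩
    · refine lt_of_le_of_lt (Polynomial.degree_add_le _ _) (max_lt ?_ ?_)
      · exact hp.trans (by exact_mod_cast Nat.lt_succ_self n)
      · rw [← Polynomial.smul_eq_C_mul]
        refine lt_of_le_of_lt (Polynomial.degree_smul_le _ _) ?_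
        rw [Polynomial.degree_prod]
        simp only [Polynomial.degree_X_sub_C, Finset.sum_const, Finset.card_range, nsmul_eq_mul,
          mul_one]
        exact_mod_cast Nat.lt_succ_self n
    · intro t
      have h3 : g t = g (v n) + (t - v n) * dslope g (v n) t := by
        have := sub_smul_dslope g (v n) t
        rw [smul_eq_mul] at this
        rw [this]
        ring
      rw [he t, Finset.prod_range_succ]
      simp only [Polynomial.eval_add, Polynomial.eval_mul, Polynomial.eval_C,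
        Polynomial.eval_prod, Polynomial.eval_sub, Polynomial.eval_X]
      rw [h3]
      ring
    · intro t ht
      have := h2 t ht
      rw [pow_succ, ← mul_assoc]
      exact this

/-- INT -/
theorem interp_error {f : ℂ → ℂ} (hf : Differentiable ℂ f) {n : ℕ} {v : ℕ → ℂ}
    (hinj : ∀ i < n, ∀ j < n, v i = v j → i = j) {c : ℂ} {ε ρ M r : ℝ} (hε : 0 ≤ ε)
    (hv : ∀ i < n, ‖v i - c‖ ≤ ε) (hρ : ε < ρ) (hr : r ≤ ρ)
    (hM : ∀ t, ‖t - c‖ ≤ ρ → ‖f t‖ ≤ M) {t : ℂ} (ht : ‖t - c‖ ≤ r) :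
    ‖f t - ∑ j ∈ Finset.range n, f (v j) * lag n v j t‖ ≤ M * (2 * (r + ε) / (ρ - ε)) ^ n := by
  obtain ⟨p, g, hp, hg, he, hb⟩ := int_exists hf hε hρ hM n hv
  have hp2 : p = Lagrange.interpolate (Finset.range n) v fun j => f (v j) := by
    apply Lagrange.eq_interpolate_of_eval_eq
    · intro i hi j hj hij
      exact hinj i (by simpa using hi) j (by simpa using hj) hij
    · rw [Finset.card_range]
      exact hp
    · intro i hi
      have h1 := he (v i)
      rw [Finset.prod_eq_zero hi (sub_self _), zero_mul, add_zero] at h1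
      exact h1.symm
  have h2 : p.eval t = ∑ j ∈ Finset.range n, f (v j) * lag n v j t := by
    rw [hp2, Lagrange.interpolate_apply, Polynomial.eval_finsetSum]
    refine Finset.sum_congr rfl fun j _ => ?_
    rw [Polynomial.eval_mul, Polynomial.eval_C, Lagrange.basis, Polynomial.eval_prod]
    congr 1
    unfold lag
    refine Finset.prod_congr rfl fun i _ => ?_
    unfold Lagrange.basisDivisor
    simp only [Polynomial.eval_mul, Polynomial.eval_C, Polynomial.eval_sub, Polynomial.eval_X]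
    rw [div_eq_inv_mul]
  rw [← h2, he t, add_sub_cancel_left, norm_mul, norm_prod]
  have h3 : ∏ j ∈ Finset.range n, ‖t - v j‖ ≤ (r + ε) ^ n := by
    calc ∏ j ∈ Finset.range n, ‖t - v j‖ ≤ ∏ _j ∈ Finset.range n, (r + ε) := by
          refine Finset.prod_le_prod (fun _ _ => norm_nonneg _) fun j hj => ?_
          have h4 : ‖t - v j‖ ≤ ‖t - c‖ + ‖c - v j‖ := by
            have := norm_add_le (t - c) (c - v j)
            simpa using this
          have h5 := hv j (Finset.mem_range.1 hj)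
          rw [norm_sub_rev] at h5
          linarith
      _ = (r + ε) ^ n := by simp
  have h6 := hb t (ht.trans hr)
  have h7 : 0 ≤ r + ε := add_nonneg ((norm_nonneg _).trans ht) hε
  calc (∏ j ∈ Finset.range n, ‖t - v j‖) * ‖g t‖ ≤ (r + ε) ^ n * (M * (2 / (ρ - ε)) ^ n) :=
        mul_le_mul h3 h6 (norm_nonneg _) (by positivity)
    _ = M * (2 * (r + ε) / (ρ - ε)) ^ n := by
        rw [show 2 * (r + ε) / (ρ - ε) = (r + ε) * (2 / (ρ - ε)) by ring, mul_pow]
        ring

end WW47.BS
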