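import Mathlib
/-!
Two constants estimate on a rectangle (MP_e9adf6_an, bounded time spectrum), file by helper61 for
helper47.
-/
open Complex Set Filter Topology
namespace WW47.BS

/-- the real part of the comparison function -/
theorem re_B (k x1 c : ℝ) (z : ℂ) :
    (Complex.I * Complex.sin (k * (z - x1 - Complex.I * c))).re =
      Real.cos (k * (z.re - x1)) * Real.sinh (k * (c - z.im)) := by
  have h : (k : ℂ) * (z - x1 - Complex.I * c) =
      ((k * (z.re - x1) : ℝ) : ℂ) + ((k * (z.im - c) : ℝ) : ℂ) * Complex.I := by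
    conv_lhs => rw [← Complex.re_add_im z]
    push_cast
    ring
  rw [h, Complex.sin_add_mul_I]
  have e1 : Complex.sin ((k * (z.re - x1) : ℝ) : ℂ) = ((Real.sin (k * (z.re - x1)) : ℝ) : ℂ) := by
    simp
  have e2 : Complex.cos ((k * (z.re - x1) : ℝ) : ℂ) = ((Real.cos (k * (z.re - x1)) : ℝ) : ℂ) := by
    simp
  have e3 : Complex.sinh ((k * (z.im - c) : ℝ) : ℂ) = ((Real.sinh (k * (z.im - c)) : ℝ) : ℂ) := by
    simp
  have e4 : Complex.cosh ((k * (z.im - c) : ℝ) : ℂ) = ((Real.cosh (k * (z.im - c)) : ℝ) : ℂ) := by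
    simp
  rw [e1, e2, e3, e4]
  have e5 : Real.sinh (k * (c - z.im)) = - Real.sinh (k * (z.im - c)) := by
    rw [← Real.sinh_neg]; congr 1; ring
  rw [e5]
  simp only [Complex.mul_re, Complex.mul_im, Complex.add_re, Complex.add_im, Complex.I_re,
    Complex.I_im, Complex.ofReal_re, Complex.ofReal_im]
  ring

/-- REC.  Maximum modulus on the rectangle for
`g z * exp ((m / sinh (k (c-Y))) * B z)`, `B z = I * sin (k (z - x1 - I c))`, `k = π/(2s)`. -/
theorem rect_two {g : ℂ → ℂ} {x1 s c Y a m : ℝ} (hs : 0 < s) (hY : Y < c) (ha : 0 ≤ a)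
    (hm : 0 ≤ m) (hg : DiffContOnCl ℂ g {z | |z.re - x1| < s ∧ Y < z.im ∧ z.im < c})
    (hb : ∀ z : ℂ, |z.re - x1| ≤ s → Y ≤ z.im → z.im ≤ c → ‖g z‖ ≤ a)
    (hsm : ∀ z : ℂ, |z.re - x1| ≤ s → z.im = Y → ‖g z‖ ≤ a * Real.exp (-m))
    {z : ℂ} (hz1 : |z.re - x1| ≤ s) (hz2 : Y ≤ z.im) (hz3 : z.im ≤ c) :
    ‖g z‖ ≤ a * Real.exp (-(m * (Real.cos (Real.pi / (2 * s) * (z.re - x1)) *
      Real.sinh (Real.pi / (2 * s) * (c - z.im)) / Real.sinh (Real.pi / (2 * s) * (c - Y))))) := by
  set k : ℝ := Real.pi / (2 * s) with hk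
  have hk0 : 0 < k := by positivity
  set S : ℝ := Real.sinh (k * (c - Y)) with hS
  have hS0 : 0 < S := by
    rw [hS]; exact Real.sinh_pos_iff.2 (mul_pos hk0 (by linarith))
  set U : Set ℂ := {z | |z.re - x1| < s ∧ Y < z.im ∧ z.im < c} with hUdef
  have hU : U = Ioo (x1 - s) (x1 + s) ×ℂ Ioo Y c := by
    ext w
    simp only [hUdef, mem_setOf_eq, Complex.mem_reProdIm, mem_Ioo, abs_lt]
    constructor
    · rintro ⟨⟨h1, h2⟩, h3, h4⟩
      exact ⟨⟨by linarith, by linarith⟩, h3, h4⟩
    · rintro ⟨⟨h1, h2⟩, h3, h4⟩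
      exact ⟨⟨by linarith, by linarith⟩, h3, h4⟩
  have hcl : closure U = Icc (x1 - s) (x1 + s) ×ℂ Icc Y c := by
    rw [hU, Complex.closure_reProdIm, closure_Ioo (by linarith), closure_Ioo hY.ne]
  have hopen : IsOpen U := by
    rw [hU]; exact isOpen_Ioo.reProdIm isOpen_Ioo
  have hbd : Bornology.IsBounded U := by
    rw [hU]; exact (Metric.isBounded_Ioo _ _).reProdIm (Metric.isBounded_Ioo _ _)
  have hmemcl : ∀ w : ℂ, w ∈ closure U ↔ |w.re - x1| ≤ s ∧ Y ≤ w.im ∧ w.im ≤ c := by
    intro w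
    rw [hcl, Complex.mem_reProdIm, mem_Icc, mem_Icc, abs_le]
    constructor
    · rintro ⟨⟨h1, h2⟩, h3, h4⟩
      exact ⟨⟨by linarith, by linarith⟩, h3, h4⟩
    · rintro ⟨⟨h1, h2⟩, h3, h4⟩
      exact ⟨⟨by linarith, by linarith⟩, h3, h4⟩
  set E : ℂ → ℂ := fun w => Complex.exp (((m / S : ℝ) : ℂ) *
    (Complex.I * Complex.sin (k * (w - x1 - Complex.I * c)))) with hE
  have hEd : Differentiable ℂ E := by
    rw [hE]; fun_prop
  have hEn : ∀ w, ‖E w‖ = Real.exp (m / S * (Real.cos (k * (w.re - x1)) *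
      Real.sinh (k * (c - w.im)))) := by
    intro w
    rw [hE]
    simp only
    rw [Complex.norm_exp, Complex.re_ofReal_mul, re_B]
  have hGd : DiffContOnCl ℂ (fun w => E w * g w) U := by
    have := (hEd.diffContOnCl (s := U)).smul hg
    simpa [smul_eq_mul] using this
  have key : ‖(fun w => E w * g w) z‖ ≤ a := by
    refine Complex.norm_le_of_forall_mem_frontier_norm_le hbd hGd ?_ ((hmemcl z).2 ⟨hz1, hz2, hz3⟩)
    intro w hw
    have hwc : w ∈ closure U := hw.1
    have hwn : w ∉ U := by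
      have := hw.2
      rwa [hopen.interior_eq] at this
    obtain ⟨h1, h2, h3⟩ := (hmemcl w).1 hwc
    simp only [norm_mul]
    rw [hEn]
    by_cases hy : w.im = Y
    · have hgw := hsm w h1 hy
      have hcos : Real.cos (k * (w.re - x1)) ≤ 1 := Real.cos_le_one _
      have e1 : m / S * (Real.cos (k * (w.re - x1)) * Real.sinh (k * (c - w.im))) ≤ m := by
        rw [hy, ← hS]
        have : m / S * (Real.cos (k * (w.re - x1)) * S) = m * Real.cos (k * (w.re - x1)) := by
          field_simp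
        rw [this]
        nlinarith
      calc Real.exp (m / S * (Real.cos (k * (w.re - x1)) * Real.sinh (k * (c - w.im)))) * ‖g w‖
          ≤ Real.exp m * (a * Real.exp (-m)) :=
            mul_le_mul (Real.exp_le_exp.2 e1) hgw (norm_nonneg _) (Real.exp_pos _).le
        _ = a := by
          rw [Real.exp_neg]
          field_simp
    · have hz0 : Real.cos (k * (w.re - x1)) * Real.sinh (k * (c - w.im)) = 0 := by
        by_cases hc : w.im = c
        · rw [hc]; simp
        · have hYw : Y < w.im := lt_of_le_of_ne h2 (Ne.symm hy)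
          have hwc' : w.im < c := lt_of_le_of_ne h3 hc
          have habs : |w.re - x1| = s := by
            by_contra hne
            exact hwn ⟨lt_of_le_of_ne h1 hne, hYw, hwc'⟩
          have hcos : Real.cos (k * (w.re - x1)) = 0 := by
            have hks : k * s = Real.pi / 2 := by
              rw [hk]; field_simp
            rw [← Real.cos_abs, abs_mul, abs_of_pos hk0, habs, hks, Real.cos_pi_div_two]
          rw [hcos, zero_mul]
      rw [hz0, mul_zero, Real.exp_zero, one_mul]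
      exact hb w h1 h2 h3
  simp only [norm_mul] at key
  rw [hEn] at key
  have e2 : m / S * (Real.cos (k * (z.re - x1)) * Real.sinh (k * (c - z.im))) =
      m * (Real.cos (k * (z.re - x1)) * Real.sinh (k * (c - z.im)) / S) := by
    ring
  rw [e2] at key
  rw [Real.exp_neg]
  rw [← div_eq_mul_inv, le_div_iff₀ (Real.exp_pos _), mul_comm]
  exact key

end WW47.BS
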