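import Pool.Agent.WW47.BS.Lag
import Pool.Agent.WW47.BS.Int
import Pool.Agent.WW47.BS.Rec

/-!
# Continuation in time of functions on a half strip

The values of a bounded family `w τ z`, `τ` in a real interval, which for `z` low in the strip is
the restriction of an entire function of exponential type, determine a continuation to all complex
times, holomorphic in both variables (file by helper61 for helper47).
-/

open Complex Set Filter Topology

namespace WW47.BS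

/-- the nodes -/
noncomputable def nod (t1 ε : ℝ) (n j : ℕ) : ℝ := t1 + ε * j / n

/-- the interpolation polynomials in time -/
noncomputable def Wn (w : ℝ → ℂ → ℂ) (t1 ε : ℝ) (n : ℕ) (t z : ℂ) : ℂ :=
  ∑ j ∈ Finset.range n, w (nod t1 ε n j) z * lag n (fun i => ((nod t1 ε n i : ℝ) : ℂ)) j t

section

variable {x1 s0 lev Y t1 ε B C R : ℝ} {w : ℝ → ℂ → ℂ} {Wd : ℂ → ℂ → ℂ}

theorem nod_mem (hε : 0 < ε) {n j : ℕ} (hj : j < n) : nod t1 ε n j ∈ Icc t1 (t1 + ε) := by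
  unfold nod
  have hn : (0 : ℝ) < n := by exact_mod_cast (Nat.zero_lt_of_lt hj)
  have h1 : (j : ℝ) ≤ n := by exact_mod_cast hj.le
  have h2 : 0 ≤ ε * j / n := by positivity
  have h3 : ε * j / n ≤ ε := by
    rw [div_le_iff₀ hn]
    exact mul_le_mul_of_nonneg_left h1 hε.le
  exact ⟨by linarith, by linarith⟩

theorem nod_sep (hε : 0 < ε) (n i j : ℕ) :
    ‖((nod t1 ε n i : ℝ) : ℂ) - ((nod t1 ε n j : ℝ) : ℂ)‖ = ε * |(i : ℝ) - j| / n := by
  rw [← Complex.ofReal_sub, Complex.norm_real, Real.norm_eq_abs]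
  have h : nod t1 ε n i - nod t1 ε n j = ε * ((i : ℝ) - j) / n := by unfold nod; ring
  rw [h, abs_div, abs_mul, abs_of_pos hε, Nat.abs_cast]

theorem nod_dist (hε : 0 < ε) {n j : ℕ} (hj : j < n) :
    ‖((nod t1 ε n j : ℝ) : ℂ) - (t1 : ℂ)‖ ≤ ε := by
  rw [← Complex.ofReal_sub, Complex.norm_real, Real.norm_eq_abs]
  have h := nod_mem (t1 := t1) hε hj
  rw [abs_le]
  exact ⟨by linarith [h.1], by linarith [h.2]⟩

theorem lag_le (hε : 0 < ε) {r : ℝ} (hr : 0 ≤ r) {t : ℂ} (ht : ‖t - t1‖ ≤ r) {n j : ℕ}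
    (hj : j < n) :
    ‖lag n (fun i => ((nod t1 ε n i : ℝ) : ℂ)) j t‖ ≤ (6 * (r + ε) / ε) ^ n := by
  refine lag_bound hε (by linarith) ?_ ?_ hj
  · intro i _ k _
    exact (nod_sep hε n i k).ge
  · intro i hi
    have h1 := nod_dist (t1 := t1) hε hi
    have h2 : t - ((nod t1 ε n i : ℝ) : ℂ) = (t - t1) - (((nod t1 ε n i : ℝ) : ℂ) - t1) := by ring
    rw [h2]
    exact (norm_sub_le _ _).trans (by linarith)

theorem Wn_bound (hε : 0 < ε) {B' : ℝ} {z : ℂ} (hb : ∀ τ ∈ Icc t1 (t1 + ε), ‖w τ z‖ ≤ B')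
    {r : ℝ} (hr : 0 ≤ r) {t : ℂ} (ht : ‖t - t1‖ ≤ r) (n : ℕ) :
    ‖Wn w t1 ε n t z‖ ≤ n * (B' * (6 * (r + ε) / ε) ^ n) := by
  unfold Wn
  refine (norm_sum_le _ _).trans ?_
  have h1 : ∀ j ∈ Finset.range n,
      ‖w (nod t1 ε n j) z * lag n (fun i => ((nod t1 ε n i : ℝ) : ℂ)) j t‖ ≤
        B' * (6 * (r + ε) / ε) ^ n := by
    intro j hj
    have hj' := Finset.mem_range.1 hj
    rw [norm_mul]
    have h2 := hb _ (nod_mem hε hj')
    exact mul_le_mul h2 (lag_le hε hr ht hj') (norm_nonneg _) (le_trans (norm_nonneg _) h2)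
  refine (Finset.sum_le_sum h1).trans ?_
  rw [Finset.sum_const, Finset.card_range, nsmul_eq_mul]

theorem Wn_err (hε : 0 < ε) (hR : 0 ≤ R) (hC : 0 ≤ C) {z : ℂ}
    (hWd : Differentiable ℂ (fun t => Wd t z))
    (hWb : ∀ t : ℂ, ‖Wd t z‖ ≤ C * Real.exp (R * |t.im|))
    (heq : ∀ τ ∈ Icc t1 (t1 + ε), Wd (τ : ℂ) z = w τ z)
    {r : ℝ} {t : ℂ} (ht : ‖t - t1‖ ≤ r) {n : ℕ} (hn : 1 ≤ n) (hrn : r ≤ n) :
    ‖Wd t z - Wn w t1 ε n t z‖ ≤ C * Real.exp (R * (n + ε)) * (2 * (r + ε) / n) ^ n := by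
  have hn0 : (0 : ℝ) < n := by exact_mod_cast hn
  have h := interp_error (f := fun t => Wd t z) hWd (n := n)
    (v := fun i => ((nod t1 ε n i : ℝ) : ℂ)) (c := (t1 : ℂ)) (ε := ε) (ρ := n + ε)
    (M := C * Real.exp (R * (n + ε))) (r := r) ?_ hε.le
    (fun i hi => nod_dist hε hi) (by linarith) (by linarith) ?_ ht
  · have e : ∑ j ∈ Finset.range n, Wd ((nod t1 ε n j : ℝ) : ℂ) z *
        lag n (fun i => ((nod t1 ε n i : ℝ) : ℂ)) j t = Wn w t1 ε n t z := by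
      unfold Wn
      refine Finset.sum_congr rfl fun j hj => ?_
      rw [heq _ (nod_mem hε (Finset.mem_range.1 hj))]
    rw [e] at h
    refine h.trans (le_of_eq ?_)
    congr 3
    ring
  · intro i _ j _ hij
    have h1 := nod_sep (t1 := t1) hε n i j
    have hij' : ((nod t1 ε n i : ℝ) : ℂ) = ((nod t1 ε n j : ℝ) : ℂ) := hij
    rw [hij', sub_self, norm_zero] at h1
    have h2 : |(i : ℝ) - j| = 0 := by
      have h3 : ε * |(i : ℝ) - j| = 0 := by
        have := (div_eq_zero_iff.1 h1.symm)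
        rcases this with h4 | h4
        · exact h4
        · exact absurd h4 hn0.ne'
      rcases mul_eq_zero.1 h3 with h4 | h4
      · exact absurd h4 hε.ne'
      · exact h4
    have h3 := abs_eq_zero.1 h2
    exact_mod_cast sub_eq_zero.1 h3
  · intro u hu
    refine (hWb u).trans (mul_le_mul_of_nonneg_left (Real.exp_le_exp.2 ?_) hC)
    refine mul_le_mul_of_nonneg_left ?_ hR
    have h1 : u.im = (u - t1).im := by simp
    rw [h1]
    exact (Complex.abs_im_le_norm _).trans hu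

theorem small (hε : 0 < ε) (hC : 0 ≤ C) {q r : ℝ} (hq : 0 < q) (hr : 0 ≤ r) :
    ∃ n1 : ℕ, ∀ n : ℕ, n1 ≤ n → 1 ≤ n ∧ r ≤ n ∧
      C * Real.exp (R * (n + ε)) * (2 * (r + ε) / n) ^ n ≤ C * Real.exp (R * ε) * q ^ n := by
  obtain ⟨a, ha⟩ := exists_nat_ge r
  obtain ⟨b, hb⟩ := exists_nat_ge (2 * (r + ε) * Real.exp R / q)
  refine ⟨max 1 (max a b), fun n hn => ?_⟩
  have h1 : 1 ≤ n := le_trans (le_max_left _ _) hn
  have h2 : a ≤ n := le_trans (le_trans (le_max_left _ _) (le_max_right _ _)) hn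
  have h3 : b ≤ n := le_trans (le_trans (le_max_right _ _) (le_max_right _ _)) hn
  have h2' : (a : ℝ) ≤ n := by exact_mod_cast h2
  have h3' : (b : ℝ) ≤ n := by exact_mod_cast h3
  have hn0 : (0 : ℝ) < n := by exact_mod_cast h1
  refine ⟨h1, ha.trans h2', ?_⟩
  have e1 : Real.exp (R * (n + ε)) = Real.exp (R * ε) * Real.exp R ^ n := by
    rw [← Real.exp_nat_mul, ← Real.exp_add]
    congr 1
    ring
  have e2 : C * Real.exp (R * (n + ε)) * (2 * (r + ε) / n) ^ n =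
      C * Real.exp (R * ε) * (Real.exp R * (2 * (r + ε) / n)) ^ n := by
    rw [e1, mul_pow]
    ring
  rw [e2]
  refine mul_le_mul_of_nonneg_left ?_ (by positivity)
  refine pow_le_pow_left₀ (by positivity) ?_ n
  have h4 : 2 * (r + ε) * Real.exp R ≤ n * q := by
    have := (hb.trans h3')
    rwa [div_le_iff₀ hq] at this
  rw [mul_div_assoc', div_le_iff₀ hn0]
  linarith

/-- a numerical fact -/
theorem nle (n : ℕ) : ((n : ℝ) + 1) * (1 / 4) ^ n ≤ (1 / 2) ^ n := by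
  have h1 : ((n : ℝ) + 1) ≤ 2 ^ n := by
    have : n + 1 ≤ 2 ^ n := Nat.lt_two_pow_self
    exact_mod_cast this
  have h2 : (1 / 2 : ℝ) ^ n = 2 ^ n * (1 / 4) ^ n := by
    rw [← mul_pow]; norm_num
  rw [h2]
  exact mul_le_mul_of_nonneg_right h1 (by positivity)

/-- the two constants estimate in the strip -/
theorem upper {κ Y' : ℝ} (hκ : 0 < κ) (hκs : κ < s0) (hY' : Y' < lev - κ) :
    ∃ ω0 : ℝ, 0 < ω0 ∧ ∀ (g : ℂ → ℂ) (a m : ℝ), 0 ≤ a → 0 ≤ m →
      (∀ z : ℂ, |z.re - x1| < s0 → z.im < lev → DifferentiableAt ℂ g z) →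
      (∀ z : ℂ, |z.re - x1| < s0 → z.im < lev → ‖g z‖ ≤ a) →
      (∀ z : ℂ, z.im = Y' → ‖g z‖ ≤ a * Real.exp (-m)) →
      ∀ z : ℂ, |z.re - x1| ≤ s0 - κ → Y' ≤ z.im → z.im ≤ lev - κ →
        ‖g z‖ ≤ a * Real.exp (-(m * ω0)) := by
  obtain ⟨s1, hs1⟩ : ∃ s1 : ℝ, s1 = s0 - κ / 2 := ⟨_, rfl⟩
  obtain ⟨c, hc⟩ : ∃ c : ℝ, c = lev - κ / 2 := ⟨_, rfl⟩
  have hs1p : 0 < s1 := by rw [hs1]; linarith
  have hY'c : Y' < c := by rw [hc]; linarith
  obtain ⟨k, hk⟩ : ∃ k : ℝ, k = Real.pi / (2 * s1) := ⟨_, rfl⟩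
  have hk0 : 0 < k := by rw [hk]; positivity
  have hks : k * s1 = Real.pi / 2 := by rw [hk]; field_simp
  obtain ⟨S, hS⟩ : ∃ S : ℝ, S = Real.sinh (k * (c - Y')) := ⟨_, rfl⟩
  have hS0 : 0 < S := by rw [hS]; exact Real.sinh_pos_iff.2 (mul_pos hk0 (by linarith))
  have hcos0 : 0 < Real.cos (k * (s0 - κ)) := by
    refine Real.cos_pos_of_mem_Ioo ⟨?_, ?_⟩
    · have : 0 ≤ k * (s0 - κ) := mul_nonneg hk0.le (by linarith)
      linarith [Real.pi_pos]
    · rw [← hks]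
      exact mul_lt_mul_of_pos_left (by rw [hs1]; linarith) hk0
  have hsinh0 : 0 < Real.sinh (k * (κ / 2)) := Real.sinh_pos_iff.2 (by positivity)
  refine ⟨Real.cos (k * (s0 - κ)) * Real.sinh (k * (κ / 2)) / S,
    div_pos (mul_pos hcos0 hsinh0) hS0, ?_⟩
  intro g a m ha hm hgd hb hlow z hz1 hz2 hz3
  have hcl : closure {z : ℂ | |z.re - x1| < s1 ∧ Y' < z.im ∧ z.im < c} ⊆
      {z : ℂ | |z.re - x1| ≤ s1 ∧ Y' ≤ z.im ∧ z.im ≤ c} := by
    refine closure_minimal (fun z hz => ⟨hz.1.le, hz.2.1.le, hz.2.2.le⟩) ?_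
    have e : {z : ℂ | |z.re - x1| ≤ s1 ∧ Y' ≤ z.im ∧ z.im ≤ c} =
        {z : ℂ | |z.re - x1| ≤ s1} ∩ ({z : ℂ | Y' ≤ z.im} ∩ {z : ℂ | z.im ≤ c}) := rfl
    rw [e]
    exact (isClosed_le (Complex.continuous_re.sub continuous_const).abs continuous_const).inter
      ((isClosed_le continuous_const Complex.continuous_im).inter
        (isClosed_le Complex.continuous_im continuous_const))
  have hin : ∀ z : ℂ, |z.re - x1| ≤ s1 → z.im ≤ c → |z.re - x1| < s0 ∧ z.im < lev :=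
    fun z h1 h2 => ⟨lt_of_le_of_lt h1 (by rw [hs1]; linarith),
      lt_of_le_of_lt h2 (by rw [hc]; linarith)⟩
  have hgc : DiffContOnCl ℂ g {z : ℂ | |z.re - x1| < s1 ∧ Y' < z.im ∧ z.im < c} := by
    refine DifferentiableOn.diffContOnCl fun z hz => ?_
    obtain ⟨h1, h2, h3⟩ := hcl hz
    obtain ⟨h4, h5⟩ := hin z h1 h3
    exact (hgd z h4 h5).differentiableWithinAt
  have hrec := rect_two (g := g) (x1 := x1) (s := s1) (c := c) (Y := Y') (a := a) (m := m)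
    hs1p hY'c ha hm hgc
    (fun z h1 _ h3 => hb z (hin z h1 h3).1 (hin z h1 h3).2)
    (fun z _ h2 => hlow z h2)
    (z := z) (hz1.trans (by rw [hs1]; linarith)) hz2 (hz3.trans (by rw [hc]; linarith))
  refine hrec.trans (mul_le_mul_of_nonneg_left (Real.exp_le_exp.2 ?_) ha)
  rw [← hk, ← hS]
  have hcos : Real.cos (k * (s0 - κ)) ≤ Real.cos (k * (z.re - x1)) := by
    rw [← Real.cos_abs (k * (z.re - x1)), abs_mul, abs_of_pos hk0]
    refine Real.cos_le_cos_of_nonneg_of_le_pi (by positivity) ?_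
      (mul_le_mul_of_nonneg_left hz1 hk0.le)
    have h1 : k * (s0 - κ) ≤ k * s1 := mul_le_mul_of_nonneg_left (by rw [hs1]; linarith) hk0.le
    rw [hks] at h1
    linarith [Real.pi_pos]
  have hsinh : Real.sinh (k * (κ / 2)) ≤ Real.sinh (k * (c - z.im)) := by
    rw [Real.sinh_le_sinh]
    exact mul_le_mul_of_nonneg_left (by rw [hc]; linarith) hk0.le
  have hωz : Real.cos (k * (s0 - κ)) * Real.sinh (k * (κ / 2)) / S ≤
      Real.cos (k * (z.re - x1)) * Real.sinh (k * (c - z.im)) / S := by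
    refine div_le_div_of_nonneg_right ?_ hS0.le
    exact mul_le_mul hcos hsinh hsinh0.le (le_trans hcos0.le hcos)
  have h1 := mul_le_mul_of_nonneg_left hωz hm
  linarith

theorem Wn_diff (hε : 0 < ε)
    (hwd : ∀ τ ∈ Icc t1 (t1 + ε), ∀ z : ℂ, |z.re - x1| < s0 → z.im < lev →
      DifferentiableAt ℂ (w τ) z) (n : ℕ) (t z : ℂ) (h1 : |z.re - x1| < s0) (h2 : z.im < lev) :
    DifferentiableAt ℂ (fun z => Wn w t1 ε n t z) z := by
  unfold Wn
  refine DifferentiableAt.fun_sum fun j hj => ?_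
  exact (hwd _ (nod_mem hε (Finset.mem_range.1 hj)) z h1 h2).mul_const _

theorem lag_diff (n : ℕ) (v : ℕ → ℂ) (j : ℕ) : Differentiable ℂ (lag n v j) := by
  have e : lag n v j = fun u => ∏ i ∈ (Finset.range n).erase j, (u - v i) / (v j - v i) := rfl
  rw [e]
  fun_prop

/-- the increments of the interpolation polynomials decay geometrically -/
theorem key (hε : 0 < ε) (hR : 0 ≤ R)
    (hwd : ∀ τ ∈ Icc t1 (t1 + ε), ∀ z : ℂ, |z.re - x1| < s0 → z.im < lev →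
      DifferentiableAt ℂ (w τ) z)
    (hwb : ∀ τ ∈ Icc t1 (t1 + ε), ∀ z : ℂ, |z.re - x1| < s0 → z.im < lev → ‖w τ z‖ ≤ B)
    (hWd : ∀ z : ℂ, z.im < Y → Differentiable ℂ (fun t => Wd t z))
    (hWb : ∀ z : ℂ, z.im < Y → ∀ t : ℂ, ‖Wd t z‖ ≤ C * Real.exp (R * |t.im|))
    (heq : ∀ z : ℂ, z.im < Y → ∀ τ ∈ Icc t1 (t1 + ε), Wd (τ : ℂ) z = w τ z)
    {r κ : ℝ} (hr : 0 ≤ r) (hκ : 0 < κ) (hκs : κ < s0) :
    ∃ (n0 : ℕ) (A : ℝ), ∀ n : ℕ, n0 ≤ n → ∀ t : ℂ, ‖t - t1‖ ≤ r → ∀ z : ℂ,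
      |z.re - x1| ≤ s0 - κ → z.im ≤ lev - κ →
      ‖Wn w t1 ε (n + 1) t z - Wn w t1 ε n t z‖ ≤ A * (1 / 2) ^ n := by
  have hC : 0 ≤ C := by
    have h1 := hWb ⟨0, Y - 1⟩ (by simp) 0
    have h2 := le_trans (norm_nonneg _) h1
    simpa using h2
  obtain ⟨Y', hY'⟩ : ∃ Y' : ℝ, Y' = min (Y - 1) (lev - κ - 1) := ⟨_, rfl⟩
  have hY'Y : Y' < Y := by rw [hY']; exact lt_of_le_of_lt (min_le_left _ _) (by linarith)
  have hY'c : Y' < lev - κ := by rw [hY']; exact lt_of_le_of_lt (min_le_right _ _) (by linarith)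
  obtain ⟨K, hK⟩ : ∃ K : ℝ, K = 6 * (r + ε) / ε := ⟨_, rfl⟩
  have hK6 : 6 ≤ K := by
    rw [hK, le_div_iff₀ hε]
    linarith
  have hK0 : 0 < K := by linarith
  -- the constant of the strip, which does not depend on the function
  have hup : ∃ ω0 : ℝ, 0 < ω0 ∧ ∀ (g : ℂ → ℂ) (a m : ℝ), 0 ≤ a → 0 ≤ m →
      (∀ z : ℂ, |z.re - x1| < s0 → z.im < lev → DifferentiableAt ℂ g z) →
      (∀ z : ℂ, |z.re - x1| < s0 → z.im < lev → ‖g z‖ ≤ a) →
      (∀ z : ℂ, z.im = Y' → ‖g z‖ ≤ a * Real.exp (-m)) →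
      ∀ z : ℂ, |z.re - x1| ≤ s0 - κ → Y' ≤ z.im → z.im ≤ lev - κ →
        ‖g z‖ ≤ a * Real.exp (-(m * ω0)) := upper hκ hκs hY'c
  obtain ⟨ω0, hω0, hω⟩ := hup
  obtain ⟨A', hA1, hA2⟩ : ∃ A' : ℝ, 1 ≤ A' ∧ Real.log (4 * K) ≤ A' * ω0 := by
    refine ⟨max 1 (Real.log (4 * K) / ω0), le_max_left _ _, ?_⟩
    rw [← div_le_iff₀ hω0]
    exact le_max_right _ _
  obtain ⟨q, hq⟩ : ∃ q : ℝ, q = Real.exp (-A') := ⟨_, rfl⟩
  have hq0 : 0 < q := by rw [hq]; exact Real.exp_pos _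
  have hq2 : q ≤ 1 / 2 := by
    have h1 : q ≤ Real.exp (-1) := by rw [hq]; exact Real.exp_le_exp.2 (by linarith)
    have h2 : Real.exp (-1) ≤ 1 / 2 := by
      rw [Real.exp_neg, inv_eq_one_div]
      refine one_div_le_one_div_of_le (by norm_num) ?_
      have := Real.add_one_le_exp (1 : ℝ)
      linarith
    exact h1.trans h2
  obtain ⟨Q, hQ⟩ : ∃ Q : ℝ, Q = Real.exp (-(A' * ω0)) := ⟨_, rfl⟩
  have hQ0 : 0 < Q := by rw [hQ]; exact Real.exp_pos _
  have hKq : K * Q ≤ 1 / 4 := by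
    have h1 : Q ≤ Real.exp (-Real.log (4 * K)) := by
      rw [hQ]; exact Real.exp_le_exp.2 (by linarith)
    rw [Real.exp_neg (Real.log (4 * K)), Real.exp_log (by positivity)] at h1
    calc K * Q ≤ K * (4 * K)⁻¹ := mul_le_mul_of_nonneg_left h1 hK0.le
      _ = 1 / 4 := by field_simp
  obtain ⟨n0, hn0⟩ := small (R := R) hε hC hq0 hr
  obtain ⟨P, hP⟩ : ∃ P : ℝ, P = C * Real.exp (R * ε) := ⟨_, rfl⟩
  have hP0 : 0 ≤ P := by rw [hP]; positivity
  rw [← hP] at hn0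
  obtain ⟨B1, hB10, hPB, hBB⟩ : ∃ B1 : ℝ, 0 < B1 ∧ P ≤ B1 ∧ |B| ≤ B1 :=
    ⟨|B| + 1 + P, by positivity, by linarith [abs_nonneg B], by linarith⟩
  refine ⟨n0, 2 * B1 * K, fun n hn t ht => ?_⟩
  have hn0' : (0 : ℝ) ≤ n := Nat.cast_nonneg n
  -- low part
  have hlow : ∀ z : ℂ, z.im < Y → ‖Wn w t1 ε (n + 1) t z - Wn w t1 ε n t z‖ ≤ 2 * P * q ^ n := by
    intro z hz
    obtain ⟨a1, a2, a3⟩ := hn0 n hn
    obtain ⟨b1, b2, b3⟩ := hn0 (n + 1) (le_trans hn (Nat.le_succ n))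
    have e1 := Wn_err (R := R) hε hR hC (hWd z hz) (hWb z hz) (heq z hz) ht a1 a2
    have e2 := Wn_err (R := R) hε hR hC (hWd z hz) (hWb z hz) (heq z hz) ht b1 b2
    have e3 := e1.trans a3
    have e4 := e2.trans b3
    have e5 : Wn w t1 ε (n + 1) t z - Wn w t1 ε n t z =
        (Wd t z - Wn w t1 ε n t z) - (Wd t z - Wn w t1 ε (n + 1) t z) := by ring
    rw [e5]
    refine (norm_sub_le _ _).trans ?_
    have e6 : P * q ^ (n + 1) ≤ P * q ^ n := by
      refine mul_le_mul_of_nonneg_left ?_ hP0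
      exact pow_le_pow_of_le_one hq0.le (by linarith) (Nat.le_succ n)
    linarith
  -- the bound on the strip
  have hbd : ∀ z : ℂ, |z.re - x1| < s0 → z.im < lev →
      ‖Wn w t1 ε (n + 1) t z - Wn w t1 ε n t z‖ ≤ 2 * (n + 1) * B1 * K ^ (n + 1) := by
    intro z hz1 hz2
    have e1 := Wn_bound (w := w) (B' := |B|) (z := z) hε
      (fun τ hτ => (hwb τ hτ z hz1 hz2).trans (le_abs_self B)) hr ht n
    have e2 := Wn_bound (w := w) (B' := |B|) (z := z) hε
      (fun τ hτ => (hwb τ hτ z hz1 hz2).trans (le_abs_self B)) hr ht (n + 1)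
    rw [← hK] at e1 e2
    refine (norm_sub_le _ _).trans ?_
    have e3 : (n : ℝ) * (|B| * K ^ n) ≤ (n + 1) * (B1 * K ^ (n + 1)) := by
      have h1 : K ^ n ≤ K ^ (n + 1) := pow_le_pow_right₀ (by linarith) (Nat.le_succ n)
      have h2 : |B| * K ^ n ≤ B1 * K ^ (n + 1) :=
        mul_le_mul hBB h1 (by positivity) hB10.le
      exact mul_le_mul (by linarith) h2 (by positivity) (by positivity)
    have e4 : ((n + 1 : ℕ) : ℝ) * (|B| * K ^ (n + 1)) ≤ (n + 1) * (B1 * K ^ (n + 1)) := by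
      push_cast
      exact mul_le_mul_of_nonneg_left (mul_le_mul_of_nonneg_right hBB (by positivity))
        (by positivity)
    linarith
  intro z hz1 hz2
  by_cases hzY : z.im < Y
  · refine (hlow z hzY).trans ?_
    have h1 : q ^ n ≤ (1 / 2) ^ n := pow_le_pow_left₀ hq0.le hq2 n
    have h2 : 2 * P ≤ 2 * B1 * K := by nlinarith
    exact mul_le_mul h2 h1 (by positivity) (by positivity)
  · push Not at hzY
    have hqn : Real.exp (-(A' * n)) = q ^ n := by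
      rw [hq, ← Real.exp_nat_mul]
      congr 1
      ring
    have hrec := hω (fun z => Wn w t1 ε (n + 1) t z - Wn w t1 ε n t z)
      (2 * (n + 1) * B1 * K ^ (n + 1)) (A' * n) (by positivity)
      (by positivity)
      (fun z h1 h2 => (Wn_diff hε hwd _ t z h1 h2).sub (Wn_diff hε hwd _ t z h1 h2))
      hbd
      (fun z h2 => by
        refine (hlow z (by rw [h2]; exact hY'Y)).trans ?_
        rw [hqn]
        refine mul_le_mul_of_nonneg_right ?_ (by positivity)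
        have h4 : (1 : ℝ) ≤ K ^ (n + 1) := one_le_pow₀ (by linarith)
        have h5 : 2 * P ≤ 2 * (n + 1) * B1 := by nlinarith
        calc 2 * P ≤ 2 * (n + 1) * B1 * 1 := by linarith
          _ ≤ 2 * (n + 1) * B1 * K ^ (n + 1) := mul_le_mul_of_nonneg_left h4 (by positivity))
      z hz1 (by linarith) hz2
    refine hrec.trans ?_
    have hexp : Real.exp (-(A' * n * ω0)) = Q ^ n := by
      rw [hQ, ← Real.exp_nat_mul]
      congr 1
      ring
    rw [hexp]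
    calc 2 * (n + 1) * B1 * K ^ (n + 1) * Q ^ n
        = 2 * B1 * K * (((n : ℝ) + 1) * (K * Q) ^ n) := by
          rw [mul_pow, pow_succ]; ring
      _ ≤ 2 * B1 * K * (((n : ℝ) + 1) * (1 / 4) ^ n) := by
          refine mul_le_mul_of_nonneg_left ?_ (by positivity)
          refine mul_le_mul_of_nonneg_left ?_ (by positivity)
          exact pow_le_pow_left₀ (by positivity) hKq n
      _ ≤ 2 * B1 * K * (1 / 2) ^ n := mul_le_mul_of_nonneg_left (nle n) (by positivity)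

/-- a sequence with geometrically decaying increments -/
theorem seq_lim {x : ℕ → ℂ} {A : ℝ} {n0 : ℕ}
    (h : ∀ n : ℕ, n0 ≤ n → ‖x (n + 1) - x n‖ ≤ A * (1 / 2) ^ n) :
    Tendsto x atTop (𝓝 (limUnder atTop x)) ∧
      ∀ n : ℕ, n0 ≤ n → ‖x n - limUnder atTop x‖ ≤ 2 * A * (1 / 2) ^ n := by
  have h1 : ∀ n : ℕ, n0 ≤ n → ∀ m, dist (x (m + n)) (x (m + 1 + n)) ≤
      A * (1 / 2) ^ n * (1 / 2) ^ m := by
    intro n hn m
    rw [dist_comm, dist_eq_norm]
    have h2 := h (m + n) (by omega)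
    have e : m + 1 + n = m + n + 1 := by ring
    rw [e]
    refine h2.trans (le_of_eq ?_)
    rw [pow_add]
    ring
  have hcau : CauchySeq (fun m => x (m + n0)) :=
    cauchySeq_of_le_geometric (1 / 2) (A * (1 / 2) ^ n0) (by norm_num) (h1 n0 le_rfl)
  obtain ⟨a, ha⟩ := cauchySeq_tendsto_of_complete hcau
  have ha' : Tendsto x atTop (𝓝 a) := (tendsto_add_atTop_iff_nat n0).1 ha
  have hlim : limUnder atTop x = a := ha'.limUnder_eq
  rw [hlim]
  refine ⟨ha', fun n hn => ?_⟩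
  have h3 := dist_le_of_le_geometric_of_tendsto₀ (1 / 2) (A * (1 / 2) ^ n) (by norm_num)
    (h1 n hn) ((tendsto_add_atTop_iff_nat n).2 ha')
  rw [zero_add, dist_eq_norm] at h3
  refine h3.trans (le_of_eq ?_)
  ring

/-- EXT -/
theorem extend (hs0 : 0 < s0) (hε : 0 < ε) (hY : Y < lev)
    (hR : 0 ≤ R)
    (hwd : ∀ τ ∈ Icc t1 (t1 + ε), ∀ z : ℂ, |z.re - x1| < s0 → z.im < lev →
      DifferentiableAt ℂ (w τ) z)
    (hwb : ∀ τ ∈ Icc t1 (t1 + ε), ∀ z : ℂ, |z.re - x1| < s0 → z.im < lev → ‖w τ z‖ ≤ B)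
    (hWd : ∀ z : ℂ, z.im < Y → Differentiable ℂ (fun t => Wd t z))
    (hWb : ∀ z : ℂ, z.im < Y → ∀ t : ℂ, ‖Wd t z‖ ≤ C * Real.exp (R * |t.im|))
    (heq : ∀ z : ℂ, z.im < Y → ∀ τ ∈ Icc t1 (t1 + ε), Wd (τ : ℂ) z = w τ z) :
    ∃ V : ℂ → ℂ → ℂ,
      (∀ z : ℂ, |z.re - x1| < s0 → z.im < Y → ∀ t, V t z = Wd t z) ∧
      ∀ (U : Set ℂ) (θ ζ : ℂ → ℂ), IsOpen U → DifferentiableOn ℂ θ U → DifferentiableOn ℂ ζ U →
        (∀ s ∈ U, |(ζ s).re - x1| < s0 ∧ (ζ s).im < lev) →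
        DifferentiableOn ℂ (fun s => V (θ s) (ζ s)) U := by
  have hC : 0 ≤ C := by
    have h1 := hWb ⟨0, Y - 1⟩ (by simp) 0
    have h2 := le_trans (norm_nonneg _) h1
    simpa using h2
  refine ⟨fun t z => limUnder atTop (fun n => Wn w t1 ε n t z), ?_, ?_⟩
  · intro z _ hz2 t
    refine Tendsto.limUnder_eq ?_
    obtain ⟨n1, hn1⟩ := small (R := R) (q := 1 / 2) (r := ‖t - t1‖) hε hC (by norm_num)
      (norm_nonneg _)
    rw [tendsto_iff_norm_sub_tendsto_zero]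
    have hgeo : Tendsto (fun n : ℕ => C * Real.exp (R * ε) * (1 / 2 : ℝ) ^ n) atTop (𝓝 0) := by
      have := (tendsto_pow_atTop_nhds_zero_of_lt_one (r := (1 / 2 : ℝ)) (by norm_num)
        (by norm_num)).const_mul (C * Real.exp (R * ε))
      simpa using this
    refine squeeze_zero' (Eventually.of_forall fun n => norm_nonneg _) ?_ hgeo
    filter_upwards [eventually_ge_atTop n1] with n hn
    obtain ⟨a1, a2, a3⟩ := hn1 n hn
    rw [norm_sub_rev]
    exact (Wn_err (R := R) hε hR hC (hWd z hz2) (hWb z hz2) (heq z hz2) le_rfl a1 a2).trans a3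
  · intro U θ ζ hU hθ hζ hin
    have hloc : TendstoLocallyUniformlyOn (fun (n : ℕ) (s : ℂ) => Wn w t1 ε n (θ s) (ζ s))
        (fun s => limUnder atTop (fun n => Wn w t1 ε n (θ s) (ζ s))) atTop U := by
      rw [Metric.tendstoLocallyUniformlyOn_iff]
      intro e he s hs
      obtain ⟨h1, h2⟩ := hin s hs
      set κ : ℝ := min ((s0 - |(ζ s).re - x1|) / 2) ((lev - (ζ s).im) / 2) with hκd
      have hκ : 0 < κ := lt_min (by linarith) (by linarith)
      have hκs : κ < s0 := by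
        refine lt_of_le_of_lt (min_le_left _ _) ?_
        have := abs_nonneg ((ζ s).re - x1)
        linarith
      have hκ1 : |(ζ s).re - x1| < s0 - κ := by
        have : κ ≤ (s0 - |(ζ s).re - x1|) / 2 := min_le_left _ _
        linarith
      have hκ2 : (ζ s).im < lev - κ := by
        have : κ ≤ (lev - (ζ s).im) / 2 := min_le_right _ _
        linarith
      obtain ⟨n0, A, hA⟩ := key (r := ‖θ s - t1‖ + 1) (κ := κ) hε hR hwd hwb hWd hWb heq
        (by positivity) hκ hκs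
      have hθc : ContinuousWithinAt θ U s := (hθ s hs).continuousWithinAt
      have hζc : ContinuousWithinAt ζ U s := (hζ s hs).continuousWithinAt
      have c1 : ∀ᶠ y in 𝓝[U] s, ‖θ y - t1‖ < ‖θ s - t1‖ + 1 := by
        have h3 : ContinuousWithinAt (fun y => ‖θ y - t1‖) U s :=
          (hθc.sub continuousWithinAt_const).norm
        exact h3.tendsto.eventually (gt_mem_nhds (by linarith))
      have c2 : ∀ᶠ y in 𝓝[U] s, |(ζ y).re - x1| < s0 - κ := by
        have h3 : ContinuousWithinAt (fun y => |(ζ y).re - x1|) U s :=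
          ((Complex.continuous_re.continuousAt.comp_continuousWithinAt hζc).sub
            continuousWithinAt_const).abs
        exact h3.tendsto.eventually (gt_mem_nhds hκ1)
      have c3 : ∀ᶠ y in 𝓝[U] s, (ζ y).im < lev - κ := by
        have h3 : ContinuousWithinAt (fun y => (ζ y).im) U s :=
          Complex.continuous_im.continuousAt.comp_continuousWithinAt hζc
        exact h3.tendsto.eventually (gt_mem_nhds hκ2)
      refine ⟨{y | ‖θ y - t1‖ < ‖θ s - t1‖ + 1 ∧ |(ζ y).re - x1| < s0 - κ ∧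
        (ζ y).im < lev - κ}, c1.and (c2.and c3), ?_⟩
      have hgeo : Tendsto (fun n : ℕ => 2 * A * (1 / 2 : ℝ) ^ n) atTop (𝓝 0) := by
        have := (tendsto_pow_atTop_nhds_zero_of_lt_one (r := (1 / 2 : ℝ)) (by norm_num)
          (by norm_num)).const_mul (2 * A)
        simpa using this
      filter_upwards [eventually_ge_atTop n0, hgeo.eventually (gt_mem_nhds he)] with n hn hne y hy
      rw [dist_comm, dist_eq_norm]
      refine lt_of_le_of_lt ?_ hne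
      exact (seq_lim (x := fun n => Wn w t1 ε n (θ y) (ζ y)) (A := A) (n0 := n0)
        (fun m hm => hA m hm (θ y) hy.1.le (ζ y) hy.2.1.le hy.2.2.le)).2 n hn
    refine hloc.differentiableOn (Eventually.of_forall fun n => ?_) hU
    intro s hs
    have e : (fun s => Wn w t1 ε n (θ s) (ζ s)) = fun s => ∑ j ∈ Finset.range n,
        w (nod t1 ε n j) (ζ s) * lag n (fun i => ((nod t1 ε n i : ℝ) : ℂ)) j (θ s) := rfl
    rw [e]
    refine DifferentiableWithinAt.fun_sum fun j hj => ?_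
    refine DifferentiableWithinAt.mul ?_ ?_
    · exact (hwd _ (nod_mem hε (Finset.mem_range.1 hj)) (ζ s) (hin s hs).1
        (hin s hs).2).comp_differentiableWithinAt s (hζ s hs)
    · exact (lag_diff n _ j (θ s)).comp_differentiableWithinAt s (hθ s hs)

end

end WW47.BS
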