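import Pool.Agent.WW47.BS.Base
import Pool.Agent.WW47.BS.Core2
import Pool.Agent.WW47.BS.Ext
import Pool.Agent.WW47.BS.ApDef

/-!
# Bounded time spectrum: the kinematic defect vanishes
-/

open Complex Set Filter Topology

namespace WW47.BS

open WW47.FS

variable {g κ γ : ℝ} {η ψ : ℝ → ℝ → ℝ} {Φ : ℝ → ℂ → ℝ} {q : ℝ → ℝ → ℝ} {p : ℝ → ℝ}

/-- bound of the velocity on a box -/
lemma box_bound {a b : ℝ} (hw : WaterWave g κ γ a b η ψ Φ q p) {u v : ℝ} (hu : a < u) (hv : v < b)
    (x0 s0 c lev : ℝ) : ∃ B : ℝ, ∀ τ ∈ Icc u v, ∀ z : ℂ, |z.re - x0| ≤ s0 → c ≤ z.im →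
      z.im ≤ lev → ‖Wt Φ (τ, z)‖ ≤ B := by
  have hK : IsCompact (Icc u v ×ˢ (Icc (x0 - s0) (x0 + s0) ×ℂ Icc c lev)) :=
    isCompact_Icc.prod (isCompact_Icc.reProdIm isCompact_Icc)
  obtain ⟨B, hB⟩ := hK.exists_bound_of_continuousOn (f := Wt Φ)
    ((contDiffOn_Wt hw.regΦ).continuousOn.mono (by
      rintro ⟨τ, z⟩ ⟨h1, -⟩
      exact ⟨⟨hu.trans_le h1.1, h1.2.trans_lt hv⟩, mem_univ _⟩))
  refine ⟨B, fun τ hτ z h1 h2 h3 => hB (τ, z) ⟨hτ, ?_⟩⟩
  rw [abs_le] at h1
  exact ⟨⟨by linarith [h1.1], by linarith [h1.2]⟩, ⟨h2, h3⟩⟩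

/-- the power against the exponential -/
lemma pow_exp_bound (M : ℕ) {s0 : ℝ} (hs0 : 0 ≤ s0) : ∃ K : ℝ, 0 ≤ K ∧ ∀ x : ℝ, 0 ≤ x →
    Real.exp (-x) * (x + s0) ^ M ≤ K := by
  refine ⟨M.factorial * Real.exp s0, by positivity, fun x hx => ?_⟩
  have h1 := Real.pow_div_factorial_le_exp (x + s0) (by linarith) M
  rw [div_le_iff₀ (by positivity)] at h1
  calc Real.exp (-x) * (x + s0) ^ M ≤ Real.exp (-x) * (Real.exp (x + s0) * M.factorial) := by
        gcongr
    _ = M.factorial * Real.exp s0 := by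
        rw [Real.exp_add, ← mul_assoc, ← mul_assoc, ← Real.exp_add]
        simp
        ring

/-- a component which contains a real point is symmetric -/
lemma comp_symm {N : ℂ → ℂ} {s0 c : ℝ} (hsym : ∀ t, N ((starRingEnd ℂ) t) = (starRingEnd ℂ) (N t))
    {t0 : ℂ} (ht0 : t0.im = 0) (hmem : t0 ∈ Om N s0 c) {t : ℂ}
    (ht : t ∈ connectedComponentIn (Om N s0 c) t0) :
    (starRingEnd ℂ) t ∈ connectedComponentIn (Om N s0 c) t0 := by
  have hc : (starRingEnd ℂ) t0 = t0 := by rw [conj_eq_iff_im]; exact ht0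
  have h1 : IsPreconnected ((starRingEnd ℂ) '' connectedComponentIn (Om N s0 c) t0) :=
    isPreconnected_connectedComponentIn.image _ continuous_conj.continuousOn
  have h2 : (starRingEnd ℂ) '' connectedComponentIn (Om N s0 c) t0 ⊆ Om N s0 c := by
    rintro _ ⟨w, hw, rfl⟩
    have h3 := connectedComponentIn_subset _ _ hw
    show |(N ((starRingEnd ℂ) w)).im| < s0 ∧ (N ((starRingEnd ℂ) w)).re < c
    rw [hsym, conj_im, conj_re, abs_neg]
    exact h3
  have h3 : t0 ∈ (starRingEnd ℂ) '' connectedComponentIn (Om N s0 c) t0 :=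
    ⟨t0, mem_connectedComponentIn hmem, hc⟩
  exact h1.subset_connectedComponentIn h3 h2 ⟨t, ht, rfl⟩

/-- **The kinematic defect vanishes** where the surface moves. -/
theorem defect (hw : ∀ T > 0, WaterWave g κ γ (-T) T η ψ Φ q p) {C R Y : ℝ} (hR : 0 ≤ R)
    (hη : ∀ x, BandLim C R (fun t => η t x))
    (hΦ : ∀ z : ℂ, z.im < Y → BandLim C R (fun t => px Φ t z) ∧ BandLim C R (fun t => py Φ t z))
    {x0 : ℝ} {N N1 : ℂ → ℂ} (hN : Differentiable ℂ N) (hN1 : Differentiable ℂ N1)
    (hNr : ∀ t : ℝ, N t = (η t x0 : ℂ)) (hN1r : ∀ t : ℝ, N1 t = (etax η t x0 : ℂ))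
    (hNb : ∀ t : ℂ, ‖N t‖ ≤ C * Real.exp (R * |t.im|))
    (hN1b : ∀ t : ℂ, ‖N1 t‖ ≤ C * Real.exp (R * |t.im|))
    (hap : ∀ δ > 0, ∃ L : ℝ, ∀ a : ℝ, ∃ τ ∈ Icc a (a + L), ∀ t : ℝ,
      |η (t + τ) x0 - η t x0| ≤ δ ∧ |etax η (t + τ) x0 - etax η t x0| ≤ δ)
    {t0 t1 : ℝ} (hlt : η t0 x0 < η t1 x0) : ∀ t : ℂ, deriv N t - γ * N t * N1 t = 0 := by
  classical
  have hC : 0 ≤ C := (hη 0).nonneg
  obtain ⟨c0, B0, Wd, hB0, hlow, hWd1, hWd2, hWd3⟩ := deep_data hw hη hΦ
  obtain ⟨lev, hlev0, hlev1⟩ := exists_between hlt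
  have hc0lev : c0 < lev := (hlow t0 x0).trans hlev0
  set T : ℝ := |t0| + |t1| + 2 with hT
  have hT0 : 0 < T := by positivity
  have hwT := hw T hT0
  have ht0 : t0 ∈ Ioo (-T) T := by
    have h1 := neg_abs_le t0
    have h2 := le_abs_self t0
    have h3 := abs_nonneg t1
    constructor <;> linarith
  have ht1 : t1 ∈ Ioo (-T) T := by
    have h1 := neg_abs_le t1
    have h2 := le_abs_self t1
    have h3 := abs_nonneg t0
    constructor <;> linarith
  -- a box where the surface is above the level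
  obtain ⟨s0, hs0, hbox⟩ : ∃ s0 > 0, ∀ s : ℝ, |s - t1| < s0 → s ∈ Ioo (-T) T ∧
      ∀ x : ℝ, |x - x0| < s0 → lev < η s x := by
    have h1 : ContinuousAt (fun P : ℝ × ℝ => η P.1 P.2) (t1, x0) :=
      (hwT.regη.continuousOn).continuousAt ((isOpen_domR (-T) T).mem_nhds ⟨ht1, mem_univ _⟩)
    have h2 : ∀ᶠ P : ℝ × ℝ in 𝓝 (t1, x0), lev < η P.1 P.2 :=
      h1.eventually (lt_mem_nhds hlev1)
    obtain ⟨r, hr, hr2⟩ := Metric.eventually_nhds_iff.1 h2
    obtain ⟨r', hr', hr2'⟩ := Metric.isOpen_iff.1 (isOpen_Ioo (a := -T) (b := T)) t1 ht1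
    refine ⟨min r r', lt_min hr hr', fun s hs => ⟨?_, fun x hx => ?_⟩⟩
    · exact hr2' (by rw [Metric.mem_ball, Real.dist_eq]; exact hs.trans_le (min_le_right _ _))
    · refine hr2 (y := (s, x)) ?_
      rw [Prod.dist_eq, max_lt_iff, Real.dist_eq, Real.dist_eq]
      exact ⟨hs.trans_le (min_le_left _ _), hx.trans_le (min_le_left _ _)⟩
  set ε : ℝ := s0 / 2 with hε
  have hε0 : 0 < ε := by positivity
  have hτ : ∀ τ ∈ Icc t1 (t1 + ε), |τ - t1| < s0 := by
    intro τ hτ
    rw [abs_of_nonneg (by linarith [hτ.1])]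
    linarith [hτ.2]
  -- bound on the strip
  obtain ⟨B1, hB1⟩ := box_bound hwT (u := t1) (v := t1 + ε) ht1.1
    (hbox (t1 + ε) (hτ _ ⟨by linarith, le_rfl⟩)).1.2 x0 s0 (c0 - 1) lev
  have hdeepreal : ∀ z : ℂ, z.im < c0 → ∀ t : ℝ, ‖Wt Φ (t, z)‖ ≤ B0 * Real.exp z.im := by
    intro z hz t
    rw [← hWd3 z hz t]
    have := hWd2 z hz t
    simpa using this
  obtain ⟨V, hV1, hV2⟩ := extend (x1 := x0) (s0 := s0) (lev := lev) (Y := c0) (t1 := t1) (ε := ε)
    (B := B1 + B0 * Real.exp c0) (C := B0 * Real.exp c0) (R := R) hs0 hε0 hc0lev hR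
    (w := fun τ z => Wt Φ (τ, z)) (Wd := Wd)
    (fun τ hτ' z hz1 hz2 => by
      obtain ⟨h1, h2⟩ := hbox τ (hτ τ hτ')
      exact Wt_hol hwT h1 (hz2.trans (h2 _ hz1)))
    (fun τ hτ' z hz1 hz2 => by
      show ‖Wt Φ (τ, z)‖ ≤ B1 + B0 * Real.exp c0
      rcases lt_or_ge z.im c0 with h | h
      · have h1 := hdeepreal z h τ
        have h2 : B0 * Real.exp z.im ≤ B0 * Real.exp c0 := by gcongr
        have h3 : 0 ≤ B1 := (norm_nonneg _).trans (hB1 t1 ⟨le_rfl, by linarith⟩
          ((x0 : ℂ) + (c0 : ℂ) * I) (by simp; exact hs0.le) (by simp) (by simp; exact hc0lev.le))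
        linarith
      · have h1 := hB1 τ hτ' z hz1.le (by linarith) hz2.le
        have h2 : 0 ≤ B0 * Real.exp c0 := by positivity
        linarith)
    hWd1
    (fun z hz t => by
      refine (hWd2 z hz t).trans ?_
      gcongr)
    (fun z hz τ _ => hWd3 z hz τ)
  -- the continued velocities at the surface
  set F1 : ℂ → ℂ := fun t => V t ((x0 : ℂ) + I * N t) with hF1
  set F2 : ℂ → ℂ := fun t => (starRingEnd ℂ) (F1 ((starRingEnd ℂ) t)) with hF2
  have hNsym : ∀ t, N ((starRingEnd ℂ) t) = (starRingEnd ℂ) (N t) := by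
    refine conj_symm hN (a := 0) (b := 1) one_pos fun t _ _ => ?_
    rw [hNr t]
    simp
  have hN1sym : ∀ t, N1 ((starRingEnd ℂ) t) = (starRingEnd ℂ) (N1 t) := by
    refine conj_symm hN1 (a := 0) (b := 1) one_pos fun t _ _ => ?_
    rw [hN1r t]
    simp
  have hOmo : IsOpen (Om N s0 lev) := isOpen_Om hN.continuous s0 lev
  have hF1d : DifferentiableOn ℂ F1 (Om N s0 lev) := by
    refine hV2 (Om N s0 lev) id (fun t => (x0 : ℂ) + I * N t) hOmo differentiableOn_id
      ((hN.const_mul I).const_add _).differentiableOn fun t ht => tube1 ht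
  have hOmsym : ∀ t, t ∈ Om N s0 lev → (starRingEnd ℂ) t ∈ Om N s0 lev := by
    intro t ht
    show |(N ((starRingEnd ℂ) t)).im| < s0 ∧ (N ((starRingEnd ℂ) t)).re < lev
    rw [hNsym, conj_im, conj_re, abs_neg]
    exact ht
  have hF2d : ∀ t ∈ Om N s0 lev, DifferentiableAt ℂ F2 t := by
    intro t ht
    have h1 := hF1d.differentiableAt (hOmo.mem_nhds (hOmsym t ht))
    have h4 := h1.star_star
    have h5 : star ((starRingEnd ℂ) t) = t := Complex.conj_conj _
    rw [h5] at h4
    exact h4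
  set P : ℂ → ℂ := fun t => deriv N t - γ * N t * N1 t with hP
  have hPd : Differentiable ℂ P := by
    have h1 : Differentiable ℂ (deriv N) := fun z => (hN.analyticAt z).deriv.differentiableAt
    exact h1.sub (((differentiable_const _).mul hN).mul hN1)
  have hdt : ∀ t : ℝ, ((deriv (fun s => η s x0) t : ℝ) : ℂ) = deriv N t := by
    intro t
    have hwt := hw _ (abs_pos1 t)
    have h1 : HasDerivAt (fun s : ℝ => N s) (deriv N t) t := ((hN t).hasDerivAt).comp_ofReal
    have h2 : HasDerivAt (fun s : ℝ => ((η s x0 : ℝ) : ℂ))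
        ((deriv (fun s => η s x0) t : ℝ) : ℂ) t := (etat_at hwt (mem_Ioo_abs t) x0).ofReal_comp
    have h3 : (fun s : ℝ => ((η s x0 : ℝ) : ℂ)) = fun s : ℝ => N s := funext fun s => (hNr s).symm
    rw [h3] at h2
    exact h2.unique h1
  set Q : ℂ → ℂ := fun t => I * (F1 t - F2 t) / 2 - N1 t * (F1 t + F2 t) / 2 with hQ
  -- the identity at real times
  have hreal : ∀ t : ℝ, η t x0 < lev → P t = Q t := by
    intro t htl
    have hwt := hw _ (abs_pos1 t)
    have htm := mem_Ioo_abs t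
    have hsurf : (x0 : ℂ) + I * N t = surf η t x0 := by
      rw [hNr t]
      unfold surf
      ring
    have hstrip : IsOpen {z : ℂ | |z.re - x0| < s0 ∧ z.im < lev} := by
      have h1 : IsOpen {z : ℂ | |z.re - x0| < s0} :=
        isOpen_lt (by fun_prop) continuous_const
      have h2 : IsOpen {z : ℂ | z.im < lev} := isOpen_lt continuous_im continuous_const
      exact h1.inter h2
    have hid := ident hwt htm (x0 := x0) (s0 := s0) (lev := lev) (c0 := c0) hs0
      (F := fun z => V t z)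
      (hV2 _ (fun _ => (t : ℂ)) id hstrip (differentiableOn_const _) differentiableOn_id
        (fun z hz => hz))
      (fun z hz1 hz2 => by
        show V t z = _
        rw [hV1 z hz1 hz2, hWd3 z hz2]) htl
    have h1 : F1 t = Wt Φ (t, surf η t x0) := by
      rw [hF1]
      simp only
      rw [hsurf]
      exact hid
    have h2 : F2 t = (starRingEnd ℂ) (Wt Φ (t, surf η t x0)) := by
      rw [hF2]
      simp only
      rw [conj_ofReal, h1]
    have hkin := hwt.kin t htm x0
    have h3 := hdt t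
    rw [hkin] at h3
    have h4 : Wt Φ (t, surf η t x0) = (px Φ t (surf η t x0) : ℂ) - I * (py Φ t (surf η t x0) : ℂ) := by
      rw [← vel_eq hwt.regΦ htm]
      rfl
    have h5 : (starRingEnd ℂ) (Wt Φ (t, surf η t x0)) =
        (px Φ t (surf η t x0) : ℂ) + I * (py Φ t (surf η t x0) : ℂ) := by
      rw [h4]
      simp
    rw [hQ, hP]
    simp only
    rw [h1, h2, h5, h4, ← h3, hNr t, hN1r t]
    unfold DN
    push_cast
    have hI : I ^ 2 = -1 := I_sq
    linear_combination (py Φ t (surf η t x0) : ℂ) * hI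
  -- the domain
  have hN0 : (N t0).im = 0 := by rw [hNr t0]; simp
  have hN0' : (N t0).re < lev := by rw [hNr t0]; simpa using hlev0
  have hN1' : lev < (N t1).re := by rw [hNr t1]; simpa using hlev1
  set O := connectedComponentIn (Om N s0 lev) t0 with hO
  have hOo : IsOpen O := hOmo.connectedComponentIn
  have hOp : IsPreconnected O := isPreconnected_connectedComponentIn
  have ht0Om : (t0 : ℂ) ∈ Om N s0 lev := by
    refine ⟨?_, hN0'⟩
    rw [hN0, abs_zero]
    exact hs0
  have ht0O : (t0 : ℂ) ∈ O := mem_connectedComponentIn ht0Om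
  have hOsub : O ⊆ Om N s0 lev := connectedComponentIn_subset _ _
  have hQd : DifferentiableOn ℂ Q O := by
    intro t ht
    have e1 : DifferentiableAt ℂ F1 t := hF1d.differentiableAt (hOmo.mem_nhds (hOsub ht))
    have e2 := hF2d t (hOsub ht)
    have e3 : DifferentiableAt ℂ N1 t := hN1 t
    exact ((((e1.sub e2).const_mul I).div_const 2).sub
      ((e3.mul (e1.add e2)).div_const 2)).differentiableWithinAt
  have hPQ : ∀ t ∈ O, P t = Q t := by
    have e1 : AnalyticOnNhd ℂ P O := hPd.differentiableOn.analyticOnNhd hOo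
    have e2 : AnalyticOnNhd ℂ Q O := hQd.analyticOnNhd hOo
    have e3 : ∃ᶠ t in 𝓝[≠] (t0 : ℂ), P t = Q t := by
      have hcη : ContinuousAt (fun s => η s x0) t0 :=
        (etat_at hwT ht0 x0).continuousAt
      have hev : ∀ᶠ s : ℝ in 𝓝 t0, η s x0 < lev := hcη.eventually (gt_mem_nhds hlev0)
      have hev' : ∀ᶠ s : ℝ in 𝓝[≠] t0, P s = Q s := by
        filter_upwards [hev.filter_mono nhdsWithin_le_nhds] with s hs using hreal s hs
      have htend : Tendsto (fun s : ℝ => (s : ℂ)) (𝓝[≠] t0) (𝓝[≠] (t0 : ℂ)) := by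
        rw [tendsto_nhdsWithin_iff]
        refine ⟨(continuous_ofReal.tendsto t0).mono_left nhdsWithin_le_nhds, ?_⟩
        filter_upwards [self_mem_nhdsWithin] with s hs
        intro h
        exact hs (ofReal_injective h)
      exact htend.frequently hev'.frequently
    intro t ht
    exact e1.eqOn_of_preconnected_of_frequently_eq e2 hOp ht0O e3 ht
  -- bounds on the defect
  obtain ⟨⟨C2, hC2⟩, hapP⟩ := ap_defect (γ := γ) hN hN1 hC hR hNb hN1b (fun δ hδ => by
    obtain ⟨L, hL⟩ := hap δ hδ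
    refine ⟨L, fun a => ?_⟩
    obtain ⟨τ, hτ1, hτ2⟩ := hL a
    refine ⟨τ, hτ1, fun s => ?_⟩
    obtain ⟨h1, h2⟩ := hτ2 s
    have e1 : ((s : ℂ) + (τ : ℂ)) = ((s + τ : ℝ) : ℂ) := by push_cast; rfl
    rw [e1, hNr, hNr, hN1r, hN1r, ← ofReal_sub, ← ofReal_sub, norm_real, norm_real,
      Real.norm_eq_abs, Real.norm_eq_abs]
    exact ⟨h1, h2⟩)
  -- deep part of the tract
  have hdeepP : ∀ t ∈ O, (N t).re < c0 →
      ‖P t‖ ≤ (1 + C) * B0 * Real.exp (2 * R * |t.im|) * Real.exp (N t).re := by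
    intro t ht hre
    rw [hPQ t ht]
    have hb : ∀ s ∈ Om N s0 lev, (N s).re < c0 →
        ‖F1 s‖ ≤ B0 * Real.exp (N s).re * Real.exp (R * |s.im|) := by
      intro s hs hsre
      have h1 := tube1 (x0 := x0) hs
      have h2 : ((x0 : ℂ) + I * N s).im = (N s).re := tube_im1 s
      rw [hF1]
      simp only
      rw [hV1 _ h1.1 (by rw [h2]; exact hsre) s]
      have h3 := hWd2 ((x0 : ℂ) + I * N s) (by rw [h2]; exact hsre) s
      rwa [h2] at h3
    have b1 := hb t (hOsub ht) hre
    have b2 : ‖F2 t‖ ≤ B0 * Real.exp (N t).re * Real.exp (R * |t.im|) := by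
      rw [hF2]
      simp only
      rw [RCLike.norm_conj]
      have h1 := hb _ (hOmsym t (hOsub ht)) (by rw [hNsym, conj_re]; exact hre)
      rwa [hNsym, conj_re, conj_im, abs_neg] at h1
    set E : ℝ := B0 * Real.exp (N t).re * Real.exp (R * |t.im|) with hE
    have hE0 : 0 ≤ E := by positivity
    have e1 : ‖I * (F1 t - F2 t) / 2‖ ≤ E := by
      rw [norm_div, norm_mul, norm_I, one_mul]
      have h2 : ‖(2 : ℂ)‖ = 2 := by simp
      rw [h2]
      have h3 := norm_sub_le (F1 t) (F2 t)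
      linarith
    have e2 : ‖N1 t * (F1 t + F2 t) / 2‖ ≤ C * Real.exp (R * |t.im|) * E := by
      rw [norm_div, norm_mul]
      have h2 : ‖(2 : ℂ)‖ = 2 := by simp
      rw [h2]
      have h3 := norm_add_le (F1 t) (F2 t)
      have h4 : ‖F1 t + F2 t‖ ≤ 2 * E := by linarith
      have h5 : ‖N1 t‖ * ‖F1 t + F2 t‖ ≤ (C * Real.exp (R * |t.im|)) * (2 * E) := by
        gcongr
        exact hN1b t
      linarith
    have e3 : 1 ≤ Real.exp (R * |t.im|) := Real.one_le_exp (by positivity)
    calc ‖Q t‖ ≤ E + C * Real.exp (R * |t.im|) * E := (norm_sub_le _ _).trans (add_le_add e1 e2)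
      _ ≤ Real.exp (R * |t.im|) * E + C * Real.exp (R * |t.im|) * E := by
          have := mul_le_mul_of_nonneg_right e3 hE0
          linarith
      _ = (1 + C) * B0 * (Real.exp (R * |t.im|) * Real.exp (R * |t.im|)) * Real.exp (N t).re := by
          rw [hE]; ring
      _ = _ := by
          rw [← Real.exp_add]
          congr 3
          ring
  -- arbitrarily high points
  have hOsym : ∀ t ∈ O, (starRingEnd ℂ) t ∈ O := fun t ht =>
    comp_symm hNsym (by simp) ht0Om ht
  have hbig : ∀ y : ℝ, ∃ t ∈ O, y ≤ t.im := by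
    intro y
    obtain ⟨t, htO, htK⟩ := unbounded hN hs0 hN0 hN0' hN1' (C * Real.exp (R * |y|))
    have h1 : y ≤ |t.im| := by
      by_contra hcon
      push Not at hcon
      have h2 : |t.im| ≤ |y| := hcon.le.trans (le_abs_self y)
      have h3 := (Complex.abs_re_le_norm (N t)).trans (hNb t)
      have h4 : C * Real.exp (R * |t.im|) ≤ C * Real.exp (R * |y|) := by gcongr
      have h5 := neg_le_abs (N t).re
      linarith
    rcases le_total 0 t.im with hpos | hneg
    · rw [abs_of_nonneg hpos] at h1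
      exact ⟨t, htO, h1⟩
    · rw [abs_of_nonpos hneg] at h1
      refine ⟨_, hOsym t htO, ?_⟩
      rw [conj_im]
      exact h1
  -- growth
  have hgrow : ∀ M : ℕ, ∃ C' : ℝ, ∀ t ∈ O, 0 ≤ t.im →
      ‖P t‖ * ‖N t‖ ^ M ≤ C' * Real.exp (2 * R * t.im) := by
    intro M
    obtain ⟨K, hK0, hK⟩ := pow_exp_bound M hs0.le
    set K1 : ℝ := |c0| + |lev| + s0 with hK1
    refine ⟨|C2| * K1 ^ M + (1 + C) * B0 * (K + (|c0| + s0) ^ M * Real.exp |c0|), fun t ht htim => ?_⟩
    have htOm := hOsub ht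
    have habs : |t.im| = t.im := abs_of_nonneg htim
    have hnn : 0 ≤ |C2| * K1 ^ M := by positivity
    have hnn2 : 0 ≤ (1 + C) * B0 * (K + (|c0| + s0) ^ M * Real.exp |c0|) := by positivity
    have hNn : ‖N t‖ ≤ |(N t).re| + |(N t).im| := Complex.norm_le_abs_re_add_abs_im _
    have him : |(N t).im| < s0 := htOm.1
    rcases lt_or_ge (N t).re c0 with hre | hre
    · have h1 := hdeepP t ht hre
      rw [habs] at h1
      rcases le_or_gt (N t).re 0 with h0 | h0
      · have h2 : ‖N t‖ ≤ -(N t).re + s0 := by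
          rw [abs_of_nonpos h0] at hNn
          linarith
        have h3 : Real.exp (N t).re * ‖N t‖ ^ M ≤ K := by
          have h4 := hK (-(N t).re) (by linarith)
          rw [neg_neg] at h4
          refine le_trans ?_ h4
          gcongr
        calc ‖P t‖ * ‖N t‖ ^ M ≤
            ((1 + C) * B0 * Real.exp (2 * R * t.im) * Real.exp (N t).re) * ‖N t‖ ^ M := by gcongr
          _ = (1 + C) * B0 * (Real.exp (N t).re * ‖N t‖ ^ M) * Real.exp (2 * R * t.im) := by ring
          _ ≤ (1 + C) * B0 * K * Real.exp (2 * R * t.im) := by gcongr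
          _ ≤ _ := by
              have h5 : (1 + C) * B0 * K ≤
                  (1 + C) * B0 * (K + (|c0| + s0) ^ M * Real.exp |c0|) := by
                have : 0 ≤ (|c0| + s0) ^ M * Real.exp |c0| := by positivity
                gcongr
                linarith
              gcongr
              linarith
      · have hc0' : (N t).re ≤ |c0| := hre.le.trans (le_abs_self c0)
        have h2 : ‖N t‖ ≤ |c0| + s0 := by
          rw [abs_of_pos h0] at hNn
          linarith
        calc ‖P t‖ * ‖N t‖ ^ M ≤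
            ((1 + C) * B0 * Real.exp (2 * R * t.im) * Real.exp |c0|) * (|c0| + s0) ^ M := by
              have h6 : ‖P t‖ ≤ (1 + C) * B0 * Real.exp (2 * R * t.im) * Real.exp |c0| := by
                refine h1.trans ?_
                gcongr
              gcongr
          _ = (1 + C) * B0 * ((|c0| + s0) ^ M * Real.exp |c0|) * Real.exp (2 * R * t.im) := by ring
          _ ≤ _ := by
              have h5 : (1 + C) * B0 * ((|c0| + s0) ^ M * Real.exp |c0|) ≤
                  (1 + C) * B0 * (K + (|c0| + s0) ^ M * Real.exp |c0|) := by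
                gcongr
                linarith
              gcongr
              linarith
    · have h1 := hC2 t
      rw [habs] at h1
      have h2 : |(N t).re| ≤ |c0| + |lev| := by
        rw [abs_le]
        have h3 := neg_abs_le c0
        have h4 := le_abs_self lev
        have h5 := abs_nonneg c0
        have h6 := abs_nonneg lev
        have h7 := htOm.2
        constructor <;> linarith
      have h3 : ‖N t‖ ≤ K1 := by rw [hK1]; linarith
      calc ‖P t‖ * ‖N t‖ ^ M ≤ (|C2| * Real.exp (2 * R * t.im)) * K1 ^ M := by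
            have h6 : ‖P t‖ ≤ |C2| * Real.exp (2 * R * t.im) := by
              refine h1.trans ?_
              gcongr
              exact le_abs_self C2
            gcongr
        _ = |C2| * K1 ^ M * Real.exp (2 * R * t.im) := by ring
        _ ≤ _ := by
            gcongr
            linarith
  have hfin := core (N := N) (P := P) (C := |C2| + C) (R := 2 * R) (A := 2 * R) hN hPd
    (fun t ht => by
      have h1 := hNb t
      rw [abs_of_nonneg ht] at h1
      refine h1.trans ?_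
      have h2 : C ≤ |C2| + C := by linarith [abs_nonneg C2]
      have h3 : R * t.im ≤ 2 * R * t.im := by nlinarith
      gcongr)
    (fun t ht => by
      have h1 := hC2 t
      rw [abs_of_nonneg ht] at h1
      refine h1.trans ?_
      have h2 : C2 ≤ |C2| + C := by linarith [le_abs_self C2]
      gcongr)
    hapP hOp ht0O (by simp) hbig hgrow
  rcases hfin with h | ⟨B, hB⟩
  · exact h
  · exfalso
    have hbd : ∀ t, ‖N t‖ ≤ B := by
      intro t
      rcases le_total 0 t.im with h | h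
      · exact hB t h
      · have h1 := hB ((starRingEnd ℂ) t) (by rw [conj_im]; linarith)
        rwa [hNsym, RCLike.norm_conj] at h1
    have hconst := hN.apply_eq_apply_of_bounded (isBounded_iff_forall_norm_le.2 ⟨B, by
      rintro _ ⟨t, rfl⟩
      exact hbd t⟩) (t0 : ℂ) (t1 : ℂ)
    rw [hNr, hNr] at hconst
    have : η t0 x0 = η t1 x0 := by exact_mod_cast hconst
    linarith

end WW47.BS
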